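import Mathlib

set_option autoImplicit false

namespace Pool.Agent.H646Z

open Finset ArithmeticFunction
open scoped ArithmeticFunction.Omega

theorem exists_small_totient (ε : ℝ) (hε : 0 < ε) :
    ∃ Q : ℕ, 0 < Q ∧ (Nat.totient Q : ℝ) ≤ ε * Q := by
  classical
  have hns := Nat.Primes.not_summable_one_div
  have h1 : ∃ u : Finset Nat.Primes, -Real.log ε < ∑ p ∈ u, (1 / (p : ℝ)) := by
    by_contra hcon
    push Not at hcon
    exact hns (summable_of_sum_le (fun p => by positivity) hcon)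
  obtain ⟨u, hu⟩ := h1
  set S : Finset ℕ := u.image (fun p : Nat.Primes => (p : ℕ)) with hS
  have hSp : ∀ p ∈ S, p.Prime := by
    intro p hp
    obtain ⟨q, -, rfl⟩ := mem_image.1 hp
    exact q.2
  have hsum : ∑ p ∈ S, (1 / (p : ℝ)) = ∑ p ∈ u, (1 / (p : ℝ)) := by
    rw [hS, sum_image]
    intro a _ b _ hab
    exact Subtype.ext hab
  refine ⟨∏ p ∈ S, p, prod_pos fun p hp => (hSp p hp).pos, ?_⟩
  have h2 := Nat.totient_eq_mul_prod_factors (∏ p ∈ S, p)
  rw [Nat.primeFactors_prod hSp] at h2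
  have h3 : (Nat.totient (∏ p ∈ S, p) : ℝ) =
      ((∏ p ∈ S, p : ℕ) : ℝ) * ∏ p ∈ S, (1 - (p : ℝ)⁻¹) := by
    have := congrArg (fun x : ℚ => (x : ℝ)) h2
    simpa using this
  rw [h3, mul_comm]
  refine mul_le_mul_of_nonneg_right ?_ (by positivity)
  have h4 : ∏ p ∈ S, (1 - (p : ℝ)⁻¹) ≤ ∏ p ∈ S, Real.exp (-(1 / (p : ℝ))) := by
    refine prod_le_prod (fun p hp => ?_) (fun p _ => ?_)
    · have : (1 : ℝ) ≤ p := by exact_mod_cast (hSp p hp).one_lt.le
      have := inv_le_one_of_one_le₀ this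
      linarith
    · have := Real.add_one_le_exp (-(1 / (p : ℝ)))
      rw [one_div] at this ⊢
      linarith
  refine h4.trans ?_
  rw [← Real.exp_sum, sum_neg_distrib, hsum]
  calc Real.exp (-∑ p ∈ u, (1 / (p : ℝ))) ≤ Real.exp (Real.log ε) :=
        Real.exp_le_exp.2 (by linarith)
    _ = ε := Real.exp_log hε

/-- integers with fewer than `a` prime factors have density zero -/
theorem few_factors (a : ℕ) : ∀ ε : ℝ, 0 < ε → ∃ N0 : ℕ, ∀ N : ℕ, N0 ≤ N →
    (((Icc 1 N).filter fun m => Ω m < a).card : ℝ) ≤ ε * N := by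
  induction a with
  | zero =>
    intro ε hε
    refine ⟨0, fun N _ => ?_⟩
    simp only [Nat.not_lt_zero, filter_false, card_empty, Nat.cast_zero]
    positivity
  | succ a ih =>
    intro ε hε
    obtain ⟨Q, hQ, hφ⟩ := exists_small_totient (ε / 3) (by positivity)
    have hQr : (0 : ℝ) < Q := by exact_mod_cast hQ
    obtain ⟨N1, hN1⟩ := ih (ε / (3 * Q)) (by positivity)
    refine ⟨max N1 Q, fun N hN => ?_⟩
    have hN1' : N1 ≤ N := (le_max_left _ _).trans hN
    have hQN : Q ≤ N := (le_max_right _ _).trans hN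
    have hsub : ((Icc 1 N).filter fun m => Ω m < a + 1) ⊆
        ((Ico 1 (1 + N)).filter fun m => Q.Coprime m) ∪
          Q.primeFactors.biUnion fun p =>
            ((Icc 1 N).filter fun m => Ω m < a).image fun k => p * k := by
      intro m hm
      simp only [mem_filter, mem_Icc] at hm
      obtain ⟨⟨hm1, hm2⟩, hm3⟩ := hm
      by_cases hc : Q.Coprime m
      · exact mem_union_left _ (mem_filter.2 ⟨mem_Ico.2 ⟨hm1, by omega⟩, hc⟩)
      · refine mem_union_right _ ?_
        obtain ⟨p, hp, hpQ, k, rfl⟩ := Nat.Prime.not_coprime_iff_dvd.1 hc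
        have hk : k ≠ 0 := by
          rintro rfl
          simp at hm1
        refine mem_biUnion.2 ⟨p, Nat.mem_primeFactors.2 ⟨hp, hpQ, hQ.ne'⟩, ?_⟩
        refine mem_image.2 ⟨k, mem_filter.2 ⟨mem_Icc.2 ⟨Nat.pos_of_ne_zero hk, ?_⟩, ?_⟩, rfl⟩
        · exact (Nat.le_mul_of_pos_left k hp.pos).trans hm2
        · rw [cardFactors_mul hp.ne_zero hk, cardFactors_apply_prime hp] at hm3
          omega
    have h1 := Nat.Ico_filter_coprime_le 1 N hQ.ne'
    have h2 : (Q.primeFactors.biUnion fun p =>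
        ((Icc 1 N).filter fun m => Ω m < a).image fun k => p * k).card ≤
        Q * ((Icc 1 N).filter fun m => Ω m < a).card := by
      refine card_biUnion_le.trans ?_
      refine (sum_le_card_nsmul _ _ _ fun p _ => card_image_le).trans ?_
      rw [smul_eq_mul]
      refine Nat.mul_le_mul_right _ ?_
      have : Q.primeFactors ⊆ Icc 1 Q := fun p hp =>
        mem_Icc.2 ⟨(Nat.prime_of_mem_primeFactors hp).pos, Nat.le_of_mem_primeFactors hp⟩
      simpa using card_le_card this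
    have h3 := (card_le_card hsub).trans ((card_union_le _ _).trans (Nat.add_le_add h1 h2))
    have h4 : (((Icc 1 N).filter fun m => Ω m < a + 1).card : ℝ) ≤
        (Nat.totient Q : ℝ) * (((N / Q : ℕ) : ℝ) + 1) +
          Q * (((Icc 1 N).filter fun m => Ω m < a).card : ℝ) := by exact_mod_cast h3
    have h5 : ((N / Q : ℕ) : ℝ) ≤ (N : ℝ) / Q := Nat.cast_div_le
    have h6 : (Q : ℝ) ≤ N := by exact_mod_cast hQN
    have h7 := hN1 N hN1'
    have h8 : (Nat.totient Q : ℝ) * (((N / Q : ℕ) : ℝ) + 1) ≤ ε / 3 * Q * ((N : ℝ) / Q + 1) :=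
      mul_le_mul hφ (by linarith) (by positivity) (by positivity)
    have h9 : ε / 3 * Q * ((N : ℝ) / Q + 1) = ε / 3 * N + ε / 3 * Q := by field_simp
    have h10 : (Q : ℝ) * (((Icc 1 N).filter fun m => Ω m < a).card : ℝ) ≤
        Q * (ε / (3 * Q) * N) := mul_le_mul_of_nonneg_left h7 hQr.le
    have h11 : (Q : ℝ) * (ε / (3 * Q) * N) = ε / 3 * N := by field_simp
    have h12 : ε / 3 * Q ≤ ε / 3 * N := mul_le_mul_of_nonneg_left h6 (by positivity)
    linarith

end Pool.Agent.H646Z
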