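import Pool.Agent.H646Z.OmegaDens

set_option autoImplicit false

namespace Pool.Agent.H646Z.OmSys

open Finset ArithmeticFunction MeasureTheory Filter Topology
open scoped ArithmeticFunction.Omega

/-- a defect at position `i` -/
def Df (y : ℕ → Bool) (i : ℕ) : Prop := y (i + 1) = y i

/-- sequences whose defects have pairwise distinct differences -/
def XS : Set (ℕ → Bool) :=
  {y | ∀ i j r, 0 < r → Df y i → Df y (i + r) → Df y j → Df y (j + r) → i = j}

theorem isClopen_Df (i : ℕ) : IsClopen {y : ℕ → Bool | Df y i} := by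
  have h : Continuous fun y : ℕ → Bool => (y (i + 1), y i) := by fun_prop
  exact (isClopen_discrete {p : Bool × Bool | p.1 = p.2}).preimage h

theorem isClosed_XS : IsClosed XS := by
  have h : XS = ⋂ i, ⋂ j, ⋂ r, {y : ℕ → Bool |
      0 < r → Df y i → Df y (i + r) → Df y j → Df y (j + r) → i = j} := by
    ext y
    simp only [XS, Set.mem_ofPred_eq, Set.mem_iInter]
  rw [h]
  refine isClosed_iInter fun i => isClosed_iInter fun j => isClosed_iInter fun r => ?_
  refine isClosed_imp isOpen_const ?_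
  refine isClosed_imp (isClopen_Df i).2 ?_
  refine isClosed_imp (isClopen_Df _).2 ?_
  refine isClosed_imp (isClopen_Df _).2 ?_
  exact isClosed_imp (isClopen_Df _).2 isClosed_const

instance : CompactSpace XS := isCompact_iff_compactSpace.1 isClosed_XS.isCompact

/-- the shift -/
def sh (y : XS) : XS := ⟨fun i => y.1 (i + 1), fun i j r hr h1 h2 h3 h4 => by
  have := y.2 (i + 1) (j + 1) r hr h1
    (by unfold Df at h2 ⊢; rw [show i + 1 + r = i + r + 1 by ring]; exact h2) h3
    (by unfold Df at h4 ⊢; rw [show j + 1 + r = j + r + 1 by ring]; exact h4)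
  omega⟩

theorem continuous_sh : Continuous sh := by
  refine Continuous.subtype_mk (continuous_pi fun i => ?_) _
  exact (continuous_apply (i + 1)).comp continuous_subtype_val

theorem sh_iter (k : ℕ) (y : XS) (i : ℕ) : (sh^[k] y).1 i = y.1 (i + k) := by
  induction k generalizing y i with
  | zero => rfl
  | succ k ih =>
    rw [Function.iterate_succ_apply, ih]
    rfl

theorem Df_iter (k : ℕ) (y : XS) (i : ℕ) : Df (sh^[k] y).1 i ↔ Df y.1 (i + k) := by
  unfold Df
  rw [sh_iter, sh_iter, show i + 1 + k = i + k + 1 by ring]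

/-- the two alternating sequences -/
def alt (s : Bool) : XS := ⟨fun i => xor s (Nat.bodd i), fun i j r _ h1 _ _ _ => by
  change xor s (Nat.bodd (i + 1)) = xor s (Nat.bodd i) at h1
  rw [Nat.bodd_succ] at h1
  revert h1
  cases s <;> cases Nat.bodd i <;> simp⟩

theorem sh_alt (s : Bool) : sh (alt s) = alt (!s) := by
  refine Subtype.ext (funext fun i => ?_)
  change xor s (Nat.bodd (i + 1)) = xor (!s) (Nat.bodd i)
  rw [Nat.bodd_succ]
  cases s <;> cases Nat.bodd i <;> rfl

theorem eq_alt (y : XS) (h : ∀ i, ¬ Df y.1 i) : y = alt (y.1 0) := by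
  refine Subtype.ext (funext fun i => ?_)
  change y.1 i = xor (y.1 0) (Nat.bodd i)
  induction i with
  | zero => simp
  | succ i ih =>
    have := h i
    unfold Df at this
    rw [Nat.bodd_succ]
    rw [ih] at this
    revert this
    cases y.1 (i + 1) <;> cases y.1 0 <;> cases Nat.bodd i <;> simp

theorem alt_ne : alt true ≠ alt false := by
  intro h
  have := congrFun (congrArg Subtype.val h) 0
  simp [alt] at this

theorem unique_inv [MeasurableSpace XS] [BorelSpace XS] :
    ∃! μ : Measure XS, IsProbabilityMeasure μ ∧ μ.map sh = μ := by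
  have hm : Measurable sh := continuous_sh.measurable
  have hD : ∀ i, MeasurableSet {y : XS | Df y.1 i} := fun i =>
    ((isClopen_Df i).2.preimage continuous_subtype_val).measurableSet
  have key : ∀ μ : Measure XS, IsProbabilityMeasure μ → μ.map sh = μ →
      μ = (2⁻¹ : ENNReal) • (Measure.dirac (alt true) + Measure.dirac (alt false)) := by
    intro μ hμ hinv
    have hp : MeasurePreserving sh μ μ := ⟨hm, hinv⟩
    have hc := hp.conservative
    have hE : ∀ r, μ {y : XS | Df y.1 0 ∧ Df y.1 (r + 1)} = 0 := by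
      intro r
      by_contra hne
      obtain ⟨y, hy, k, hk, hky⟩ := hc.exists_mem_iterate_mem
        ((hD 0).inter (hD (r + 1))).nullMeasurableSet hne
      obtain ⟨h1, h2⟩ := hky
      simp only [Set.mem_ofPred_eq, Df_iter] at h1 h2
      have := y.2 0 k (r + 1) (by omega) hy.1 (by simpa using hy.2) (by simpa using h1)
        (by rw [add_comm]; exact h2)
      exact hk this.symm
    have hG : μ {y : XS | Df y.1 0 ∧ ∀ r, ¬ Df y.1 (r + 1)} = 0 := by
      by_contra hne
      have hmeas : MeasurableSet {y : XS | Df y.1 0 ∧ ∀ r, ¬ Df y.1 (r + 1)} := by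
        refine (hD 0).inter ?_
        change MeasurableSet {y : XS | ∀ r, ¬ Df y.1 (r + 1)}
        rw [Set.ofPred_forall]
        exact MeasurableSet.iInter fun r => (hD (r + 1)).compl
      obtain ⟨y, hy, k, hk, hky⟩ := hc.exists_mem_iterate_mem hmeas.nullMeasurableSet hne
      have h1 := hky.1
      rw [Df_iter] at h1
      obtain ⟨k', rfl⟩ := Nat.exists_eq_succ_of_ne_zero hk
      exact hy.2 k' (by simpa using h1)
    have hD0 : μ {y : XS | Df y.1 0} = 0 := by
      refine measure_mono_null (t := {y : XS | Df y.1 0 ∧ ∀ r, ¬ Df y.1 (r + 1)} ∪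
        ⋃ r, {y : XS | Df y.1 0 ∧ Df y.1 (r + 1)}) ?_ ?_
      · intro y hy
        by_cases h : ∀ r, ¬ Df y.1 (r + 1)
        · exact Or.inl ⟨hy, h⟩
        · push Not at h
          obtain ⟨r, hr⟩ := h
          exact Or.inr (Set.mem_iUnion.2 ⟨r, hy, hr⟩)
      · exact measure_union_null hG (measure_iUnion_null hE)
    have hDi : ∀ i, μ {y : XS | Df y.1 i} = 0 := by
      intro i
      have h1 := (hp.iterate i).measure_preimage (hD 0).nullMeasurableSet
      rw [hD0] at h1
      rw [← h1]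
      congr 1
      ext y
      simp only [Set.mem_ofPred_eq, Set.mem_preimage, Df_iter, zero_add]
    have hco : μ ({alt true, alt false} : Set XS)ᶜ = 0 := by
      refine measure_mono_null (t := ⋃ i, {y : XS | Df y.1 i}) ?_ (measure_iUnion_null hDi)
      intro y hy
      by_contra hcon
      apply hy
      have h1 : ∀ i, ¬ Df y.1 i := fun i hi => hcon (Set.mem_iUnion.2 ⟨i, hi⟩)
      have h2 := eq_alt y h1
      cases h3 : y.1 0
      · rw [h3] at h2; exact Or.inr h2
      · rw [h3] at h2; exact Or.inl h2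
    have hle : ∀ s, μ {alt s} ≤ μ {alt (!s)} := by
      intro s
      rw [← hp.measure_preimage (measurableSet_singleton (alt (!s))).nullMeasurableSet]
      refine measure_mono ?_
      rintro y rfl
      exact sh_alt s
    have heq : μ {alt true} = μ {alt false} := le_antisymm (hle true) (hle false)
    have hsplit : ∀ s : Set XS, μ s = μ (s ∩ {alt true}) + μ (s ∩ {alt false}) := by
      intro s
      rw [← measure_inter_conull hco]
      have : s ∩ ({alt true, alt false} : Set XS) = (s ∩ {alt true}) ∪ (s ∩ {alt false}) := by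
        rw [← Set.inter_union_distrib_left]; rfl
      rw [this, measure_union]
      · exact Disjoint.mono Set.inter_subset_right Set.inter_subset_right
          (Set.disjoint_singleton.2 alt_ne)
      · exact (Set.subsingleton_singleton.anti Set.inter_subset_right).measurableSet
    have hhalf : μ {alt false} = 2⁻¹ := by
      have h1 := hsplit Set.univ
      rw [measure_univ, Set.univ_inter, Set.univ_inter, heq, ← two_mul] at h1
      exact ENNReal.eq_inv_of_mul_eq_one_left (by rw [mul_comm]; exact h1.symm)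
    have hind : ∀ (s : Set XS) (z : XS), μ {z} = 2⁻¹ →
        μ (s ∩ {z}) = 2⁻¹ * s.indicator 1 z := by
      intro s z hz
      by_cases h : z ∈ s
      · rw [Set.inter_eq_right.2 (Set.singleton_subset_iff.2 h), hz, Set.indicator_of_mem h]
        simp
      · rw [Set.inter_singleton_eq_empty.2 h, Set.indicator_of_notMem h]
        simp
    ext s hs
    rw [hsplit s, hind s _ hhalf, hind s _ (heq.trans hhalf)]
    simp only [Measure.smul_apply, Measure.add_apply, Measure.dirac_apply' _ hs, smul_eq_mul,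
      mul_add]
  refine ⟨(2⁻¹ : ENNReal) • (Measure.dirac (alt true) + Measure.dirac (alt false)), ⟨⟨?_⟩, ?_⟩,
    fun μ hμ => key μ hμ.1 hμ.2⟩
  · simp only [Measure.smul_apply, Measure.add_apply, measure_univ, smul_eq_mul]
    rw [one_add_one_eq_two]
    exact ENNReal.inv_mul_cancel (by norm_num) (by norm_num)
  · rw [Measure.map_smul, Measure.map_add _ _ hm, Measure.map_dirac' hm, Measure.map_dirac' hm,
      sh_alt, sh_alt, add_comm]
    rfl

/-- scales at which few integers have fewer than `a` prime factors -/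
theorem exists_scale (a : ℕ) : ∃ N : ℕ, a ≤ N ∧ 0 < N ∧
    (((Icc 1 N).filter fun m => Ω m < a).card : ℝ) ≤ 1 / 4 * N := by
  obtain ⟨N0, h⟩ := few_factors a (1 / 4) (by norm_num)
  exact ⟨N0 + a + 1, by omega, by omega, h _ (by omega)⟩

/-- the scale attached to `a` -/
noncomputable def sc (a : ℕ) : ℕ := (exists_scale a).choose

/-- the defect positions -/
noncomputable def dd : ℕ → ℕ
  | 0 => 1
  | k + 1 => 2 * dd k + 1 + 4 * ∑ m ∈ Icc 1 (sc (dd k + 1)), Ω m

theorem dd_step (k : ℕ) : 2 * dd k < dd (k + 1) := by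
  rw [dd]; omega

theorem dd_mono : StrictMono dd := strictMono_nat_of_lt_succ fun k => by
  have := dd_step k; omega

theorem dd_two {k l : ℕ} (h : k < l) : 2 * dd k < dd l :=
  (dd_step k).trans_le (dd_mono.monotone h)

open Classical in
/-- the starting point -/
noncomputable def xx (i : ℕ) : Bool := Nat.bodd (i + Nat.count (fun j => ∃ k, dd k = j) i)

theorem Df_xx (i : ℕ) (h : Df xx i) : ∃ k, dd k = i := by
  classical
  by_contra hcon
  unfold Df xx at h
  rw [Nat.count_succ, if_neg hcon, add_zero, add_right_comm, Nat.bodd_succ] at h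
  revert h
  cases Nat.bodd (i + _) <;> simp

theorem xx_mem : xx ∈ XS := by
  intro i j r hr h1 h2 h3 h4
  obtain ⟨a, ha⟩ := Df_xx _ h1
  obtain ⟨b, hb⟩ := Df_xx _ h2
  obtain ⟨c, hc⟩ := Df_xx _ h3
  obtain ⟨e, he⟩ := Df_xx _ h4
  have hab : a < b := dd_mono.lt_iff_lt.1 (by omega)
  have hce : c < e := dd_mono.lt_iff_lt.1 (by omega)
  have h5 := dd_two hab
  have h6 := dd_two hce
  rcases lt_trichotomy b e with h | h | h
  · have := dd_two h
    omega
  · subst h; omega
  · have := dd_two h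
    omega

theorem xx_val (k i : ℕ) (h1 : dd k < i) (h2 : i ≤ dd (k + 1)) : xx i = Nat.bodd (i + (k + 1)) := by
  classical
  unfold xx
  congr 2
  rw [Nat.count_eq_card_filter_range]
  have : (range i).filter (fun j => ∃ k, dd k = j) = (range (k + 1)).image dd := by
    ext j
    simp only [mem_filter, mem_range, mem_image]
    constructor
    · rintro ⟨hj, l, rfl⟩
      exact ⟨l, dd_mono.lt_iff_lt.1 (by omega), rfl⟩
    · rintro ⟨l, hl, rfl⟩
      have := dd_mono.monotone (Nat.lt_succ_iff.1 hl)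
      exact ⟨by omega, l, rfl⟩
  convert (congrArg card this).trans _
  rw [card_image_of_injective _ dd_mono.injective, card_range]

/-- the observable -/
noncomputable def gg (b : Bool) : ℂ := if b then 1 else 0

/-- the observable as a continuous function -/
noncomputable def FF : C(XS, ℂ) := ⟨fun y => gg (y.1 0),
  (continuous_of_discreteTopology (f := gg)).comp
    ((continuous_apply 0).comp continuous_subtype_val)⟩

/-- the averages -/
noncomputable def avg (N : ℕ) : ℂ :=
  (1 / (N : ℂ) ^ 2) * ∑ m ∈ Icc 1 N, ∑ n ∈ Icc 1 N,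
    FF (sh^[Ω (m ^ 2 * n ^ 2)] ⟨xx, xx_mem⟩)

theorem avg_close (k : ℕ) : ‖avg (sc (dd k + 1)) - gg (Nat.bodd (k + 1))‖ ≤ 1 / 4 := by
  obtain ⟨-, hN0, hN⟩ := (exists_scale (dd k + 1)).choose_spec
  change 0 < sc (dd k + 1) at hN0
  change (((Icc 1 (sc (dd k + 1))).filter fun m => Ω m < dd k + 1).card : ℝ) ≤
    1 / 4 * (sc (dd k + 1)) at hN
  have hdd : dd (k + 1) = 2 * dd k + 1 + 4 * ∑ m ∈ Icc 1 (sc (dd k + 1)), Ω m := by rw [dd]
  set N := sc (dd k + 1) with hNdef
  have hNc : (N : ℂ) ≠ 0 := by exact_mod_cast hN0.ne'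
  have hNr : (0 : ℝ) < N := by exact_mod_cast hN0
  have h1 : avg N - gg (Nat.bodd (k + 1)) = (1 / (N : ℂ) ^ 2) * ∑ m ∈ Icc 1 N, ∑ n ∈ Icc 1 N,
      (FF (sh^[Ω (m ^ 2 * n ^ 2)] ⟨xx, xx_mem⟩) - gg (Nat.bodd (k + 1))) := by
    simp only [avg, sum_sub_distrib, sum_const, Nat.card_Icc, add_tsub_cancel_right, nsmul_eq_mul]
    field_simp
  have h2 : ∀ m ∈ Icc 1 N, ∀ n ∈ Icc 1 N,
      ‖FF (sh^[Ω (m ^ 2 * n ^ 2)] ⟨xx, xx_mem⟩) - gg (Nat.bodd (k + 1))‖ ≤
        if Ω m < dd k + 1 then 1 else 0 := by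
    intro m hm n hn
    have hF : FF (sh^[Ω (m ^ 2 * n ^ 2)] ⟨xx, xx_mem⟩) = gg (xx (Ω (m ^ 2 * n ^ 2))) := by
      change gg ((sh^[Ω (m ^ 2 * n ^ 2)] ⟨xx, xx_mem⟩).1 0) = _
      rw [sh_iter, zero_add]
    rw [hF]
    split_ifs with hc
    · cases xx (Ω (m ^ 2 * n ^ 2)) <;> cases Nat.bodd (k + 1) <;> simp [gg]
    · have hm0 : m ≠ 0 := by have := (mem_Icc.1 hm).1; omega
      have hn0 : n ≠ 0 := by have := (mem_Icc.1 hn).1; omega
      have h3 : Ω (m ^ 2 * n ^ 2) = 2 * Ω m + 2 * Ω n := by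
        rw [cardFactors_mul (pow_ne_zero _ hm0) (pow_ne_zero _ hn0), cardFactors_pow,
          cardFactors_pow]
      have h4 : Ω m ≤ ∑ m ∈ Icc 1 N, Ω m :=
        single_le_sum (f := fun m => Ω m) (fun _ _ => Nat.zero_le _) hm
      have h5 : Ω n ≤ ∑ m ∈ Icc 1 N, Ω m :=
        single_le_sum (f := fun m => Ω m) (fun _ _ => Nat.zero_le _) hn
      rw [xx_val k _ (by omega) (by omega), h3]
      have h6 : Nat.bodd (2 * Ω m + 2 * Ω n + (k + 1)) = Nat.bodd (k + 1) := by
        rw [← mul_add, Nat.bodd_add, Nat.bodd_mul]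
        simp
      rw [h6, sub_self, norm_zero]
  rw [h1, norm_mul]
  have h7 : ‖∑ m ∈ Icc 1 N, ∑ n ∈ Icc 1 N,
      (FF (sh^[Ω (m ^ 2 * n ^ 2)] ⟨xx, xx_mem⟩) - gg (Nat.bodd (k + 1)))‖ ≤ (N : ℝ) * (1 / 4 * N) := by
    refine (norm_sum_le _ _).trans ?_
    have h8 : ∑ m ∈ Icc 1 N, ‖∑ n ∈ Icc 1 N,
        (FF (sh^[Ω (m ^ 2 * n ^ 2)] ⟨xx, xx_mem⟩) - gg (Nat.bodd (k + 1)))‖ ≤
        ∑ m ∈ Icc 1 N, (N : ℝ) * (if Ω m < dd k + 1 then 1 else 0) := by
      refine sum_le_sum fun m hm => (norm_sum_le _ _).trans ?_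
      refine (sum_le_sum fun n hn => h2 m hm n hn).trans ?_
      simp
    refine h8.trans ?_
    rw [← mul_sum, sum_boole]
    exact mul_le_mul_of_nonneg_left hN hNr.le
  have h9 : ‖(1 / (N : ℂ) ^ 2)‖ = 1 / (N : ℝ) ^ 2 := by simp
  rw [h9]
  calc 1 / (N : ℝ) ^ 2 * _ ≤ 1 / (N : ℝ) ^ 2 * ((N : ℝ) * (1 / 4 * N)) :=
        mul_le_mul_of_nonneg_left h7 (by positivity)
    _ = 1 / 4 := by field_simp

theorem not_tendsto : ¬ ∃ L : ℂ, Tendsto avg atTop (𝓝 L) := by
  rintro ⟨L, hL⟩
  obtain ⟨N0, hN0⟩ := Metric.tendsto_atTop.1 hL (1 / 4) (by norm_num)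
  have hsc : ∀ k, N0 ≤ k → N0 ≤ sc (dd k + 1) := by
    intro k hk
    have h1 : dd k + 1 ≤ sc (dd k + 1) := (exists_scale (dd k + 1)).choose_spec.1
    have h2 := dd_mono.id_le k
    simp only [id] at h2
    omega
  have h1 := avg_close (2 * N0)
  have h2 := avg_close (2 * N0 + 1)
  have h3 := hN0 _ (hsc (2 * N0) (by omega))
  have h4 := hN0 _ (hsc (2 * N0 + 1) (by omega))
  have e1 : gg (Nat.bodd (2 * N0 + 1)) = 1 := by simp [gg]
  have e2 : gg (Nat.bodd (2 * N0 + 1 + 1)) = 0 := by simp [gg]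
  rw [e1] at h1
  rw [e2] at h2
  rw [dist_eq_norm] at h3 h4
  set a := avg (sc (dd (2 * N0) + 1))
  set b := avg (sc (dd (2 * N0 + 1) + 1))
  have h5 : (1 : ℂ) = -(a - 1) + (a - L) - (b - L) + (b - 0) := by ring
  have h6 : ‖(1 : ℂ)‖ ≤ ‖a - 1‖ + ‖a - L‖ + ‖b - L‖ + ‖b - 0‖ := by
    rw [h5]
    refine (norm_add_le _ _).trans (add_le_add_left ?_ _)
    refine (norm_sub_le _ _).trans (add_le_add_left ?_ _)
    refine (norm_add_le _ _).trans (add_le_add_left ?_ _)
    rw [norm_neg, ← h5]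
  rw [norm_one] at h6
  linarith

theorem main : ∃ (X : Type) (_ : MetricSpace X) (_ : CompactSpace X) (_ : MeasurableSpace X)
    (_ : BorelSpace X) (T : X → X), Continuous T ∧
    (∃! μ : Measure X, IsProbabilityMeasure μ ∧ μ.map T = μ) ∧
    ∃ P : MvPolynomial (Fin 2) ℤ, (∃ d : ℕ, P.IsHomogeneous d) ∧
      (∀ m n : ℕ, 0 < m → 0 < n → 0 < MvPolynomial.eval ![(m : ℤ), (n : ℤ)] P) ∧
      ∃ (F : C(X, ℂ)) (x : X), ¬ ∃ L : ℂ, Tendsto (fun N : ℕ => (1 / (N : ℂ) ^ 2) *
        ∑ m ∈ Finset.Icc 1 N, ∑ n ∈ Finset.Icc 1 N,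
          F (T^[ArithmeticFunction.cardFactors
            (MvPolynomial.eval ![(m : ℤ), (n : ℤ)] P).toNat] x)) atTop (𝓝 L) := by
  letI : MeasurableSpace XS := borel XS
  haveI : BorelSpace XS := ⟨rfl⟩
  refine ⟨XS, TopologicalSpace.metrizableSpaceMetric XS, inferInstance, borel XS, ⟨rfl⟩, sh,
    continuous_sh, unique_inv, MvPolynomial.X 0 ^ 2 * MvPolynomial.X 1 ^ 2, ⟨4, ?_⟩, ?_,
    FF, ⟨xx, xx_mem⟩, ?_⟩
  · exact (MvPolynomial.isHomogeneous_X_pow (0 : Fin 2) 2).mul
      (MvPolynomial.isHomogeneous_X_pow (1 : Fin 2) 2)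
  · intro m n hm hn
    simp only [map_mul, map_pow, MvPolynomial.eval_X, Matrix.cons_val_zero, Matrix.cons_val_one]
    positivity
  · have h : ∀ m n : ℕ, (MvPolynomial.eval ![(m : ℤ), (n : ℤ)]
        (MvPolynomial.X 0 ^ 2 * MvPolynomial.X 1 ^ 2 : MvPolynomial (Fin 2) ℤ)).toNat =
        m ^ 2 * n ^ 2 := by
      intro m n
      simp only [map_mul, map_pow, MvPolynomial.eval_X, Matrix.cons_val_zero, Matrix.cons_val_one]
      exact_mod_cast Int.toNat_natCast (m ^ 2 * n ^ 2)
    simp only [h]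
    exact not_tendsto

end Pool.Agent.H646Z.OmSys
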