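import Pool.Agent.H646Z.Step

set_option autoImplicit false
set_option linter.unusedSectionVars false

namespace Pool.Agent.H646Z

open Polynomial Finset

/-- numerical data: `Q = t ^ 3 = p ^ n`, `t ≡ 2 mod 3`, `m = (Q + 1) / 3`, `N = (Q ^ 2 - 1) / 3` -/
structure Data (p n t u v m Q N : ℕ) : Prop where
  hQ : Q = p ^ n
  hQt : Q = t ^ 3
  hu : t + 1 = 3 * u
  hv : t ^ 2 + 1 = v + t
  hm : m = u * v
  hN : N + m = Q * m
  ht : 20 ≤ t

theorem Data.three_m {p n t u v m Q N : ℕ} (d : Data p n t u v m Q N) : 3 * m = Q + 1 := by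
  have h1 := d.hu
  have h2 := d.hv
  rw [d.hm, d.hQt]
  zify at h1 h2 ⊢
  have h3 : (v : ℤ) = t ^ 2 + 1 - t := by linarith
  have : (3 : ℤ) * (u * v) = (3 * u) * v := by ring
  rw [this, ← h1, h3]
  ring

theorem Data.Q_big {p n t u v m Q N : ℕ} (d : Data p n t u v m Q N) : 20 * t ^ 2 ≤ Q := by
  rw [d.hQt]
  have := d.ht
  calc 20 * t ^ 2 ≤ t * t ^ 2 := Nat.mul_le_mul_right _ this
    _ = t ^ 3 := by ring

theorem Data.t2_big {p n t u v m Q N : ℕ} (d : Data p n t u v m Q N) : 20 * t ≤ t ^ 2 := by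
  have := d.ht
  calc 20 * t ≤ t * t := Nat.mul_le_mul_right _ this
    _ = t ^ 2 := by ring

theorem Data.three_N {p n t u v m Q N : ℕ} (d : Data p n t u v m Q N) : 3 * N + 1 = Q * Q := by
  have h1 := d.three_m
  have h2 := d.hN
  have : 3 * N + 3 * m = Q * (3 * m) := by
    calc 3 * N + 3 * m = 3 * (N + m) := by ring
      _ = 3 * (Q * m) := by rw [h2]
      _ = Q * (3 * m) := by ring
  rw [h1] at this
  nlinarith

variable {K : Type*} [Field K] [Fintype K] [DecidableEq K]
variable {p n t u v m Q N : ℕ} [Fact p.Prime] [CharP K p]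

theorem frob_sub (d : Data p n t u v m Q N) (x y : K) : (x - y) ^ Q = x ^ Q - y ^ Q := by
  rw [d.hQ, sub_pow_char_pow]

theorem frob_add (d : Data p n t u v m Q N) (x y : K) : (x + y) ^ Q = x ^ Q + y ^ Q := by
  rw [d.hQ, add_pow_char_pow]

theorem frob_frob (hK : Fintype.card K = Q * Q) (x : K) : (x ^ Q) ^ Q = x := by
  rw [← pow_mul, ← hK, FiniteField.pow_card]

theorem card_le_of_roots (P : K[X]) (hP : P ≠ 0) (S : Finset K) (hS : ∀ x ∈ S, P.eval x = 0) :
    S.card ≤ P.natDegree := by
  refine card_le_degree_of_subset_roots fun x hx => ?_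
  rw [mem_roots hP]
  exact hS x hx

theorem card_pow_eq_le (k : ℕ) (hk : 2 ≤ k) (c : K) :
    (univ.filter fun a : K => a ^ k = c * a).card ≤ k := by
  have hdeg : (X ^ k - C c * X : K[X]).natDegree = k := by
    rw [natDegree_sub_eq_left_of_natDegree_lt]
    · simp
    · refine (natDegree_C_mul_le _ _).trans_lt ?_
      simp only [natDegree_X, natDegree_X_pow]
      omega
  have hne : (X ^ k - C c * X : K[X]) ≠ 0 := by
    intro h
    rw [h, natDegree_zero] at hdeg
    omega
  refine (card_le_of_roots _ hne _ fun x hx => ?_).trans hdeg.le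
  simp only [mem_filter, mem_univ, true_and] at hx
  simp [hx]

theorem card_L (d : Data p n t u v m Q N) (hK : Fintype.card K = Q * Q) :
    (univ.filter fun a : K => a ^ Q = a).card = Q := by
  have hQ2 : 2 ≤ Q := by have := d.Q_big; have := d.t2_big; have := d.ht; omega
  have h1 : (univ.filter fun a : K => a ^ Q = a).card ≤ Q := by
    simpa using card_pow_eq_le Q hQ2 (1 : K)
  refine le_antisymm h1 ?_
  have h2 := Finset.card_le_mul_card_image (f := fun x : K => x ^ Q - x) (univ : Finset K)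
    (univ.filter fun a : K => a ^ Q = a).card (by
      intro y hy
      obtain ⟨x0, -, rfl⟩ := mem_image.1 hy
      refine Finset.card_le_card_of_injOn (fun x => x - x0) ?_ ?_
      · intro x hx
        simp only [coe_filter, mem_univ, true_and, Set.mem_ofPred_eq] at hx ⊢
        rw [frob_sub d]
        linear_combination hx
      · intro x _ y _ hxy
        simpa using hxy)
  have h3 : ((univ : Finset K).image fun x : K => x ^ Q - x).card ≤ Q := by
    refine le_trans (card_le_card ?_) (card_pow_eq_le Q hQ2 (-1 : K))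
    intro y hy
    obtain ⟨x0, -, rfl⟩ := mem_image.1 hy
    simp only [mem_filter, mem_univ, true_and]
    rw [frob_sub d, frob_frob hK]
    ring
  rw [card_univ, hK] at h2
  have h4 := h2.trans (Nat.mul_le_mul_left _ h3)
  exact Nat.le_of_mul_le_mul_right h4 (by omega)

theorem card_T3 : (univ.filter fun w : K => w ^ 3 = 1).card ≤ 3 := by
  have hdeg : (X ^ 3 - C 1 : K[X]).natDegree = 3 := natDegree_X_pow_sub_C
  have hne : (X ^ 3 - C 1 : K[X]) ≠ 0 := X_pow_sub_C_ne_zero (by norm_num) _
  refine (card_le_of_roots _ hne _ fun x hx => ?_).trans hdeg.le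
  simp only [mem_filter, mem_univ, true_and] at hx
  simp [hx]

theorem pow_N_cube (d : Data p n t u v m Q N) (hK : Fintype.card K = Q * Q) (x : K) (hx : x ≠ 0) :
    (x ^ N) ^ 3 = 1 := by
  have h1 := FiniteField.pow_card_sub_one_eq_one x hx
  have h2 := d.three_N
  rw [← pow_mul]
  have : N * 3 = Fintype.card K - 1 := by omega
  rw [this, h1]

theorem pow_N_of_L (d : Data p n t u v m Q N) (x : K) (hx : x ≠ 0) (hxQ : x ^ Q = x) :
    x ^ N = 1 := by
  have h1 : x ^ N * x ^ m = 1 * x ^ m := by
    rw [← pow_add, d.hN, pow_mul, hxQ, one_mul]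
  exact mul_right_cancel₀ (pow_ne_zero _ hx) h1

theorem neg_pow_N (d : Data p n t u v m Q N) (x : K) : (-x) ^ N = x ^ N := by
  have h1 : (-1 : K) ^ N = 1 := by
    refine pow_N_of_L d _ (by simp) ?_
    have := frob_sub d (0 : K) 1
    have hQ2 : Q ≠ 0 := by have := d.Q_big; have := d.t2_big; have := d.ht; omega
    simpa [hQ2] using this
  rw [neg_eq_neg_one_mul, mul_pow, h1, one_mul]

/-- the pair bound, from Stepanov's method -/
theorem pair_bound (d : Data p n t u v m Q N) (hK : Fintype.card K = Q * Q) (b b' : K)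
    (hb : b ^ Q ≠ b) (h1 : b' ≠ b) (h2 : b' ≠ b ^ Q) :
    3 * ((univ.filter fun a : K => a ^ Q = a).filter
      fun a => (a - b) ^ N = (a - b') ^ N).card ≤ Q + 13 * t ^ 2 := by
  set S := ((univ.filter fun a : K => a ^ Q = a).filter fun a => (a - b) ^ N = (a - b') ^ N)
    with hS
  have h3m := d.three_m
  have hQb := d.Q_big
  have ht2 := d.t2_big
  have ht := d.ht
  have hu := d.hu
  have hv := d.hv
  obtain ⟨D, hD⟩ : ∃ D, D + 2 = m := ⟨m - 2, by omega⟩
  set g : K[X] := (X - C b) * (X - C (b' ^ Q)) with hg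
  have hgm : g.Monic := (monic_X_sub_C _).mul (monic_X_sub_C _)
  have hgd : g.natDegree = 2 := by
    rw [hg, (monic_X_sub_C _).natDegree_mul (monic_X_sub_C _)]
    simp only [natDegree_X_sub_C]
  have hdh : ((X - C (b ^ Q)) * ((X - C b') * g ^ 2)).natDegree = 6 := by
    rw [(monic_X_sub_C _).natDegree_mul ((monic_X_sub_C _).mul (hgm.pow 2)),
      (monic_X_sub_C _).natDegree_mul (hgm.pow 2), natDegree_pow, hgd]
    simp only [natDegree_X_sub_C]
  have hdw : ((X - C (b ^ Q)) * (X - C b') * g).natDegree = 4 := by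
    rw [((monic_X_sub_C _).mul (monic_X_sub_C _)).natDegree_mul hgm,
      (monic_X_sub_C _).natDegree_mul (monic_X_sub_C _), hgd]
    simp only [natDegree_X_sub_C]
  have key := core p n Q m (3 * u) u D d.hQ h3m hD.le (by omega) (b ^ Q)
    ((X - C (b ^ Q)) * ((X - C b') * g ^ 2)) ((X - C b') * g ^ 2)
    ((X - C (b ^ Q)) * (X - C b') * g) rfl (by
      simp only [hg, eval_mul, eval_pow, eval_sub, eval_X, eval_C]
      refine mul_ne_zero (sub_ne_zero.2 h2.symm) (pow_ne_zero _ (mul_ne_zero (sub_ne_zero.2 hb) ?_))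
      rw [← frob_sub d]
      exact pow_ne_zero _ (sub_ne_zero.2 h1.symm)) S (by
      intro a ha
      simp only [hS, mem_filter, mem_univ, true_and] at ha
      obtain ⟨ha1, ha2⟩ := ha
      refine ⟨ha1, ?_⟩
      simp only [hg, eval_mul, eval_pow, eval_sub, eval_X, eval_C]
      have e1 : a - b ^ Q = (a - b) ^ Q := by rw [frob_sub d, ha1]
      have e2 : a - b' ^ Q = (a - b') ^ Q := by rw [frob_sub d, ha1]
      rw [e1, e2]
      set x := a - b
      set y := a - b'
      have e3 : (x ^ Q * y) ^ m = (x * y ^ Q) ^ m := by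
        rw [mul_pow, mul_pow, ← pow_mul, ← pow_mul, ← d.hN, pow_add, pow_add, ha2]
        ring
      have e4 : (x * y ^ Q) ^ Q = x ^ Q * y := by
        rw [mul_pow, frob_frob hK]
      calc (x ^ Q * (y * (x * y ^ Q) ^ 2)) ^ m
          = (x ^ Q * y) ^ m * ((x * y ^ Q) ^ m) ^ 2 := by
            rw [← mul_assoc, mul_pow (x ^ Q * y), ← pow_mul, ← pow_mul, mul_comm 2 m]
        _ = (x * y ^ Q) ^ (3 * m) := by rw [e3]; ring
        _ = x ^ Q * y * (x * y ^ Q) := by rw [h3m, pow_succ, e4]) (by
      rw [hdh, hdw]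
      have h5 : ∑ k ∈ range (3 * u), (D + k * (6 - 1) + 2 * 4 + u + 1) ≤
          3 * u * (D + 3 * u * 5 + 8 + u + 1) := by
        refine (Finset.sum_le_card_nsmul _ _ (D + 3 * u * 5 + 8 + u + 1) ?_).trans ?_
        · intro k hk
          have := mem_range.1 hk
          omega
        · simp
      refine h5.trans_lt ?_
      have h6 : 3 * u * (16 * u + 8) < 3 * (D + 1) := by
        have h7 : 9 * (u * u) = t ^ 2 + 2 * t + 1 := by
          have : 9 * (u * u) = (3 * u) ^ 2 := by ring
          rw [this, ← hu]; ring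
        nlinarith
      nlinarith)
  rw [hdh] at key
  have h8 : u * (3 * S.card) ≤ u * (18 + 13 * v + Q) := by
    have hm := d.hm
    have : D ≤ u * v := by omega
    calc u * (3 * S.card) = 3 * u * S.card := by ring
      _ ≤ (3 * u + 2 * m) * 6 + D + u * Q := key
      _ ≤ (3 * u + 2 * (u * v)) * 6 + u * v + u * Q := by rw [hm]; omega
      _ = u * (18 + 13 * v + Q) := by ring
  have h9 := Nat.le_of_mul_le_mul_left h8 (by omega)
  omega

omit [Field K] [Fintype K] in
theorem sq_le_pairs (B : Finset K) (f : K → K) (T : Finset K) (hT : T.card ≤ 3)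
    (hf : ∀ b ∈ B, f b ∈ T) :
    B.card ^ 2 ≤ 3 * ((B ×ˢ B).filter fun bb => f bb.1 = f bb.2).card := by
  have h1 : B.card = ∑ w ∈ T, (B.filter fun b => f b = w).card :=
    card_eq_sum_card_fiberwise hf
  have h2 : ((B ×ˢ B).filter fun bb => f bb.1 = f bb.2).card =
      ∑ w ∈ T, (B.filter fun b => f b = w).card ^ 2 := by
    rw [card_eq_sum_card_fiberwise (f := fun bb : K × K => f bb.1) (t := T)]
    · refine sum_congr rfl fun w _ => ?_
      rw [sq, ← card_product]
      congr 1
      ext ⟨x, y⟩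
      simp only [mem_filter, mem_product]
      constructor
      · rintro ⟨⟨⟨hx, hy⟩, hxy⟩, hw⟩
        exact ⟨⟨hx, hw⟩, hy, hxy ▸ hw⟩
      · rintro ⟨⟨hx, hw⟩, hy, hw'⟩
        exact ⟨⟨⟨hx, hy⟩, hw.trans hw'.symm⟩, hw⟩
    · intro bb hbb
      have := (mem_product.1 (mem_filter.1 hbb).1).1
      exact hf _ this
  rw [h2, h1]
  exact sq_sum_le_card_mul_sum_sq.trans (Nat.mul_le_mul_right _ hT)

/-- few points outside the subfield are adjacent to a large subset of it -/
theorem sieve (d : Data p n t u v m Q N) (hK : Fintype.card K = Q * Q) (A B : Finset K)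
    (hA : ∀ a ∈ A, a ^ Q = a) (hB : ∀ b ∈ B, b ^ Q ≠ b)
    (hAB : ∀ a ∈ A, ∀ b ∈ B, (a - b) ^ N = 1) (hbig : 10 * t ^ 2 ≤ A.card) : B.card ≤ t := by
  set L := univ.filter fun a : K => a ^ Q = a with hL
  have hLc : L.card = Q := card_L d hK
  have hAL : A ⊆ L := fun a ha => by simpa [hL] using hA a ha
  have hswap : ∑ a ∈ L, ((B ×ˢ B).filter fun bb => (a - bb.1) ^ N = (a - bb.2) ^ N).card =
      ∑ bb ∈ B ×ˢ B, (L.filter fun a => (a - bb.1) ^ N = (a - bb.2) ^ N).card := by
    simp only [card_filter]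
    exact sum_comm
  have hlow : Q * B.card ^ 2 + A.card * (2 * B.card ^ 2) ≤
      3 * ∑ a ∈ L, ((B ×ˢ B).filter fun bb => (a - bb.1) ^ N = (a - bb.2) ^ N).card := by
    rw [mul_sum]
    have h1 : Q * B.card ^ 2 + A.card * (2 * B.card ^ 2) =
        ∑ a ∈ L, (B.card ^ 2 + if a ∈ A then 2 * B.card ^ 2 else 0) := by
      rw [sum_add_distrib, sum_const, hLc, ← sum_filter, sum_const, filter_mem_eq_inter,
        inter_eq_right.2 hAL]
      simp
    rw [h1]
    refine sum_le_sum fun a ha => ?_
    split_ifs with haA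
    · have : ((B ×ˢ B).filter fun bb => (a - bb.1) ^ N = (a - bb.2) ^ N) = B ×ˢ B := by
        refine filter_true_of_mem fun bb hbb => ?_
        rw [hAB a haA _ (mem_product.1 hbb).1, hAB a haA _ (mem_product.1 hbb).2]
      rw [this, card_product]
      nlinarith
    · rw [add_zero]
      refine sq_le_pairs B (fun b => (a - b) ^ N) _ card_T3 fun b hb => ?_
      simp only [mem_filter, mem_univ, true_and]
      refine pow_N_cube d hK _ (sub_ne_zero.2 ?_)
      rintro rfl
      exact hB _ hb (by simpa [hL] using ha)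
  have hup : 3 * ∑ bb ∈ B ×ˢ B, (L.filter fun a => (a - bb.1) ^ N = (a - bb.2) ^ N).card ≤
      B.card ^ 2 * (Q + 13 * t ^ 2) + (2 * B.card) * (2 * Q) := by
    rw [mul_sum]
    have h1 : ∑ bb ∈ B ×ˢ B, 3 * (L.filter fun a => (a - bb.1) ^ N = (a - bb.2) ^ N).card ≤
        ∑ bb ∈ B ×ˢ B, ((Q + 13 * t ^ 2) + if bb.2 = bb.1 ∨ bb.2 = bb.1 ^ Q then 2 * Q else 0) := by
      refine sum_le_sum fun bb hbb => ?_
      split_ifs with hc
      · have : (L.filter fun a => (a - bb.1) ^ N = (a - bb.2) ^ N).card ≤ Q :=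
          (card_filter_le _ _).trans hLc.le
        omega
      · push Not at hc
        rw [add_zero]
        exact pair_bound d hK bb.1 bb.2 (hB _ (mem_product.1 hbb).1) hc.1 hc.2
    refine h1.trans ?_
    rw [sum_add_distrib, sum_const, card_product, ← sum_filter, sum_const, smul_eq_mul,
      smul_eq_mul, ← sq]
    refine Nat.add_le_add_left (Nat.mul_le_mul_right _ ?_) _
    have h2 : ((B ×ˢ B).filter fun bb => bb.2 = bb.1 ∨ bb.2 = bb.1 ^ Q) ⊆
        B.image (fun b => (b, b)) ∪ B.image (fun b => (b, b ^ Q)) := by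
      rintro ⟨x, y⟩ hxy
      simp only [mem_filter, mem_product] at hxy
      obtain ⟨⟨hx, _⟩, h | h⟩ := hxy
      · exact mem_union_left _ (mem_image.2 ⟨x, hx, by rw [h]⟩)
      · exact mem_union_right _ (mem_image.2 ⟨x, hx, by rw [h]⟩)
    refine (card_le_card h2).trans ((card_union_le _ _).trans ?_)
    have h3 := card_image_le (s := B) (f := fun b => (b, b))
    have h4 := card_image_le (s := B) (f := fun b => (b, b ^ Q))
    omega
  rw [hswap] at hlow
  have h5 := hlow.trans hup
  by_contra hcon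
  push Not at hcon
  have hQt := d.hQt
  have ht := d.ht
  set k := B.card
  have h6 : 10 * t ^ 2 * (2 * k ^ 2) ≤ A.card * (2 * k ^ 2) := Nat.mul_le_mul_right _ hbig
  have h7 : 7 * t ^ 2 * k ^ 2 ≤ 4 * t ^ 3 * k := by rw [hQt] at h5; nlinarith
  have h8 : (t ^ 2 * k) * (7 * k) ≤ (t ^ 2 * k) * (4 * t) := by nlinarith
  have h9 : 0 < t ^ 2 * k := by
    have : 0 < k := by omega
    positivity
  have := Nat.le_of_mul_le_mul_left h8 h9
  omega

/-- a point outside the subfield has at least `Q - 2 m` neighbours in it -/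
theorem nbr_lower (d : Data p n t u v m Q N) (hK : Fintype.card K = Q * Q) (β : K)
    (hβ : β ^ Q ≠ β) :
    Q ≤ ((univ.filter fun a : K => a ^ Q = a).filter fun x => (x - β) ^ N = 1).card + 2 * m := by
  set L := univ.filter fun a : K => a ^ Q = a with hL
  have hLc : L.card = Q := card_L d hK
  have hm0 : m ≠ 0 := by have := d.three_m; omega
  have hcl : ∀ w : K, (L.filter fun x => (x - β) ^ N = w).card ≤ m := by
    intro w
    have hne : ((X - C (β ^ Q)) ^ m - C w * (X - C β) ^ m : K[X]) ≠ 0 := by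
      intro h
      have := congrArg (eval β) h
      simp only [eval_sub, eval_pow, eval_mul, eval_X, eval_C, sub_self, zero_pow hm0, mul_zero,
        sub_zero, eval_zero] at this
      exact (pow_ne_zero m (sub_ne_zero.2 hβ.symm)) this
    refine (card_le_of_roots _ hne _ fun x hx => ?_).trans ?_
    · simp only [hL, mem_filter, mem_univ, true_and] at hx
      simp only [eval_sub, eval_pow, eval_mul, eval_X, eval_C]
      have e1 : x - β ^ Q = (x - β) ^ Q := by rw [frob_sub d, hx.1]
      rw [e1, ← pow_mul, ← d.hN, pow_add, hx.2, sub_self]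
    · refine (natDegree_sub_le _ _).trans (max_le ?_ ((natDegree_C_mul_le _ _).trans ?_))
      · rw [natDegree_pow, natDegree_X_sub_C, mul_one]
      · rw [natDegree_pow, natDegree_X_sub_C, mul_one]
  have h1 : L.card = ∑ w ∈ (univ.filter fun w : K => w ^ 3 = 1),
      (L.filter fun x => (x - β) ^ N = w).card := by
    refine card_eq_sum_card_fiberwise fun x hx => ?_
    simp only [coe_filter, mem_univ, true_and, Set.mem_ofPred_eq]
    refine pow_N_cube d hK _ (sub_ne_zero.2 ?_)
    rintro rfl
    exact hβ (by simpa [hL] using hx)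
  have h2 : (1 : K) ∈ (univ.filter fun w : K => w ^ 3 = 1) := by simp
  rw [← add_sum_erase _ _ h2] at h1
  have h3 : ∑ w ∈ (univ.filter fun w : K => w ^ 3 = 1).erase 1,
      (L.filter fun x => (x - β) ^ N = w).card ≤ 2 * m := by
    refine (sum_le_card_nsmul _ _ m fun w _ => hcl w).trans ?_
    rw [smul_eq_mul, card_erase_of_mem h2]
    refine Nat.mul_le_mul_right _ ?_
    have := card_T3 (K := K)
    omega
  omega

/-- a maximal clique of size between `10 t ^ 2` and `41 t ^ 2` -/
theorem exists_clique (d : Data p n t u v m Q N) (hK : Fintype.card K = Q * Q) :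
    ∃ s : Finset K, (∀ x ∈ s, ∀ y ∈ s, x ≠ y → (x - y) ^ N = 1) ∧
      (∀ s' : Finset K, (∀ x ∈ s', ∀ y ∈ s', x ≠ y → (x - y) ^ N = 1) → s ⊆ s' → s' = s) ∧
      10 * t ^ 2 ≤ s.card ∧ s.card ≤ 41 * t ^ 2 := by
  classical
  set L := univ.filter fun a : K => a ^ Q = a with hL
  have hLc : L.card = Q := card_L d hK
  have hQb := d.Q_big
  have ht2 := d.t2_big
  have ht := d.ht
  have h3m := d.three_m
  have hmemL : ∀ a, a ∈ L ↔ a ^ Q = a := fun a => by simp [hL]
  obtain ⟨β, hβ⟩ : ∃ β : K, β ^ Q ≠ β := by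
    by_contra hcon
    push Not at hcon
    have : L = univ := by
      rw [hL]; exact filter_true_of_mem fun x _ => hcon x
    rw [this, card_univ, hK] at hLc
    have h2 : 2 ≤ Q := by omega
    nlinarith
  have hshift : ∀ s, s ^ Q = s → (s + β) ^ Q ≠ s + β := by
    intro s hs h
    rw [frob_add d, hs] at h
    exact hβ (add_left_cancel h)
  let Nb : Finset K → Finset K := fun T => L.filter fun a => ∀ s ∈ T, (a - (s + β)) ^ N = 1
  obtain ⟨T, hT, hTmin⟩ := exists_min_image
    (L.powerset.filter fun T => 10 * t ^ 2 ≤ (Nb T).card) (fun T => (Nb T).card) ⟨∅, by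
      simp only [mem_filter, mem_powerset, empty_subset, true_and, Nb]
      rw [filter_true_of_mem (by simp), hLc]
      omega⟩
  simp only [mem_filter, mem_powerset] at hT hTmin
  obtain ⟨hTL, hTbig⟩ := hT
  set A := Nb T with hA
  have hAL : ∀ a ∈ A, a ^ Q = a := fun a ha => (hmemL a).1 (mem_filter.1 ha).1
  have hAT : ∀ a ∈ A, ∀ s ∈ T, (a - (s + β)) ^ N = 1 := fun a ha => (mem_filter.1 ha).2
  -- upper bound on the size of `A`
  have hAup : A.card ≤ 40 * t ^ 2 := by
    set B0 := L.filter fun s => ∀ a ∈ A, (a - (s + β)) ^ N = 1 with hB0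
    have hB0c : B0.card ≤ t := by
      have h1 := sieve d hK A (B0.image fun s => s + β) hAL (by
        intro b hb
        obtain ⟨s, hs, rfl⟩ := mem_image.1 hb
        exact hshift s ((hmemL s).1 (mem_filter.1 hs).1)) (by
        intro a ha b hb
        obtain ⟨s, hs, rfl⟩ := mem_image.1 hb
        exact (mem_filter.1 hs).2 a ha) hTbig
      rwa [card_image_of_injective _ (add_left_injective β)] at h1
    have hswap : ∑ s ∈ L, (A.filter fun a => (a - (s + β)) ^ N = 1).card =
        ∑ a ∈ A, (L.filter fun s => (a - (s + β)) ^ N = 1).card := by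
      simp only [card_filter]
      exact sum_comm
    have hlow : A.card * Q ≤ ∑ a ∈ A, (L.filter fun s => (a - (s + β)) ^ N = 1).card +
        A.card * (2 * m) := by
      rw [← smul_eq_mul, ← sum_const, ← smul_eq_mul, ← sum_const, ← sum_add_distrib]
      refine sum_le_sum fun a ha => ?_
      have h1 := nbr_lower d hK (a - β) (by
        intro h
        rw [frob_sub d, hAL a ha] at h
        exact hβ (sub_right_injective h))
      have h2 : (L.filter fun s => (a - (s + β)) ^ N = 1) =
          (L.filter fun x => (x - (a - β)) ^ N = 1) := by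
        refine filter_congr fun s _ => ?_
        rw [← neg_pow_N d (s - (a - β))]
        have : -(s - (a - β)) = a - (s + β) := by ring
        rw [this]
      rw [h2]
      exact h1
    have hup : ∑ s ∈ L, (A.filter fun a => (a - (s + β)) ^ N = 1).card ≤
        Q * (10 * t ^ 2) + t * A.card := by
      have h1 : ∑ s ∈ L, (A.filter fun a => (a - (s + β)) ^ N = 1).card ≤
          ∑ s ∈ L, (10 * t ^ 2 + if s ∈ B0 then A.card else 0) := by
        refine sum_le_sum fun s hs => ?_
        split_ifs with hsB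
        · exact (card_filter_le _ _).trans (Nat.le_add_left _ _)
        · rw [add_zero]
          by_contra hcon
          push Not at hcon
          have h2 : Nb (insert s T) = A.filter fun a => (a - (s + β)) ^ N = 1 := by
            ext a
            simp only [hA, Nb, mem_filter, mem_insert, forall_eq_or_imp]
            tauto
          have h3 := hTmin (insert s T) ⟨insert_subset hs hTL, by rw [h2]; exact hcon.le⟩
          rw [h2] at h3
          have h4 := eq_of_subset_of_card_le (filter_subset _ _) h3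
          apply hsB
          rw [hB0, mem_filter]
          refine ⟨hs, fun a ha => ?_⟩
          rw [← h4] at ha
          exact (mem_filter.1 ha).2
      refine h1.trans ?_
      rw [sum_add_distrib, sum_const, hLc, ← sum_filter, sum_const, smul_eq_mul, smul_eq_mul,
        filter_mem_eq_inter]
      refine Nat.add_le_add_left (Nat.mul_le_mul_right _ ?_) _
      exact (card_le_card inter_subset_right).trans hB0c
    rw [hswap] at hup
    by_contra hcon
    push Not at hcon
    set k := A.card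
    have h5 : k * Q ≤ Q * (10 * t ^ 2) + t * k + k * (2 * m) := by omega
    have h6 : 4 * t + 8 * m ≤ 3 * Q := by omega
    have h7 : k * (4 * t + 8 * m) ≤ k * (3 * Q) := Nat.mul_le_mul_left _ h6
    have h8 : Q * (40 * t ^ 2) < Q * k := Nat.mul_lt_mul_of_pos_left hcon (by omega)
    nlinarith
  -- the starting clique
  set C0 := A ∪ T.image fun s => s + β with hC0
  have hC0c : ∀ x ∈ C0, ∀ y ∈ C0, x ≠ y → (x - y) ^ N = 1 := by
    intro x hx y hy hxy
    rcases mem_union.1 hx with hx | hx <;> rcases mem_union.1 hy with hy | hy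
    · refine pow_N_of_L d _ (sub_ne_zero.2 hxy) ?_
      rw [frob_sub d, hAL x hx, hAL y hy]
    · obtain ⟨s, hs, rfl⟩ := mem_image.1 hy
      exact hAT x hx s hs
    · obtain ⟨s, hs, rfl⟩ := mem_image.1 hx
      rw [← neg_pow_N d, neg_sub]
      exact hAT y hy s hs
    · obtain ⟨s, hs, rfl⟩ := mem_image.1 hx
      obtain ⟨s', hs', rfl⟩ := mem_image.1 hy
      refine pow_N_of_L d _ (sub_ne_zero.2 hxy) ?_
      have : s + β - (s' + β) = s - s' := by ring
      rw [this, frob_sub d, (hmemL s).1 (hTL hs), (hmemL s').1 (hTL hs')]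
  obtain ⟨s, hs, hsmax⟩ := exists_max_image
    ((univ : Finset (Finset K)).filter fun s =>
      (∀ x ∈ s, ∀ y ∈ s, x ≠ y → (x - y) ^ N = 1) ∧ C0 ⊆ s) (fun s => s.card)
    ⟨C0, by simp only [mem_filter, mem_univ, true_and]; exact ⟨hC0c, Subset.rfl⟩⟩
  simp only [mem_filter, mem_univ, true_and] at hs hsmax
  obtain ⟨hsc, hC0s⟩ := hs
  have hAs : A ⊆ s := subset_union_left.trans hC0s
  refine ⟨s, hsc, fun s' hs' hss' => ?_, hTbig.trans (card_le_card hAs), ?_⟩
  · exact (eq_of_subset_of_card_le hss' (hsmax s' ⟨hs', hC0s.trans hss'⟩)).symm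
  · have h1 : (s.filter fun x => ¬ x ^ Q = x).card ≤ t := by
      refine sieve d hK A _ hAL (fun b hb => (mem_filter.1 hb).2) (fun a ha b hb => ?_) hTbig
      refine hsc a (hAs ha) b (mem_filter.1 hb).1 ?_
      rintro rfl
      exact (mem_filter.1 hb).2 (hAL a ha)
    have h2 : (s.filter fun x => x ^ Q = x) ⊆ A := by
      intro a ha
      obtain ⟨ha1, ha2⟩ := mem_filter.1 ha
      refine mem_filter.2 ⟨(hmemL a).2 ha2, fun r hr => ?_⟩
      refine hsc a ha1 _ (hC0s (mem_union_right _ (mem_image.2 ⟨r, hr, rfl⟩))) ?_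
      rintro rfl
      exact hshift r ((hmemL r).1 (hTL hr)) ha2
    have h3 := card_filter_add_card_filter_not (s := s) (fun x => x ^ Q = x)
    have h4 := card_le_card h2
    omega

theorem cube_iff (d : Data p n t u v m Q N) (hK : Fintype.card K = Q * Q) (x : K) (hx : x ≠ 0) :
    (∃ z : K, z ^ 3 = x) ↔ x ^ N = 1 := by
  constructor
  · rintro ⟨z, rfl⟩
    have hz : z ≠ 0 := by
      rintro rfl
      simp at hx
    rw [← pow_mul, mul_comm, pow_mul]
    exact pow_N_cube d hK z hz
  · intro h
    obtain ⟨g, hg⟩ := IsCyclic.exists_generator (α := Kˣ)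
    obtain ⟨k, hk⟩ : ∃ k : ℕ, g ^ k = Units.mk0 x hx := by
      have := hg (Units.mk0 x hx)
      rw [← mem_powers_iff_mem_zpowers] at this
      exact this
    have hord : orderOf g = 3 * N := by
      rw [orderOf_eq_card_of_forall_mem_zpowers hg, Nat.card_eq_fintype_card, Fintype.card_units,
        hK]
      have := d.three_N
      omega
    have h1 : g ^ (k * N) = 1 := by
      rw [pow_mul, hk]
      ext
      simpa using h
    have h2 := orderOf_dvd_of_pow_eq_one h1
    rw [hord] at h2
    have hN0 : 0 < N := by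
      have h3 := d.three_N
      have := d.Q_big; have := d.t2_big; have := d.ht
      have h4 : 2 ≤ Q := by omega
      nlinarith
    obtain ⟨j, hj⟩ := Nat.dvd_of_mul_dvd_mul_right hN0 h2
    refine ⟨((g ^ j : Kˣ) : K), ?_⟩
    have h5 : ((g ^ k : Kˣ) : K) = x := by rw [hk]; rfl
    rw [← h5, hj, ← Units.val_pow_eq_pow_val, ← pow_mul, mul_comm]

end Pool.Agent.H646Z
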