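import Pool.Agent.H646Z.Paley

set_option autoImplicit false

namespace Pool.Agent.H646Z

open Finset Filter Topology

theorem data_exists (k : ℕ) :
    ∃ u v m N : ℕ, Data 5 (3 * (2 * k + 3)) (5 ^ (2 * k + 3)) u v m (5 ^ (3 * (2 * k + 3))) N := by
  set t := 5 ^ (2 * k + 3) with ht
  have h1 : t % 3 = 2 := by
    rw [ht, pow_add, pow_mul, Nat.mul_mod, Nat.pow_mod]
    norm_num
  have h2 : 125 ≤ t := by
    rw [ht, pow_add]
    have : 1 ≤ 5 ^ (2 * k) := Nat.one_le_pow _ _ (by norm_num)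
    omega
  have h3 : t ≤ t ^ 2 := by nlinarith
  have hQ : 5 ^ (3 * (2 * k + 3)) = t ^ 3 := by rw [ht, ← pow_mul, mul_comm]
  have hQ1 : 1 ≤ t ^ 3 := Nat.one_le_pow _ _ (by omega)
  refine ⟨(t + 1) / 3, t ^ 2 + 1 - t, (t + 1) / 3 * (t ^ 2 + 1 - t),
    (t ^ 3 - 1) * ((t + 1) / 3 * (t ^ 2 + 1 - t)), rfl, hQ, by omega, by omega, rfl, ?_, by omega⟩
  rw [hQ]
  obtain ⟨c, hc⟩ : ∃ c, t ^ 3 = c + 1 := ⟨t ^ 3 - 1, by omega⟩
  rw [hc, Nat.add_sub_cancel]
  ring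

/-- maximal cliques of `GP(q^3, 3)` of size between `10 q` and `41 q`, `q = 5 ^ (4 k + 6)` -/
theorem clique_at (k : ℕ) :
    ∃ (F : Type) (_ : Field F) (_ : Fintype F), Fintype.card F = ((5 ^ (2 * k + 3)) ^ 2) ^ 3 ∧
      ∃ s : Finset F,
        (SimpleGraph.fromRel (fun x y : F => ∃ z : F, z ^ 3 = x - y)).IsClique (s : Set F) ∧
        (∀ t : Finset F,
          (SimpleGraph.fromRel (fun x y : F => ∃ z : F, z ^ 3 = x - y)).IsClique (t : Set F) →
            s ⊆ t → t = s) ∧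
        10 * (5 ^ (2 * k + 3)) ^ 2 ≤ s.card ∧ s.card ≤ 41 * (5 ^ (2 * k + 3)) ^ 2 := by
  classical
  haveI : Fact (Nat.Prime 5) := ⟨by norm_num⟩
  obtain ⟨u, v, m, N, d⟩ := data_exists k
  let F := GaloisField 5 (6 * (2 * k + 3))
  letI : Fintype F := Fintype.ofFinite F
  have hcard : Fintype.card F = 5 ^ (6 * (2 * k + 3)) := by
    rw [← Nat.card_eq_fintype_card]
    exact GaloisField.card 5 _ (by omega)
  have hK : Fintype.card F = 5 ^ (3 * (2 * k + 3)) * 5 ^ (3 * (2 * k + 3)) := by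
    rw [hcard, ← pow_add]
    congr 1
    ring
  have hiff : ∀ s : Finset F,
      (SimpleGraph.fromRel (fun x y : F => ∃ z : F, z ^ 3 = x - y)).IsClique (s : Set F) ↔
        ∀ x ∈ s, ∀ y ∈ s, x ≠ y → (x - y) ^ N = 1 := by
    intro s
    constructor
    · intro h x hx y hy hxy
      have h1 := h (mem_coe.2 hx) (mem_coe.2 hy) hxy
      rw [SimpleGraph.fromRel_adj] at h1
      rcases h1.2 with h2 | h2
      · exact (cube_iff d hK _ (sub_ne_zero.2 hxy)).1 h2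
      · rw [← neg_pow_N d, neg_sub]
        exact (cube_iff d hK _ (sub_ne_zero.2 hxy.symm)).1 h2
    · intro h x hx y hy hxy
      rw [SimpleGraph.fromRel_adj]
      exact ⟨hxy, Or.inl ((cube_iff d hK _ (sub_ne_zero.2 hxy)).2
        (h x (mem_coe.1 hx) y (mem_coe.1 hy) hxy))⟩
  obtain ⟨s, h1, h2, h3, h4⟩ := exists_clique d hK
  refine ⟨F, inferInstance, inferInstance, ?_, s, (hiff s).2 h1,
    fun t ht hst => h2 t ((hiff t).1 ht) hst, h3, h4⟩
  rw [hcard, ← pow_mul, ← pow_mul]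
  congr 1
  ring

theorem attainable : ∃ L : ℝ, 10 ≤ L ∧
    ∀ ε : ℝ, 0 < ε → ∀ N : ℕ, ∃ q : ℕ, N ≤ q ∧ IsPrimePow q ∧ Odd q ∧ q % 3 = 1 ∧
      ∃ (F : Type) (_ : Field F) (_ : Fintype F), Fintype.card F = q ^ 3 ∧
        ∃ s : Finset F,
          (SimpleGraph.fromRel (fun x y : F => ∃ z : F, z ^ 3 = x - y)).IsClique (s : Set F) ∧
          (∀ t : Finset F,
            (SimpleGraph.fromRel (fun x y : F => ∃ z : F, z ^ 3 = x - y)).IsClique (t : Set F) →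
              s ⊆ t → t = s) ∧
          |(s.card : ℝ) / (q : ℝ) - L| < ε := by
  choose F iF iT hcard s hs1 hs2 hs3 hs4 using clique_at
  let x : ℕ → ℝ := fun k => ((s k).card : ℝ) / (((5 ^ (2 * k + 3)) ^ 2 : ℕ) : ℝ)
  have hx : ∀ k, x k ∈ Set.Icc (10 : ℝ) 41 := by
    intro k
    have hpos : (0 : ℝ) < (((5 ^ (2 * k + 3)) ^ 2 : ℕ) : ℝ) := by positivity
    constructor
    · rw [le_div_iff₀ hpos]
      exact_mod_cast hs3 k
    · rw [div_le_iff₀ hpos]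
      exact_mod_cast hs4 k
  obtain ⟨L, hL, φ, hφ, hlim⟩ := isCompact_Icc.tendsto_subseq hx
  refine ⟨L, hL.1, fun ε hε N => ?_⟩
  obtain ⟨j0, hj0⟩ := Metric.tendsto_atTop.1 hlim ε hε
  let k := φ (max j0 N)
  have hk : N ≤ k := (le_max_right _ _).trans (hφ.id_le _)
  refine ⟨(5 ^ (2 * k + 3)) ^ 2, ?_, ?_, ?_, ?_, F k, iF k, iT k, hcard k, s k, hs1 k, hs2 k, ?_⟩
  · rw [← pow_mul]
    have := Nat.lt_pow_self (a := 5) (n := (2 * k + 3) * 2) (by norm_num)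
    omega
  · rw [← pow_mul]
    exact ((by norm_num : Nat.Prime 5).isPrimePow).pow (by omega)
  · exact ((by decide : Odd 5).pow).pow
  · rw [← pow_mul, mul_comm, pow_mul, Nat.pow_mod]
    norm_num
  · have := hj0 (max j0 N) (le_max_left _ _)
    rw [Real.dist_eq] at this
    exact this

end Pool.Agent.H646Z
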