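import Mathlib

set_option autoImplicit false

namespace Pool.Agent.H646Z

open Polynomial

variable {F : Type*} [Field F]

theorem pow_sub_dvd_hasseDeriv (f : F[X]) (n : ℕ) :
    ∀ k : ℕ, f ^ (n - k) ∣ hasseDeriv k (f ^ n) := by
  induction n with
  | zero => intro k; simp
  | succ n ih =>
    intro k
    rw [pow_succ, hasseDeriv_mul]
    refine Finset.dvd_sum fun ij hij => ?_
    rw [Finset.HasAntidiagonal.mem_antidiagonal] at hij
    rcases Nat.eq_zero_or_pos ij.2 with h0 | h0
    · rw [h0] at hij ⊢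
      rw [add_zero] at hij
      rw [hij, hasseDeriv_zero, LinearMap.id_coe, id]
      have h1 : f ^ (n + 1 - k) ∣ f ^ (n - k + 1) := pow_dvd_pow f (by omega)
      refine h1.trans ?_
      rw [pow_succ]
      exact mul_dvd_mul_right (ih k) f
    · refine Dvd.dvd.mul_right ?_ _
      exact (pow_dvd_pow f (by omega)).trans (ih ij.1)

/-- the cofactor `P` with `hasseDeriv k (f ^ n) = f ^ (n - k) * P` -/
noncomputable def cof (f : F[X]) (n k : ℕ) : F[X] := (pow_sub_dvd_hasseDeriv f n k).choose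

theorem cof_spec (f : F[X]) (n k : ℕ) : hasseDeriv k (f ^ n) = f ^ (n - k) * cof f n k :=
  (pow_sub_dvd_hasseDeriv f n k).choose_spec

/-- the linear map `h ↦ f ^ (k - n) * hasseDeriv k (f ^ n * h)` -/
noncomputable def T (f : F[X]) (n k : ℕ) : F[X] →ₗ[F] F[X] :=
  ∑ ab ∈ Finset.HasAntidiagonal.antidiagonal k,
    (LinearMap.mulLeft F (f ^ (k - ab.1) * cof f n ab.1)) ∘ₗ hasseDeriv ab.2

theorem T_spec (f : F[X]) (n k : ℕ) (hk : k ≤ n) (h : F[X]) :
    f ^ (n - k) * T f n k h = hasseDeriv k (f ^ n * h) := by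
  rw [hasseDeriv_mul, T, LinearMap.sum_apply, Finset.mul_sum]
  refine Finset.sum_congr rfl fun ab hab => ?_
  rw [Finset.HasAntidiagonal.mem_antidiagonal] at hab
  rw [LinearMap.comp_apply, LinearMap.mulLeft_apply, cof_spec]
  have : f ^ (n - ab.1) = f ^ (n - k) * f ^ (k - ab.1) := by
    rw [← pow_add]
    congr 1
    omega
  rw [this]
  ring

theorem natDegree_T_le (f : F[X]) (hf : 1 ≤ f.natDegree) (n k : ℕ) (hk : k ≤ n) (h : F[X]) :
    (T f n k h).natDegree ≤ k * (f.natDegree - 1) + h.natDegree := by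
  have hf0 : f ≠ 0 := by
    rintro rfl
    simp at hf
  by_cases hT : T f n k h = 0
  · rw [hT]; simp
  have h1 := congrArg natDegree (T_spec f n k hk h)
  rw [natDegree_mul (pow_ne_zero _ hf0) hT, natDegree_pow] at h1
  have h2 := natDegree_hasseDeriv_le (f ^ n * h) k
  have h3 : (f ^ n * h).natDegree ≤ n * f.natDegree + h.natDegree := by
    refine natDegree_mul_le.trans ?_
    rw [natDegree_pow]
  have h4 : n * f.natDegree = (n - k) * f.natDegree + k * f.natDegree := by
    rw [← Nat.add_mul]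
    congr 1
    omega
  have h5 : k * f.natDegree = k * (f.natDegree - 1) + k := by
    obtain ⟨e, he⟩ := Nat.exists_eq_add_of_le hf
    rw [he, Nat.add_sub_cancel_left]
    ring
  omega

/-- independence by order of vanishing at a point -/
theorem eq_zero_of_sep {ι : Type*} [Fintype ι] (β : F) (e : ι → ℕ) (D : ℕ)
    (he : ∀ i j, i ≠ j → e i + D < e j ∨ e j + D < e i) (r u : ι → F[X])
    (hr : ∀ i, (r i).natDegree ≤ D) (hu : ∀ i, (u i).eval β ≠ 0)
    (h : ∑ i, (X - C β) ^ (e i) * (r i * u i) = 0) : ∀ i, r i = 0 := by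
  classical
  by_contra hne
  push Not at hne
  have hS : (Finset.univ.filter fun i => r i ≠ 0).Nonempty := by
    obtain ⟨i, hi⟩ := hne
    exact ⟨i, by simpa using hi⟩
  obtain ⟨i0, hi0, hmin⟩ := Finset.exists_min_image _ e hS
  have hr0 : r i0 ≠ 0 := (Finset.mem_filter.1 hi0).2
  rw [← Finset.add_sum_erase _ _ (Finset.mem_univ i0)] at h
  have h1 : (X - C β) ^ (e i0 + (D + 1)) ∣
      ∑ i ∈ Finset.univ.erase i0, (X - C β) ^ (e i) * (r i * u i) := by
    refine Finset.dvd_sum fun i hi => ?_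
    by_cases hri : r i = 0
    · rw [hri]; simp
    · have h2 := hmin i (by simpa using hri)
      have h3 := he i i0 (Finset.ne_of_mem_erase hi)
      refine Dvd.dvd.mul_right (pow_dvd_pow _ (by omega)) _
  have h2 : (X - C β) ^ (e i0 + (D + 1)) ∣ (X - C β) ^ (e i0) * (r i0 * u i0) := by
    rw [eq_neg_of_add_eq_zero_left h]
    exact (dvd_neg).2 h1
  rw [pow_add, mul_dvd_mul_iff_left (pow_ne_zero _ (X_sub_C_ne_zero β))] at h2
  have h3 : IsCoprime ((X - C β) ^ (D + 1)) (u i0) := by
    refine IsCoprime.pow_left ?_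
    refine (Irreducible.coprime_iff_not_dvd (irreducible_X_sub_C β)).2 ?_
    rw [dvd_iff_isRoot]
    exact hu i0
  have h4 := h3.dvd_of_dvd_mul_right h2
  have h5 := natDegree_le_of_dvd h4 hr0
  rw [natDegree_pow, natDegree_X_sub_C] at h5
  have := hr i0
  omega

/-- Stepanov's method for the points with `a ^ Q = a` and `h a ^ m = w a`, `3 m = Q + 1`. -/
theorem core (p n : ℕ) [Fact p.Prime] [CharP F p] (Q m M J D : ℕ) (hQ : Q = p ^ n)
    (hm : 3 * m = Q + 1) (hD : D + 2 ≤ m) (hM : M ≤ Q) (β : F) (h h1 w : F[X])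
    (hh : h = (X - C β) * h1) (hβ : h1.eval β ≠ 0) (S : Finset F)
    (hS : ∀ a ∈ S, a ^ Q = a ∧ h.eval a ^ m = w.eval a)
    (hdim : ∑ k ∈ Finset.range M, (D + k * (h.natDegree - 1) + 2 * w.natDegree + J + 1) <
      3 * (J + 1) * (D + 1)) :
    M * S.card ≤ (M + 2 * m) * h.natDegree + D + J * Q := by
  classical
  have hh1 : h1 ≠ 0 := by
    rintro rfl
    simp at hβ
  have hf : h ≠ 0 := by
    rw [hh]; exact mul_ne_zero (X_sub_C_ne_zero β) hh1
  have hd : 1 ≤ h.natDegree := by
    rw [hh, natDegree_mul (X_sub_C_ne_zero β) hh1, natDegree_X_sub_C]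
    omega
  let ι := Fin 3 × Fin (J + 1)
  let V := ι → degreeLT F (D + 1)
  let W := (k : Fin M) → (Fin (D + k * (h.natDegree - 1) + 2 * w.natDegree + J + 1) → F)
  let σ : ℕ → V →ₗ[F] F[X] := fun k => ∑ i : ι,
    (LinearMap.mulLeft F ((X - C (β ^ Q)) ^ (i.2 : ℕ) * w ^ (i.1 : ℕ))) ∘ₗ
      ((T h (M + m * (i.1 : ℕ)) k) ∘ₗ (degreeLT F (D + 1)).subtype ∘ₗ (LinearMap.proj i))
  have hσ : ∀ k (v : V), σ k v = ∑ i : ι, ((X - C (β ^ Q)) ^ (i.2 : ℕ) * w ^ (i.1 : ℕ)) *
      (T h (M + m * (i.1 : ℕ)) k (v i : F[X])) := by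
    intro k v
    simp only [σ, LinearMap.sum_apply, LinearMap.comp_apply, LinearMap.mulLeft_apply,
      LinearMap.proj_apply, Submodule.subtype_apply]
    rfl
  let Φ : V →ₗ[F] W := LinearMap.pi fun k => LinearMap.pi fun i => (lcoeff F (i : ℕ)) ∘ₗ (σ k)
  have hfin : Module.finrank F W < Module.finrank F V := by
    have h1 : Module.finrank F W =
        ∑ k ∈ Finset.range M, (D + k * (h.natDegree - 1) + 2 * w.natDegree + J + 1) := by
      simp only [W]
      rw [Module.finrank_pi_fintype, Finset.sum_range]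
      refine Finset.sum_congr rfl fun k _ => ?_
      simp
    have h2 : Module.finrank F (degreeLT F (D + 1)) = D + 1 := by
      rw [(degreeLTEquiv F (D + 1)).finrank_eq]
      simp
    have h3 : Module.finrank F V = 3 * (J + 1) * (D + 1) := by
      simp only [V]
      rw [Module.finrank_pi_fintype]
      simp only [h2, Finset.sum_const, Finset.card_univ, smul_eq_mul, ι, Fintype.card_prod,
        Fintype.card_fin]
    rw [h1, h3]
    exact hdim
  have hker : LinearMap.ker Φ ≠ ⊥ := LinearMap.ker_ne_bot_of_finrank_lt hfin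
  obtain ⟨v, hv, hv0⟩ := (Submodule.ne_bot_iff _).1 hker
  have hdegv : ∀ w : degreeLT F (D + 1), (w : F[X]).natDegree ≤ D := by
    intro w
    have := mem_degreeLT.1 w.2
    by_cases h0 : (w : F[X]) = 0
    · rw [h0]; simp
    · exact Nat.lt_succ_iff.1 ((natDegree_lt_iff_degree_lt h0).2 this)
  have hσ0 : ∀ k < M, σ k v = 0 := by
    intro k hk
    have hdeg : (σ k v).natDegree ≤ D + k * (h.natDegree - 1) + 2 * w.natDegree + J := by
      rw [hσ]
      refine natDegree_sum_le_of_forall_le _ _ fun i _ => ?_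
      refine natDegree_mul_le.trans ?_
      have h2 := natDegree_T_le h hd (M + m * (i.1 : ℕ)) k (by omega) (v i : F[X])
      have h3 := hdegv (v i)
      have h4 : ((X - C (β ^ Q)) ^ (i.2 : ℕ) * w ^ (i.1 : ℕ)).natDegree ≤
          J + 2 * w.natDegree := by
        refine natDegree_mul_le.trans ?_
        rw [natDegree_pow, natDegree_pow, natDegree_X_sub_C]
        have h5 := i.2.2
        have h6 : (i.1 : ℕ) * w.natDegree ≤ 2 * w.natDegree :=
          Nat.mul_le_mul_right _ (by have := i.1.2; omega)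
        omega
      omega
    ext i
    by_cases hi : i < D + k * (h.natDegree - 1) + 2 * w.natDegree + J + 1
    · have h1 := congrFun (congrFun (LinearMap.mem_ker.1 hv) ⟨k, hk⟩) ⟨i, hi⟩
      simpa [Φ] using h1
    · rw [coeff_eq_zero_of_natDegree_lt (by omega)]
      simp
  -- the auxiliary polynomial
  set R : F[X] := ∑ i : ι, (h ^ (M + m * (i.1 : ℕ)) * (v i : F[X])) *
    ((X - C β) ^ Q) ^ (i.2 : ℕ) with hR
  have hR' : R = h ^ M * ∑ i : ι, (X - C β) ^ (Q * (i.2 : ℕ) + m * (i.1 : ℕ)) *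
      ((v i : F[X]) * h1 ^ (m * (i.1 : ℕ))) := by
    rw [hR, Finset.mul_sum]
    refine Finset.sum_congr rfl fun i _ => ?_
    rw [pow_add, pow_add, ← pow_mul]
    have : h ^ (m * (i.1 : ℕ)) = (X - C β) ^ (m * (i.1 : ℕ)) * h1 ^ (m * (i.1 : ℕ)) := by
      rw [hh, mul_pow]
    rw [this]
    ring
  have hRne : R ≠ 0 := by
    intro hR0
    rw [hR'] at hR0
    have h2 := (mul_eq_zero.1 hR0).resolve_left (pow_ne_zero _ hf)
    have h3 := eq_zero_of_sep β (fun i : ι => Q * (i.2 : ℕ) + m * (i.1 : ℕ)) D (by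
        rintro ⟨a, j⟩ ⟨b, l⟩ hne
        simp only
        have ha := a.2
        have hb := b.2
        rcases lt_trichotomy (j : ℕ) (l : ℕ) with hjl | hjl | hjl
        · left
          have h4 : Q * (j : ℕ) + Q ≤ Q * (l : ℕ) := by
            rw [← Nat.mul_succ]; exact Nat.mul_le_mul_left _ hjl
          have h5 : m * (a : ℕ) ≤ m * 2 := Nat.mul_le_mul_left _ (by omega)
          omega
        · have hab : (a : ℕ) ≠ (b : ℕ) := by
            intro hab
            apply hne
            rw [Fin.ext hab, Fin.ext hjl]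
          rw [hjl]
          rcases lt_or_gt_of_ne hab with h4 | h4
          · left
            have h5 : m * (a : ℕ) + m ≤ m * (b : ℕ) := by
              rw [← Nat.mul_succ]; exact Nat.mul_le_mul_left _ h4
            omega
          · right
            have h5 : m * (b : ℕ) + m ≤ m * (a : ℕ) := by
              rw [← Nat.mul_succ]; exact Nat.mul_le_mul_left _ h4
            omega
        · right
          have h4 : Q * (l : ℕ) + Q ≤ Q * (j : ℕ) := by
            rw [← Nat.mul_succ]; exact Nat.mul_le_mul_left _ hjl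
          have h5 : m * (b : ℕ) ≤ m * 2 := Nat.mul_le_mul_left _ (by omega)
          omega)
      (fun i => (v i : F[X])) (fun i => h1 ^ (m * (i.1 : ℕ))) (fun i => hdegv (v i))
      (fun i => by rw [eval_pow]; exact pow_ne_zero _ hβ) h2
    apply hv0
    funext i
    exact Subtype.ext (h3 i)
  have hdegR : R.natDegree ≤ (M + 2 * m) * h.natDegree + D + J * Q := by
    rw [hR]
    refine natDegree_sum_le_of_forall_le _ _ fun i _ => ?_
    refine natDegree_mul_le.trans ?_
    rw [natDegree_pow, natDegree_pow, natDegree_X_sub_C, mul_one]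
    have h1 : (h ^ (M + m * (i.1 : ℕ)) * (v i : F[X])).natDegree ≤
        (M + 2 * m) * h.natDegree + D := by
      refine natDegree_mul_le.trans ?_
      rw [natDegree_pow]
      have h2 := hdegv (v i)
      have h3 : (M + m * (i.1 : ℕ)) * h.natDegree ≤ (M + 2 * m) * h.natDegree := by
        refine Nat.mul_le_mul_right _ ?_
        have h5 : m * (i.1 : ℕ) ≤ m * 2 := Nat.mul_le_mul_left _ (by have := i.1.2; omega)
        omega
      omega
    have h2 : (i.2 : ℕ) * Q ≤ J * Q := Nat.mul_le_mul_right _ (by have := i.2.2; omega)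
    omega
  have hvan : ∀ x ∈ S, (X - C x) ^ M ∣ R := by
    intro x hx
    obtain ⟨hxQ, hxa⟩ := hS x hx
    set R₁ : F[X] := ∑ i : ι, ((x - β ^ Q) ^ (i.2 : ℕ)) •
      (h ^ (M + m * (i.1 : ℕ)) * (v i : F[X])) with hR₁
    have h1 : (X - C x) ^ M ∣ R - R₁ := by
      rw [hR, hR₁, ← Finset.sum_sub_distrib]
      refine Finset.dvd_sum fun i _ => ?_
      rw [smul_eq_C_mul, mul_comm (C ((x - β ^ Q) ^ (i.2 : ℕ))), ← mul_sub]
      refine Dvd.dvd.mul_left ?_ _
      have h2 : ((X : F[X]) - C β) ^ Q - C (x - β ^ Q) = (X - C x) ^ Q := by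
        rw [hQ, sub_pow_char_pow, sub_pow_char_pow, ← hQ, ← C_pow, ← C_pow, hxQ, C_sub]
        ring
      have h3 : ((X : F[X]) - C β) ^ Q - C (x - β ^ Q) ∣
          ((X - C β) ^ Q) ^ (i.2 : ℕ) - C ((x - β ^ Q) ^ (i.2 : ℕ)) := by
        rw [C_pow]
        exact sub_dvd_pow_sub_pow _ _ _
      rw [h2] at h3
      exact (pow_dvd_pow _ hM).trans h3
    have h2 : (X - C x) ^ M ∣ R₁ := by
      rw [X_sub_C_pow_dvd_iff, X_pow_dvd_iff]
      intro k hk
      have h3 : (R₁.comp (X + C x)).coeff k = (taylor x R₁).coeff k := by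
        rw [taylor_apply]
      rw [h3, taylor_coeff, hR₁, map_sum]
      simp only [map_smul, eval_finsetSum]
      have h4 : ∀ i : ι, eval x ((x - β ^ Q) ^ (i.2 : ℕ) •
          (hasseDeriv k (h ^ (M + m * (i.1 : ℕ)) * (v i : F[X])))) =
          eval x h ^ (M - k) * eval x (((X - C (β ^ Q)) ^ (i.2 : ℕ) * w ^ (i.1 : ℕ)) *
            (T h (M + m * (i.1 : ℕ)) k (v i : F[X]))) := by
        intro i
        rw [← T_spec h (M + m * (i.1 : ℕ)) k (by omega)]
        have h5 : M + m * (i.1 : ℕ) - k = (M - k) + m * (i.1 : ℕ) := by omega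
        rw [h5]
        simp only [eval_smul, eval_sub, eval_mul, eval_pow, eval_X, eval_C, smul_eq_mul, pow_add,
          pow_mul, hxa]
        ring
      rw [Finset.sum_congr rfl fun i _ => h4 i, ← Finset.mul_sum, ← eval_finsetSum, ← hσ,
        hσ0 k hk, eval_zero, mul_zero]
    have h3 := dvd_add h1 h2
    rwa [sub_add_cancel] at h3
  have hprod : ∏ x ∈ S, (X - C x) ^ M ∣ R := by
    refine Finset.prod_dvd_of_coprime ?_ ?_
    · intro x _ y _ hxy
      exact (isCoprime_X_sub_C_of_isUnit_sub (sub_ne_zero.2 hxy).isUnit).pow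
    · intro x hx
      exact hvan x hx
  have h1 := natDegree_le_of_dvd hprod hRne
  rw [natDegree_prod_of_monic _ _ fun x _ => (monic_X_sub_C x).pow M] at h1
  simp only [natDegree_pow, natDegree_X_sub_C, mul_one, Finset.sum_const, smul_eq_mul] at h1
  rw [mul_comm M]
  exact h1.trans hdegR

end Pool.Agent.H646Z
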