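import Mathlib

/-!
Finite sets of rationals that are almost invariant under many translations.
-/

namespace Pool.Agent.H646Z.SumG

open Finset

/-- The elements of `A` whose translate by `d` leaves `A`. -/
def tops (A : Finset ℚ) (d : ℚ) : Finset ℚ := A.filter fun y => y + d ∉ A

theorem card_le_tops_region (A : Finset ℚ) (d : ℚ) (hd : 0 < d) (R : ℚ → Prop)
    [DecidablePred R] (hR : ∀ y, R y → R (y + d)) (Q : Finset ℚ) (hQ : Q ⊆ A)
    (hQR : ∀ q ∈ Q, R q) (hdiff : ∀ q ∈ Q, ∀ q' ∈ Q, q < q' → q' < q + d) :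
    Q.card ≤ ((tops A d).filter R).card := by
  classical
  have hRn : ∀ (n : ℕ) y, R y → R (y + n * d) := by
    intro n
    induction n with
    | zero => intro y hy; simpa using hy
    | succ n ih =>
      intro y hy
      have := hR _ (ih y hy)
      have e : y + ((n + 1 : ℕ) : ℚ) * d = y + n * d + d := by push_cast; ring
      rw [e]; exact this
  have key : ∀ q ∈ Q, ∃ n : ℕ, q + n * d ∈ (tops A d).filter R := by
    intro q hq
    let C := A.filter fun y => ∃ n : ℕ, y = q + n * d
    have hC : C.Nonempty := ⟨q, mem_filter.2 ⟨hQ hq, 0, by simp⟩⟩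
    obtain ⟨hm, n, hn⟩ := mem_filter.1 (C.max'_mem hC)
    refine ⟨n, mem_filter.2 ⟨mem_filter.2 ⟨hn ▸ hm, fun h => ?_⟩, hRn n q (hQR q hq)⟩⟩
    have : q + n * d + d ∈ C := mem_filter.2 ⟨h, n + 1, by push_cast; ring⟩
    have := C.le_max' _ this
    rw [hn] at this
    linarith
  choose! n hn using key
  refine card_le_card_of_injOn (fun q => q + n q * d) (fun q hq => hn q hq) ?_
  have aux : ∀ q ∈ Q, ∀ q' ∈ Q, q < q' → q + n q * d ≠ q' + n q' * d := by
    intro q hq q' hq' hlt e
    have h2 := hdiff q hq q' hq' hlt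
    rcases le_or_gt (n q) (n q') with h | h
    · have : (n q : ℚ) ≤ n q' := by exact_mod_cast h
      nlinarith
    · have : (n q' : ℚ) + 1 ≤ n q := by exact_mod_cast h
      nlinarith
  intro q hq q' hq' e
  rcases lt_trichotomy q q' with h | h | h
  · exact absurd e (aux q hq q' hq' h)
  · exact h
  · exact absurd e.symm (aux q' hq' q hq h)

theorem card_le_tops (A : Finset ℚ) (d : ℚ) (hd : 0 < d) (Q : Finset ℚ) (hQ : Q ⊆ A)
    (hdiff : ∀ q ∈ Q, ∀ q' ∈ Q, q < q' → q' < q + d) : Q.card ≤ (tops A d).card :=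
  (card_le_tops_region A d hd (fun _ => True) (fun _ _ => trivial) Q hQ (fun _ _ => trivial)
    hdiff).trans (card_filter_le _ _)

theorem card_tops_neg (A : Finset ℚ) (d : ℚ) : (tops A (-d)).card = (tops A d).card := by
  have h1 := card_filter_add_card_filter_not (s := A) (fun y => y + d ∈ A)
  have h2 := card_filter_add_card_filter_not (s := A) (fun y => y + -d ∈ A)
  have h3 : (A.filter fun y => y + d ∈ A).card = (A.filter fun y => y + -d ∈ A).card := by
    refine card_bij (fun y _ => y + d) ?_ ?_ ?_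
    · intro y hy
      obtain ⟨h, h'⟩ := mem_filter.1 hy
      exact mem_filter.2 ⟨h', by simpa using h⟩
    · intro a _ b _ e
      simpa using e
    · intro y hy
      obtain ⟨h, h'⟩ := mem_filter.1 hy
      exact ⟨y + -d, mem_filter.2 ⟨h', by simpa using h⟩, by ring⟩
  unfold tops
  omega

theorem exists_enum (A : Finset ℚ) : ∃ s : ℕ → ℚ, (∀ i < A.card, s i ∈ A) ∧
    (∀ y ∈ A, ∃ i < A.card, s i = y) ∧ ∀ i k, i < k → k < A.card → s i < s k := by
  refine ⟨fun i => if h : i < A.card then A.orderEmbOfFin rfl ⟨i, h⟩ else 0, ?_, ?_, ?_⟩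
  · intro i hi
    simp only [hi, dif_pos]
    exact A.orderEmbOfFin_mem rfl _
  · intro y hy
    have : y ∈ Set.range (A.orderEmbOfFin rfl) := by
      rw [A.range_orderEmbOfFin rfl]; exact hy
    obtain ⟨i, hi⟩ := this
    exact ⟨i, i.2, by simp [hi]⟩
  · intro i k hik hk
    have hi : i < A.card := hik.trans hk
    simp only [hi, hk, dif_pos]
    exact (A.orderEmbOfFin rfl).strictMono (by simpa using hik)

theorem structA (A : Finset ℚ) (f : ℕ → ℚ) (K J J2 : ℕ) (E : ℕ → Prop)
    (hpos : ∀ a, E a → 0 < f a) (htop : ∀ a, E a → (tops A (f a)).card ≤ a + K)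
    (hE : ∀ j, 1 ≤ j → j ≤ J → E j) (hinj : ∀ j j', E j → E j' → f j = f j' → j = j')
    (hJ : K + 1 < J)
    (hcard : (2 * (J * (J + K)) + 1) * (J + K + 1 + 2 * (J2 + K)) ≤ A.card) :
    ∃ δ : ℚ, 0 < δ ∧ ∀ a, E a → a ≤ J2 → ∃ p : ℕ, f a = p * δ ∧ p ≤ a + K := by
  classical
  obtain ⟨s, hs1, hs2, hs3⟩ := exists_enum A
  set n := A.card with hn
  have hlt : ∀ i k, i < n → k < n → s i < s k → i < k := by
    intro i k hi hk h
    by_contra hc
    rcases (not_lt.1 hc).eq_or_lt with e | e
    · rw [e] at h; exact lt_irrefl _ h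
    · exact absurd (hs3 k i e hi) (not_lt.2 h.le)
  have hle : ∀ i k, i ≤ k → k < n → s i ≤ s k := by
    intro i k h hk
    rcases h.eq_or_lt with e | e
    · rw [e]
    · exact (hs3 i k e hk).le
  have hsinj : ∀ i k, i < n → k < n → s i = s k → i = k := by
    intro i k hi hk e
    rcases lt_trichotomy i k with h | h | h
    · exact absurd e (hs3 i k h hk).ne
    · exact h
    · exact absurd e.symm (hs3 k i h hi).ne
  have shift : ∀ (d : ℚ) i k, 0 < d → i < n → k < n → s i + d = s k →
      i < k ∧ k ≤ i + (tops A d).card := by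
    intro d i k hd hi hk e
    have hik : i < k := hlt i k hi hk (by linarith)
    refine ⟨hik, ?_⟩
    have hc : ((Ioc i k).image s).card = k - i := by
      rw [card_image_of_injOn, Nat.card_Ioc]
      intro a ha b hb hab
      simp only [coe_Ioc, Set.mem_Ioc] at ha hb
      exact hsinj a b (by omega) (by omega) hab
    have := card_le_tops A d hd ((Ioc i k).image s) ?_ ?_
    · omega
    · intro y hy
      obtain ⟨a, ha, rfl⟩ := mem_image.1 hy
      exact hs1 a (by have := (mem_Ioc.1 ha).2; omega)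
    · intro y hy y' hy' _
      obtain ⟨a, ha, rfl⟩ := mem_image.1 hy
      obtain ⟨b, hb, rfl⟩ := mem_image.1 hy'
      have h1 := hs3 i a (mem_Ioc.1 ha).1 (by have := (mem_Ioc.1 ha).2; omega)
      have h2 := hle b k (mem_Ioc.1 hb).2 hk
      linarith
  set W := 2 * (J2 + K) with hW
  set L := J + K + 1 + W with hL
  set β := 2 * (J * (J + K)) with hβ
  let Bad : Finset ℚ := (Icc 1 J).biUnion fun j => tops A (f j) ∪ tops A (-f j)
  have hBad : Bad.card ≤ β := by
    refine (card_biUnion_le_card_mul _ _ (2 * (J + K)) ?_).trans ?_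
    · intro j hj
      obtain ⟨h1, h2⟩ := mem_Icc.1 hj
      have := card_union_le (tops A (f j)) (tops A (-f j))
      have h3 := htop j (hE j h1 h2)
      rw [card_tops_neg] at this
      omega
    · rw [Nat.card_Icc, hβ]
      apply le_of_eq
      simp only [Nat.add_sub_cancel]
      ring
  let BadI : Finset ℕ := (range n).filter fun i => s i ∈ Bad
  have hBadI : BadI.card ≤ β := by
    refine le_trans (card_le_card_of_injOn s (fun i hi => ?_) ?_) hBad
    · exact (mem_filter.1 (mem_coe.1 hi)).2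
    · intro a ha b hb e
      exact hsinj a b (mem_range.1 (mem_filter.1 (mem_coe.1 ha)).1)
        (mem_range.1 (mem_filter.1 (mem_coe.1 hb)).1) e
  obtain ⟨q, hq, hq'⟩ := exists_mem_notMem_of_card_lt_card
    (s := BadI.image fun i => i / L) (t := range (β + 1))
    (by have := card_image_le (s := BadI) (f := fun i => i / L); rw [card_range]; omega)
  have hLpos : 0 < L := by omega
  set i0 := q * L with hi0
  have hi0n : i0 + L ≤ n := by
    have : (q + 1) * L ≤ (β + 1) * L := Nat.mul_le_mul_right _ (mem_range.1 hq)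
    have e : (q + 1) * L = i0 + L := by rw [hi0]; ring
    omega
  have good : ∀ i < L, ∀ j, 1 ≤ j → j ≤ J → s (i0 + i) + f j ∈ A ∧ s (i0 + i) + -f j ∈ A := by
    intro i hi j h1 h2
    by_contra hc
    apply hq'
    refine mem_image.2 ⟨i0 + i, mem_filter.2 ⟨mem_range.2 (by omega), ?_⟩, ?_⟩
    · refine mem_biUnion.2 ⟨j, mem_Icc.2 ⟨h1, h2⟩, ?_⟩
      have hm := hs1 (i0 + i) (by omega)
      by_cases h : s (i0 + i) + f j ∈ A
      · exact mem_union_right _ (mem_filter.2 ⟨hm, fun h' => hc ⟨h, h'⟩⟩)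
      · exact mem_union_left _ (mem_filter.2 ⟨hm, h⟩)
    · rw [hi0, add_comm, Nat.add_mul_div_right _ _ hLpos, Nat.div_eq_of_lt hi, zero_add]
  have hp : ∀ j, 1 ≤ j → j ≤ J → ∃ p, 1 ≤ p ∧ p ≤ J + K ∧
      ∀ i, i + p < L → s (i0 + i) + f j = s (i0 + i + p) := by
    intro j h1 h2
    obtain ⟨k, hk, e⟩ := hs2 _ (good 0 hLpos j h1 h2).1
    obtain ⟨g1, g2⟩ := shift (f j) (i0 + 0) k (hpos j (hE j h1 h2)) (by omega) hk e.symm
    have g3 := htop j (hE j h1 h2)
    refine ⟨k - i0, by omega, by omega, ?_⟩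
    intro i
    induction i with
    | zero =>
      intro _
      rw [← e]; congr 1; omega
    | succ i ih =>
      intro hi
      have ih := ih (by omega)
      obtain ⟨k1, hk1, e1⟩ := hs2 _ (good (i + 1) (by omega) j h1 h2).1
      obtain ⟨k2, hk2, e2⟩ := hs2 _ (good (i + 1 + (k - i0)) hi j h1 h2).2
      have a1 : s (i0 + i) < s (i0 + (i + 1)) := hs3 _ _ (by omega) (by omega)
      have a2 : s (i0 + i + (k - i0)) < s (i0 + (i + 1 + (k - i0))) :=
        hs3 _ _ (by omega) (by omega)
      have b1 : i0 + i + (k - i0) < k1 := hlt _ _ (by omega) hk1 (by linarith)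
      have b2 : i0 + i < k2 := hlt _ _ (by omega) hk2 (by linarith)
      have c1 := hle (i0 + (i + 1 + (k - i0))) k1 (by omega) hk1
      have c2 := hle (i0 + (i + 1)) k2 (by omega) hk2
      rw [show i0 + (i + 1) + (k - i0) = i0 + (i + 1 + (k - i0)) by omega]
      linarith
  choose! p hp1 hp2 hp3 using hp
  have pinj : ∀ j j', 1 ≤ j → j ≤ J → 1 ≤ j' → j' ≤ J → p j = p j' → j = j' := by
    intro j j' a1 a2 b1 b2 e
    have e1 := hp3 j a1 a2 0 (by have := hp2 j a1 a2; omega)
    have e2 := hp3 j' b1 b2 0 (by have := hp2 j' b1 b2; omega)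
    rw [e] at e1
    exact hinj j j' (hE j a1 a2) (hE j' b1 b2) (by linarith)
  have hcons : ∃ j j', 1 ≤ j ∧ j ≤ J ∧ 1 ≤ j' ∧ j' ≤ J ∧ p j' = p j + 1 := by
    obtain ⟨j, hj, j', hj', hne, e⟩ := exists_ne_map_eq_of_card_lt_of_maps_to
      (s := Icc 1 J) (t := Icc 1 ((J + K + 1) / 2)) (f := fun j => (p j + 1) / 2)
      (by rw [Nat.card_Icc, Nat.card_Icc]; omega)
      (by
        intro j hj
        obtain ⟨a1, a2⟩ := mem_Icc.1 (mem_coe.1 hj)
        have := hp1 j a1 a2
        have := hp2 j a1 a2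
        show (p j + 1) / 2 ∈ (Icc 1 ((J + K + 1) / 2) : Finset ℕ)
        exact mem_Icc.2 ⟨by omega, by omega⟩)
    obtain ⟨a1, a2⟩ := mem_Icc.1 hj
    obtain ⟨b1, b2⟩ := mem_Icc.1 hj'
    have hne' : p j ≠ p j' := fun h => hne (pinj j j' a1 a2 b1 b2 h)
    have e : (p j + 1) / 2 = (p j' + 1) / 2 := e
    rcases lt_or_gt_of_ne hne' with h | h
    · exact ⟨j, j', a1, a2, b1, b2, by omega⟩
    · exact ⟨j', j, b1, b2, a1, a2, by omega⟩
  obtain ⟨j, j', a1, a2, b1, b2, e⟩ := hcons
  have hpj := hp2 j' b1 b2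
  have gap : ∀ i, i + p j + 1 < L → s (i0 + i + p j + 1) = s (i0 + i + p j) + (f j' - f j) := by
    intro i hi
    have e1 := hp3 j a1 a2 i (by omega)
    have e2 := hp3 j' b1 b2 i (by omega)
    rw [e, ← add_assoc] at e2
    linarith
  have run : ∀ i ≤ W, s (i0 + p j + i) = s (i0 + p j) + i * (f j' - f j) := by
    intro i
    induction i with
    | zero => intro _; simp
    | succ i ih =>
      intro hi
      have := gap i (by omega)
      rw [show i0 + i + p j = i0 + p j + i by omega] at this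
      rw [← add_assoc, this, ih (by omega)]
      push_cast; ring
  refine ⟨f j' - f j, ?_, ?_⟩
  · have := gap 0 (by omega)
    have h2 := hs3 (i0 + 0 + p j) (i0 + 0 + p j + 1) (by omega) (by omega)
    linarith
  · intro a ha haJ
    have h3 := htop a ha
    obtain ⟨y, hy, hy'⟩ := exists_mem_notMem_of_card_lt_card
      (s := tops A (f a)) (t := (range (a + K + 1)).image fun i => s (i0 + p j + i))
      (by
        rw [card_image_of_injOn, card_range]
        · omega
        · intro u hu v hv huv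
          have hu := mem_range.1 (mem_coe.1 hu)
          have hv := mem_range.1 (mem_coe.1 hv)
          have := hsinj _ _ (by omega) (by omega) huv
          omega)
    obtain ⟨i, hi, rfl⟩ := mem_image.1 hy
    have hi := mem_range.1 hi
    have hm : s (i0 + p j + i) + f a ∈ A := by
      by_contra hc
      exact hy' (mem_filter.2 ⟨hs1 _ (by omega), hc⟩)
    obtain ⟨k, hk, ek⟩ := hs2 _ hm
    obtain ⟨g1, g2⟩ := shift (f a) (i0 + p j + i) k (hpos a ha) (by omega) hk ek.symm
    obtain ⟨r, rfl⟩ : ∃ r, k = i0 + p j + (i + r) := ⟨k - (i0 + p j + i), by omega⟩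
    refine ⟨r, ?_, by omega⟩
    rw [run (i + r) (by omega), run i (by omega)] at ek
    push_cast at ek
    linarith

end Pool.Agent.H646Z.SumG
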