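import Mathlib
import Pool.Agent.H646Z.SumTops

/-!
Rigidity of a threshold graph with one hole inside a sum graph: the even part.
-/

namespace Pool.Agent.H646Z.SumG

open Finset

/-- Indices of the even vertices. -/
def Ev (K M a : ℕ) : Prop := 1 ≤ a ∧ a < M ∧ a ≠ 30 * K + 9

instance (K M a : ℕ) : Decidable (Ev K M a) := by unfold Ev; infer_instance

/-- `y` is the label of an even vertex. -/
def InA (K M : ℕ) (f : ℕ → ℚ) (y : ℚ) : Prop := ∃ c, Ev K M c ∧ f c = y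

open Classical in
/-- Neighbours of `a` for which the sum is not the label of an even vertex. -/
noncomputable def exc (K M : ℕ) (f : ℕ → ℚ) (a : ℕ) : Finset ℕ :=
  (range M).filter fun b => Ev K M b ∧ b ≠ a ∧ a + b ≤ M ∧ a + b ≠ 30 * K + 9 ∧
    ¬ InA K M f (f a + f b)

/-- The set of labels of even vertices. -/
def labA (K M : ℕ) (f : ℕ → ℚ) : Finset ℚ := ((range M).filter (Ev K M)).image f

theorem mem_labA {K M : ℕ} {f : ℕ → ℚ} {y : ℚ} : y ∈ labA K M f ↔ InA K M f y := by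
  unfold labA InA
  simp only [mem_image, mem_filter, mem_range]
  exact ⟨fun ⟨c, h, e⟩ => ⟨c, h.2, e⟩, fun ⟨c, h, e⟩ => ⟨c, ⟨h.2.1, h⟩, e⟩⟩

/-- The constraints on the labels of one of the graphs inside a sum graph with label set `T`. -/
structure Core (K M : ℕ) (T : Set ℚ) (f g : ℕ → ℚ) : Prop where
  fin : T.Finite
  pos : ∀ t ∈ T, 0 < t
  fT : ∀ a, Ev K M a → f a ∈ T
  gT : ∀ i < 5, g i ∈ T
  finj : ∀ a b, Ev K M a → Ev K M b → f a = f b → a = b
  ginj : ∀ i < 5, ∀ j < 5, g i = g j → i = j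
  fg : ∀ a, Ev K M a → ∀ i < 5, f a ≠ g i
  EE : ∀ a b, Ev K M a → Ev K M b → a ≠ b → (f a + f b ∈ T ↔ a + b ≤ M ∧ a + b ≠ 30 * K + 9)
  EO : ∀ a, Ev K M a → ∀ i < 5, (g i + f a ∈ T ↔ a % 3 = 0 ∧ a + 3 * i ≤ 12)
  OO : ∀ i < 5, ∀ j < 5, i ≠ j → (g i + g j ∈ T ↔ i + j ≠ 2)
  Xf : ∀ t ∈ T, ¬ InA K M f t → (∀ i < 5, t ≠ g i) → ∀ a, Ev K M a → t + f a ∉ T
  Xg : ∀ t ∈ T, ¬ InA K M f t → (∀ i < 5, t ≠ g i) → ∀ i < 5, t + g i ∉ T

variable {K M : ℕ} {T : Set ℚ} {f g : ℕ → ℚ}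

theorem Core.nb (C : Core K M T f g) {t : ℚ} {a : ℕ} (ht : t ∈ T) (ha : Ev K M a)
    (h : t + f a ∈ T) (hne : t ≠ f a) :
    (∃ b, Ev K M b ∧ t = f b ∧ a + b ≤ M ∧ a + b ≠ 30 * K + 9) ∨
      ∃ i < 5, t = g i ∧ a % 3 = 0 ∧ a + 3 * i ≤ 12 := by
  by_cases h1 : InA K M f t
  · obtain ⟨b, hb, rfl⟩ := h1
    left
    refine ⟨b, hb, rfl, (C.EE a b ha hb fun e => hne (by rw [e])).1 (by rwa [add_comm])⟩
  · by_cases h2 : ∀ i < 5, t ≠ g i
    · exact absurd h (C.Xf t ht h1 h2 a ha)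
    · push Not at h2
      obtain ⟨i, hi, rfl⟩ := h2
      exact Or.inr ⟨i, hi, rfl, (C.EO a ha i hi).1 h⟩

theorem Core.nbA (C : Core K M T f g) {t : ℚ} {a : ℕ} (ht : t ∈ T) (ha : Ev K M a)
    (h : t + f a ∈ T) (hne : t ≠ f a) (h3 : 12 < a ∨ a % 3 ≠ 0) : InA K M f t := by
  rcases C.nb ht ha h hne with ⟨b, hb, e, _⟩ | ⟨i, _, _, h1, h2⟩
  · exact ⟨b, hb, e.symm⟩
  · omega

theorem Core.AT (C : Core K M T f g) {t : ℚ} (h : InA K M f t) : t ∈ T := by
  obtain ⟨c, hc, rfl⟩ := h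
  exact C.fT c hc

theorem top_bound (hexc : ∀ a, Ev K M a → (exc K M f a).card + 1 ≤ K) (a : ℕ) (ha : Ev K M a) :
    (tops (labA K M f) (f a)).card ≤ a + K := by
  classical
  have hsub : tops (labA K M f) (f a) ⊆
      (insert a (insert (30 * K + 9 - a) (Ioo (M - a) M ∪ exc K M f a))).image f := by
    intro y hy
    obtain ⟨h1, h2⟩ := mem_filter.1 hy
    obtain ⟨b, hb, rfl⟩ := mem_labA.1 h1
    refine mem_image.2 ⟨b, ?_, rfl⟩
    have hb' := hb
    obtain ⟨b1, b2, b3⟩ := hb'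
    simp only [mem_insert, mem_union, mem_Ioo]
    by_cases c1 : b = a
    · exact Or.inl c1
    by_cases c2 : a + b = 30 * K + 9
    · exact Or.inr (Or.inl (by omega))
    by_cases c3 : a + b ≤ M
    · refine Or.inr (Or.inr (Or.inr ?_))
      unfold exc
      refine mem_filter.2 ⟨mem_range.2 b2, hb, c1, c3, c2, fun h => h2 ?_⟩
      rw [add_comm]; exact mem_labA.2 h
    · exact Or.inr (Or.inr (Or.inl ⟨by omega, b2⟩))
  have h1 := card_le_card hsub
  have h2 := card_image_le (f := f)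
    (s := insert a (insert (30 * K + 9 - a) (Ioo (M - a) M ∪ exc K M f a)))
  have h3 := card_insert_le a (insert (30 * K + 9 - a) (Ioo (M - a) M ∪ exc K M f a))
  have h4 := card_insert_le (30 * K + 9 - a) (Ioo (M - a) M ∪ exc K M f a)
  have h5 := card_union_le (Ioo (M - a) M) (exc K M f a)
  have h6 := Nat.card_Ioo (M - a) M
  have h7 := hexc a ha
  obtain ⟨a1, a2, _⟩ := ha
  omega

theorem card_Ev (hM : 30 * K + 9 < M) : ((range M).filter (Ev K M)).card = M - 2 := by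
  have : (range M).filter (Ev K M) = (Ico 1 M).erase (30 * K + 9) := by
    ext a
    simp only [mem_filter, mem_range, Ev, mem_erase, mem_Ico]
    omega
  rw [this, card_erase_of_mem (by simp only [mem_Ico]; omega), Nat.card_Ico]
  omega

theorem Core.card_labA (C : Core K M T f g) (hM : 30 * K + 9 < M) :
    (labA K M f).card = M - 2 := by
  unfold labA
  rw [card_image_of_injOn, card_Ev hM]
  intro a ha b hb e
  exact C.finj a b (mem_filter.1 (mem_coe.1 ha)).2 (mem_filter.1 (mem_coe.1 hb)).2 e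

/-- The normalised situation: small vertices have small integer labels. -/
structure Norm (K M : ℕ) (T : Set ℚ) (f g : ℕ → ℚ) (p : ℕ → ℕ) (D : Finset ℕ) : Prop where
  C : Core K M T f g
  hexc : ∀ a, Ev K M a → (exc K M f a).card + 1 ≤ K
  hK : 20 ≤ K
  hM : 400 * K ≤ M
  hp : ∀ a, Ev K M a → a ≤ 200 * K → f a = p a ∧ p a ≤ a + K
  hD1 : D.card ≤ K + 1
  hD2 : ∀ x, 1 ≤ x → x ≤ 201 * K → x ∉ D → ∃ a, Ev K M a ∧ a ≤ 200 * K ∧ p a = x

theorem exists_D (C : Core K M T f g) (hK : 20 ≤ K) (hM : 400 * K ≤ M) (p : ℕ → ℕ)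
    (hp : ∀ a, Ev K M a → a ≤ 200 * K → f a = p a ∧ p a ≤ a + K) :
    ∃ D : Finset ℕ, D.card ≤ K + 1 ∧
      ∀ x, 1 ≤ x → x ≤ 201 * K → x ∉ D → ∃ a, Ev K M a ∧ a ≤ 200 * K ∧ p a = x := by
  have hE : ∀ a ∈ (Icc 1 (200 * K)).erase (30 * K + 9), Ev K M a ∧ a ≤ 200 * K := by
    intro a ha
    simp only [mem_erase, mem_Icc] at ha
    exact ⟨⟨by omega, by omega, by omega⟩, by omega⟩
  refine ⟨Icc 1 (201 * K) \ ((Icc 1 (200 * K)).erase (30 * K + 9)).image p, ?_, ?_⟩
  · rw [card_sdiff_of_subset, card_image_of_injOn,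
      card_erase_of_mem (by simp only [mem_Icc]; omega), Nat.card_Icc, Nat.card_Icc]
    · omega
    · intro a ha b hb e
      obtain ⟨a1, a2⟩ := hE a ha
      obtain ⟨b1, b2⟩ := hE b hb
      exact C.finj a b a1 b1 (by rw [(hp a a1 a2).1, (hp b b1 b2).1, e])
    · intro x hx
      obtain ⟨a, ha, rfl⟩ := mem_image.1 hx
      obtain ⟨a1, a2⟩ := hE a ha
      have h1 := hp a a1 a2
      have h2 := C.pos _ (C.fT a a1)
      rw [h1.1] at h2
      have : 0 < p a := by exact_mod_cast h2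
      exact mem_Icc.2 ⟨this, by omega⟩
  · intro x h1 h2 h3
    have : x ∈ ((Icc 1 (200 * K)).erase (30 * K + 9)).image p := by
      by_contra hc
      exact h3 (mem_sdiff.2 ⟨mem_Icc.2 ⟨h1, h2⟩, hc⟩)
    obtain ⟨a, ha, rfl⟩ := mem_image.1 this
    exact ⟨a, (hE a ha).1, (hE a ha).2, rfl⟩

variable {p : ℕ → ℕ} {D : Finset ℕ}

theorem Norm.ppos (N : Norm K M T f g p D) {a : ℕ} (ha : Ev K M a) (h : a ≤ 200 * K) :
    1 ≤ p a := by
  have h2 := N.C.pos _ (N.C.fT a ha)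
  rw [(N.hp a ha h).1] at h2
  exact_mod_cast h2

theorem Norm.pinj (N : Norm K M T f g p D) {a b : ℕ} (ha : Ev K M a) (h : a ≤ 200 * K)
    (hb : Ev K M b) (h' : b ≤ 200 * K) (e : p a = p b) : a = b :=
  N.C.finj a b ha hb (by rw [(N.hp a ha h).1, (N.hp b hb h').1, e])

/-- A vertex whose label is a natural number larger than `c + K` has index larger than `c`. -/
theorem Norm.idx (N : Norm K M T f g p D) {a x c : ℕ} (ha : Ev K M a) (e : f a = x)
    (hc : c ≤ 200 * K) (hx : c + K < x) : c < a := by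
  by_contra h
  have h1 := N.hp a ha (by omega)
  rw [e] at h1
  have : x = p a := by exact_mod_cast h1.1
  omega

theorem Norm.B1 (N : Norm K M T f g p D) {x : ℕ} (h2 : x ≤ 198 * K) (hx : (x : ℚ) ∈ T) :
    InA K M f x := by
  have hK := N.hK
  obtain ⟨y, hy, hy'⟩ := exists_mem_notMem_of_card_lt_card
    (s := insert x (D ∪ (D.image fun d => d - x) ∪ (Icc 1 12).image p)) (t := Icc 1 (2 * K + 16))
    (by
      have a1 := card_insert_le x (D ∪ (D.image fun d => d - x) ∪ (Icc 1 12).image p)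
      have a2 := card_union_le (D ∪ (D.image fun d => d - x)) ((Icc 1 12).image p)
      have a3 := card_union_le D (D.image fun d => d - x)
      have a4 := card_image_le (s := D) (f := fun d => d - x)
      have a5 := card_image_le (s := Icc 1 12) (f := p)
      have a6 := N.hD1
      rw [Nat.card_Icc] at a5 ⊢
      omega)
  simp only [mem_insert, mem_union, mem_image, mem_Icc, not_or, not_exists, not_and] at hy hy'
  obtain ⟨c1, ⟨c2, c3⟩, c4⟩ := hy'
  obtain ⟨a, ha, ha2, rfl⟩ := N.hD2 y hy.1 (by omega) c2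
  obtain ⟨b, hb, hb2, e⟩ := N.hD2 (x + p a) (by omega) (by omega)
    (fun h => c3 _ h (by omega))
  have h12 : 12 < a := by
    by_contra h
    exact c4 a ⟨ha.1, by omega⟩ rfl
  refine N.C.nbA hx ha ?_ ?_ (Or.inl h12)
  · have := N.C.fT b hb
    rw [(N.hp b hb hb2).1, e] at this
    rw [(N.hp a ha ha2).1]
    exact_mod_cast this
  · rw [(N.hp a ha ha2).1]
    intro h
    exact c1 (by exact_mod_cast h.symm)

theorem Norm.B2 (N : Norm K M T f g p D) {x x' : ℕ} (h1 : 7 * K ≤ x) (h2 : x ≤ 200 * K)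
    (h1' : 7 * K ≤ x') (h2' : x' ≤ 200 * K) (hx : (x : ℚ) ∉ T) (hx' : (x' : ℚ) ∉ T) : x = x' := by
  have hK := N.hK
  have hM := N.hM
  obtain ⟨y, hy, hy'⟩ := exists_mem_notMem_of_card_lt_card
    (s := D ∪ (D.image fun d => x - d) ∪ (D.image fun d => x' - d)) (t := Icc 1 (3 * K + 4))
    (by
      have a2 := card_union_le (D ∪ (D.image fun d => x - d)) (D.image fun d => x' - d)
      have a3 := card_union_le D (D.image fun d => x - d)
      have a4 := card_image_le (s := D) (f := fun d => x - d)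
      have a5 := card_image_le (s := D) (f := fun d => x' - d)
      have a6 := N.hD1
      rw [Nat.card_Icc]
      omega)
  simp only [mem_union, mem_image, mem_Icc, not_or, not_exists, not_and] at hy hy'
  obtain ⟨⟨c2, c3⟩, c4⟩ := hy'
  obtain ⟨a, ha, ha2, rfl⟩ := N.hD2 y hy.1 (by omega) c2
  have key : ∀ z : ℕ, 7 * K ≤ z → z ≤ 200 * K → (z : ℚ) ∉ T → (∀ d ∈ D, ¬z - d = p a) →
      ∃ b, Ev K M b ∧ b ≤ 200 * K ∧ p a + p b = z ∧ a + b = 30 * K + 9 := by
    intro z z1 z2 z3 z4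
    obtain ⟨b, hb, hb2, e⟩ := N.hD2 (z - p a) (by omega) (by omega)
      (fun h => z4 _ h (by omega))
    refine ⟨b, hb, hb2, by omega, ?_⟩
    have hab : a ≠ b := by
      rintro rfl
      omega
    by_contra hc
    apply z3
    have := (N.C.EE a b ha hb hab).2 ⟨by omega, hc⟩
    rw [(N.hp a ha ha2).1, (N.hp b hb hb2).1] at this
    have e2 : z = p a + p b := by omega
    rw [e2]
    exact_mod_cast this
  obtain ⟨b, _, _, e1, e2⟩ := key x h1 h2 hx c3
  obtain ⟨b', _, _, e1', e2'⟩ := key x' h1' h2' hx' c4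
  have : b = b' := by omega
  subst this
  omega

theorem Norm.pair (N : Norm K M T f g p D) {a : ℕ} (h1 : 1 ≤ a) (h2 : a < 30 * K + 9) :
    ((p a + p (30 * K + 9 - a) : ℕ) : ℚ) ∉ T := by
  have hK := N.hK
  have hM := N.hM
  have ha : Ev K M a := ⟨h1, by omega, by omega⟩
  have hb : Ev K M (30 * K + 9 - a) := ⟨by omega, by omega, by omega⟩
  intro h
  have := (N.C.EE a _ ha hb (by omega)).1
    (by rw [(N.hp a ha (by omega)).1, (N.hp _ hb (by omega)).1]; exact_mod_cast h)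
  omega

theorem Norm.B3 (N : Norm K M T f g p D) {x : ℕ} (h1 : 33 * K ≤ x) (h2 : x ≤ 198 * K) :
    InA K M f x := by
  have hK := N.hK
  have hM := N.hM
  obtain ⟨y, hy, hy'⟩ := exists_mem_notMem_of_card_lt_card
    (s := range (7 * K)) (t := (Ico 1 (30 * K + 9)).image p)
    (by
      rw [card_image_of_injOn, card_range, Nat.card_Ico]
      · omega
      · intro a ha b hb e
        simp only [coe_Ico, Set.mem_Ico] at ha hb
        exact N.pinj ⟨by omega, by omega, by omega⟩ (by omega) ⟨by omega, by omega, by omega⟩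
          (by omega) e)
  obtain ⟨a, ha, rfl⟩ := mem_image.1 hy
  obtain ⟨a1, a2⟩ := mem_Ico.1 ha
  have b1 := (N.hp a ⟨by omega, by omega, by omega⟩ (by omega)).2
  have b2 := (N.hp (30 * K + 9 - a) ⟨by omega, by omega, by omega⟩ (by omega)).2
  simp only [mem_range] at hy'
  apply N.B1 h2
  by_contra hc
  have := N.B2 (x := x) (x' := p a + p (30 * K + 9 - a)) (by omega) (by omega) (by omega)
    (by omega) hc (N.pair a1 a2)
  omega

end Pool.Agent.H646Z.SumG
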