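import Mathlib

/-!
Sum graphs and the sum number.
-/

namespace Pool.Agent.H646Z.SumG

/-- A graph is a sum graph if its vertices carry distinct positive integer labels such that two
distinct vertices are adjacent exactly when the sum of their labels is the label of a vertex. -/
def IsSumGraph {V : Type} (H : SimpleGraph V) : Prop :=
  ∃ l : V → ℕ, Function.Injective l ∧ (∀ v, 0 < l v) ∧
    ∀ u v, u ≠ v → (H.Adj u v ↔ ∃ w, l u + l v = l w)

/-- The disjoint union of `G` with `r` isolated vertices. -/
def addIsolated {V : Type} (G : SimpleGraph V) (r : ℕ) : SimpleGraph (V ⊕ Fin r) :=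
  G.sum (⊥ : SimpleGraph (Fin r))

/-- `r` is the sum number of `G`: the least number of isolated vertices whose addition makes `G`
a sum graph. -/
def HasSumNumber {V : Type} (G : SimpleGraph V) (r : ℕ) : Prop :=
  IsLeast {k : ℕ | IsSumGraph (addIsolated G k)} r

end Pool.Agent.H646Z.SumG
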