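import Mathlib
import Pool.Agent.H646Z.SumCore

/-!
Rigidity of a threshold graph with one hole inside a sum graph: the upper end and the order.
-/

namespace Pool.Agent.H646Z.SumG

open Finset

variable {K M : ℕ} {T : Set ℚ} {f g : ℕ → ℚ} {p : ℕ → ℕ} {D : Finset ℕ} {Y Z : ℕ}

theorem exists_nat_notMem (hT : T.Finite) (n : ℕ) : ∃ x : ℕ, n ≤ x ∧ (x : ℚ) ∉ T := by
  have h1 : ((fun x : ℕ => (x : ℚ)) ⁻¹' T).Finite := hT.preimage Nat.cast_injective.injOn
  obtain ⟨x, hx, hx'⟩ := (Set.Ici_infinite n).exists_notMem_finite h1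
  exact ⟨x, hx, hx'⟩

/-- `Y` is the first integer above the hole region that is not an even label. -/
structure NormY (K M : ℕ) (T : Set ℚ) (f g : ℕ → ℚ) (p : ℕ → ℕ) (D : Finset ℕ) (Y : ℕ) :
    Prop extends Norm K M T f g p D where
  hY0 : 198 * K < Y
  hY1 : ∀ x, 33 * K ≤ x → x < Y → InA K M f x
  hY2 : ¬ InA K M f Y

theorem Norm.exY (N : Norm K M T f g p D) : ∃ Y, NormY K M T f g p D Y := by
  classical
  have h : ∃ x : ℕ, 33 * K ≤ x ∧ ¬ InA K M f x := by
    obtain ⟨x, h1, h2⟩ := exists_nat_notMem N.C.fin (33 * K)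
    exact ⟨x, h1, fun h => h2 (N.C.AT h)⟩
  refine ⟨Nat.find h, N, ?_, ?_, (Nat.find_spec h).2⟩
  · by_contra hc
    exact (Nat.find_spec h).2 (N.B3 (Nat.find_spec h).1 (by omega))
  · intro x h1 h2
    by_contra hc
    exact Nat.find_min h h2 ⟨h1, hc⟩

theorem NormY.B5 (N : NormY K M T f g p D Y) : (Y : ℚ) ∈ T := by
  have hK := N.hK
  have hM := N.hM
  have hY := N.hY0
  have h1 : Ev K M 1 := ⟨by omega, by omega, by omega⟩
  have p1 := N.hp 1 h1 (by omega)
  have p0 := N.ppos h1 (by omega)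
  obtain ⟨v, hv, e⟩ := N.hY1 (Y - p 1) (by omega) (by omega)
  have := N.idx hv e (c := 31 * K) (by omega) (by omega)
  have h2 := (N.C.EE 1 v h1 hv (by omega)).2 ⟨by have := hv.2.1; omega, by omega⟩
  rw [p1.1, e] at h2
  have e2 : Y = p 1 + (Y - p 1) := by omega
  rw [e2]
  exact_mod_cast h2

theorem NormY.B6 (N : NormY K M T f g p D Y) {u : ℕ} (h1 : 1 ≤ u) (h2 : u ≤ 198 * K)
    (h3 : u ∉ D) (h4 : u ∉ (Icc 1 12).image p) : ((Y + u : ℕ) : ℚ) ∉ T := by
  have hY := N.hY0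
  obtain ⟨a, ha, ha2, rfl⟩ := N.hD2 u h1 (by omega) h3
  have h12 : 12 < a := by
    by_contra h
    exact h4 (mem_image.2 ⟨a, mem_Icc.2 ⟨ha.1, by omega⟩, rfl⟩)
  intro h
  refine N.hY2 (N.C.nbA N.B5 ha ?_ ?_ (Or.inl h12))
  · rw [(N.hp a ha ha2).1]
    exact_mod_cast h
  · rw [(N.hp a ha ha2).1]
    intro e
    have : Y = p a := by exact_mod_cast e
    omega

theorem NormY.B7 (N : NormY K M T f g p D Y) {a : ℕ} (ha : Ev K M a) (h : a + 4 * K ≤ M) :
    ∃ x : ℕ, f a = x ∧ x < Y := by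
  classical
  have hK := N.hK
  have hM := N.hM
  have hY := N.hY0
  by_contra hst
  have hE : ∀ j ∈ Icc 1 (4 * K), Ev K M j ∧ j ≤ 200 * K := by
    intro j hj
    obtain ⟨a1, a2⟩ := mem_Icc.1 hj
    exact ⟨⟨by omega, by omega, by omega⟩, by omega⟩
  have hinj : ∀ j ∈ Icc 1 (4 * K), ∀ j' ∈ Icc 1 (4 * K), p j = p j' → j = j' :=
    fun j hj j' hj' e => N.pinj (hE j hj).1 (hE j hj).2 (hE j' hj').1 (hE j' hj').2 e
  obtain ⟨j0, hj0, hmax⟩ := exists_max_image (Icc 1 (4 * K)) p ⟨1, mem_Icc.2 ⟨le_rfl, by omega⟩⟩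
  have hP1 : 4 * K ≤ p j0 := by
    have := card_le_card_of_injOn (s := Icc 1 (4 * K)) (t := Icc 1 (p j0)) p
      (fun j hj => mem_coe.2 (mem_Icc.2 ⟨N.ppos (hE j hj).1 (hE j hj).2, hmax j hj⟩))
      (fun j hj j' hj' e => hinj j hj j' hj' e)
    simpa using this
  have hP2 := N.hp j0 (hE j0 hj0).1 (hE j0 hj0).2
  have hj04 := (mem_Icc.1 hj0).2
  let R : ℚ → Prop := fun y => 0 < y ∧ ¬ ∃ x : ℕ, y = x ∧ x < Y
  have hRadd : ∀ y (m : ℕ), R y → R (y + m) := by
    rintro y m ⟨y1, y2⟩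
    refine ⟨by positivity, ?_⟩
    rintro ⟨x, e, hx⟩
    have : m < x := by
      have : (m : ℚ) < x := by linarith
      exact_mod_cast this
    refine y2 ⟨x - m, ?_, by omega⟩
    rw [Nat.cast_sub this.le]
    linarith
  have hfa : R (f a) := ⟨N.C.pos _ (N.C.fT a ha), hst⟩
  have q1 := card_le_tops_region (labA K M f) (p j0) (by exact_mod_cast (by omega : 0 < p j0)) R
    (fun y hy => hRadd y _ hy)
    ((Icc 1 (4 * K) \ insert a (insert (30 * K + 9 - a) (exc K M f a))).image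
      fun j => f a + p j) ?_ ?_ ?_
  rotate_left
  · intro y hy
    obtain ⟨j, hj, rfl⟩ := mem_image.1 hy
    obtain ⟨j1, j2⟩ := mem_sdiff.1 hj
    simp only [mem_insert, not_or] at j2
    obtain ⟨j2, j3, j4⟩ := j2
    rw [mem_labA, ← (N.hp j (hE j j1).1 (hE j j1).2).1]
    by_contra hc
    apply j4
    have := mem_Icc.1 j1
    unfold exc
    exact mem_filter.2 ⟨mem_range.2 (by omega), (hE j j1).1, j2, by omega, by omega, hc⟩
  · intro y hy
    obtain ⟨j, _, rfl⟩ := mem_image.1 hy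
    exact hRadd _ _ hfa
  · intro y hy y' hy' _
    obtain ⟨j, hj, rfl⟩ := mem_image.1 hy
    obtain ⟨j', hj', rfl⟩ := mem_image.1 hy'
    have j1 := (mem_sdiff.1 hj).1
    have c1 : (1 : ℚ) ≤ p j := by exact_mod_cast N.ppos (hE j j1).1 (hE j j1).2
    have c2 : (p j' : ℚ) ≤ p j0 := by exact_mod_cast hmax j' (mem_sdiff.1 hj').1
    linarith
  rw [card_image_of_injOn] at q1
  swap
  · intro j hj j' hj' e
    refine hinj j (mem_sdiff.1 (mem_coe.1 hj)).1 j' (mem_sdiff.1 (mem_coe.1 hj')).1 ?_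
    have : (p j : ℚ) = p j' := by simpa using e
    exact_mod_cast this
  have q2 := le_card_sdiff (insert a (insert (30 * K + 9 - a) (exc K M f a))) (Icc 1 (4 * K))
  have q3 := card_insert_le a (insert (30 * K + 9 - a) (exc K M f a))
  have q4 := card_insert_le (30 * K + 9 - a) (exc K M f a)
  have q5 := N.hexc a ha
  rw [Nat.card_Icc] at q2
  have r1 : (range (p j0) \ (D ∪ (Icc 1 12).image p)).card ≤
      ((tops (labA K M f) (p j0)).filter fun y => ¬ R y).card := by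
    refine card_le_card_of_injOn (fun u => ((Y + u - p j0 : ℕ) : ℚ)) ?_ ?_
    · intro u hu
      obtain ⟨u1, u2⟩ := mem_sdiff.1 (mem_coe.1 hu)
      have u1 := mem_range.1 u1
      simp only [mem_union, not_or] at u2
      refine mem_coe.2 (mem_filter.2 ⟨mem_filter.2 ⟨?_, ?_⟩, ?_⟩)
      · exact mem_labA.2 (N.hY1 _ (by omega) (by omega))
      · rw [mem_labA]
        have e : ((Y + u - p j0 : ℕ) : ℚ) + p j0 = ((Y + u : ℕ) : ℚ) := by
          rw [← Nat.cast_add]; congr 1; omega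
        rw [e]
        rcases Nat.eq_zero_or_pos u with rfl | hu0
        · exact N.hY2
        · exact fun h => N.B6 hu0 (by omega) u2.1 u2.2 (N.C.AT h)
      · exact fun h => h.2 ⟨_, rfl, by omega⟩
    · intro u hu v hv e
      have : Y + u - p j0 = Y + v - p j0 := Nat.cast_injective (R := ℚ) e
      omega
  have r2 := le_card_sdiff (D ∪ (Icc 1 12).image p) (range (p j0))
  have r3 := card_union_le D ((Icc 1 12).image p)
  have r4 := card_image_le (s := Icc 1 12) (f := p)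
  have r5 := N.hD1
  rw [card_range] at r2
  rw [Nat.card_Icc] at r4
  have t1 := card_filter_add_card_filter_not (s := tops (labA K M f) (p j0)) R
  have t2 := top_bound N.hexc j0 (hE j0 hj0).1
  rw [hP2.1] at t2
  omega

/-- `Z` is the end of the interval of integers of `T` that contains `Y`. -/
structure NormZ (K M : ℕ) (T : Set ℚ) (f g : ℕ → ℚ) (p : ℕ → ℕ) (D : Finset ℕ) (Y Z : ℕ) :
    Prop extends NormY K M T f g p D Y where
  hZ : ∀ x : ℕ, 33 * K ≤ x → x ≤ Y + 33 * K → ((x : ℚ) ∈ T ↔ x ≤ Z)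

theorem NormY.exZ (N : NormY K M T f g p D Y) : ∃ Z, NormZ K M T f g p D Y Z := by
  classical
  have hK := N.hK
  have hM := N.hM
  have hY := N.hY0
  have h : ∃ x : ℕ, Y ≤ x ∧ ((x + 1 : ℕ) : ℚ) ∉ T := by
    obtain ⟨x, h1, h2⟩ := exists_nat_notMem N.C.fin (Y + 1)
    exact ⟨x - 1, by omega, by rwa [show x - 1 + 1 = x by omega]⟩
  obtain ⟨z1, z2⟩ := Nat.find_spec h
  have z3 : ∀ x : ℕ, 33 * K ≤ x → x ≤ Nat.find h → (x : ℚ) ∈ T := by
    intro x x1 x2
    rcases lt_trichotomy x Y with c | c | c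
    · exact N.C.AT (N.hY1 x x1 c)
    · rw [c]; exact N.B5
    · by_contra hc
      exact Nat.find_min h (m := x - 1) (by omega)
        ⟨by omega, by rwa [show x - 1 + 1 = x by omega]⟩
  set Z := Nat.find h with hZ
  refine ⟨Z, N, fun x x1 x2 => ⟨?_, z3 x x1⟩⟩
  induction x using Nat.strong_induction_on with
  | _ t ih =>
    intro ht
    by_contra hc
    have t1 : t ≠ Z + 1 := fun e => z2 (e ▸ ht)
    have t2 : ((t - 1 : ℕ) : ℚ) ∉ T := fun h' => by
      have := ih (t - 1) (by omega) (by omega) (by omega) h'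
      omega
    obtain ⟨a, ha, ea⟩ := N.hY1 (66 * K) (by omega) (by omega)
    obtain ⟨a', ha', ea'⟩ := N.hY1 (66 * K + (t - Z - 1)) (by omega) (by omega)
    obtain ⟨b, hb, eb⟩ := N.hY1 (Z - 66 * K) (by omega) (by omega)
    obtain ⟨b', hb', eb'⟩ := N.hY1 (Z + 1 - 66 * K) (by omega) (by omega)
    have ib := N.idx hb eb (c := 31 * K) (by omega) (by omega)
    have ib' := N.idx hb' eb' (c := 31 * K) (by omega) (by omega)
    have ne : ∀ (u v x y : ℕ), f u = x → f v = y → x ≠ y → u ≠ v := by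
      rintro u v x y e1 e2 hne rfl
      exact hne (by rw [e1] at e2; exact_mod_cast e2)
    have s1 := (N.C.EE a b ha hb (ne _ _ _ _ ea eb (by omega))).1 (by
      rw [ea, eb, ← Nat.cast_add]
      exact z3 _ (by omega) (by omega))
    have s2 := (N.C.EE a' b' ha' hb' (ne _ _ _ _ ea' eb' (by omega))).1 (by
      rw [ea', eb', ← Nat.cast_add, show 66 * K + (t - Z - 1) + (Z + 1 - 66 * K) = t by omega]
      exact ht)
    have s3 := mt (N.C.EE a b' ha hb' (ne _ _ _ _ ea eb' (by omega))).2 (by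
      rw [ea, eb', ← Nat.cast_add, show 66 * K + (Z + 1 - 66 * K) = Z + 1 by omega]
      exact z2)
    have s4 := mt (N.C.EE a' b ha' hb (ne _ _ _ _ ea' eb (by omega))).2 (by
      rw [ea', eb, ← Nat.cast_add, show 66 * K + (t - Z - 1) + (Z - 66 * K) = t - 1 by omega]
      exact t2)
    omega

theorem NormZ.thr (N : NormZ K M T f g p D Y Z) {a b x w : ℕ} (ha : Ev K M a) (hb : Ev K M b)
    (ea : f a = x) (eb : f b = w) (hx : x ≤ 33 * K) (w1 : 33 * K < w) (w2 : w < Y) :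
    a + b ≤ M ↔ x + w ≤ Z := by
  have hK := N.hK
  have ib := N.idx hb eb (c := 31 * K) (by omega) (by omega)
  have hne : a ≠ b := by
    rintro rfl
    rw [ea] at eb
    have : x = w := by exact_mod_cast eb
    omega
  have h1 := N.C.EE a b ha hb hne
  rw [ea, eb, ← Nat.cast_add, N.hZ _ (by omega) (by omega)] at h1
  omega

theorem NormZ.B10 (N : NormZ K M T f g p D Y Z) {a : ℕ} (a1 : 4 * K ≤ a) (a2 : a ≤ 31 * K) :
    Ev K M (M - a) ∧ ∃ w : ℕ, f (M - a) = w ∧ 33 * K < w ∧ w < Y := by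
  have hK := N.hK
  have hM := N.hM
  have hY := N.hY0
  have hb : Ev K M (M - a) := ⟨by omega, by omega, by omega⟩
  obtain ⟨w, e, hw⟩ := N.B7 hb (by omega)
  refine ⟨hb, w, e, ?_, hw⟩
  by_contra hc
  obtain ⟨c, hc', ec⟩ := N.hY1 (66 * K) (by omega) (by omega)
  have ic := N.idx hc' ec (c := 31 * K) (by omega) (by omega)
  have hZ := (N.hZ Y (by omega) (by omega)).1 N.B5
  have := (N.thr hb hc' e ec (by omega) (by omega) (by omega)).2 (by omega)
  omega

theorem NormZ.ord (N : NormZ K M T f g p D Y Z) {a c x y : ℕ} (ha : Ev K M a) (hc : Ev K M c)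
    (ea : f a = x) (ec : f c = y) (hx : x ≤ 33 * K) (hy : y ≤ 33 * K) (a1 : 4 * K ≤ a)
    (a2 : a ≤ 31 * K) (hac : a < c) : x < y := by
  have hM := N.hM
  obtain ⟨hb, w, e, w1, w2⟩ := N.B10 a1 a2
  have h1 := N.thr ha hb ea e hx w1 w2
  have h2 := N.thr hc hb ec e hy w1 w2
  omega

theorem NormZ.gap (N : NormZ K M T f g p D Y Z) : p (30 * K + 8) + 2 ≤ p (30 * K + 10) := by
  have hK := N.hK
  have hM := N.hM
  obtain ⟨hb, w, e, w1, w2⟩ := N.B10 (a := 30 * K + 8) (by omega) (by omega)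
  obtain ⟨hb', w', e', w1', w2'⟩ := N.B10 (a := 30 * K + 9) (by omega) (by omega)
  have ha : Ev K M (30 * K + 8) := ⟨by omega, by omega, by omega⟩
  have hc : Ev K M (30 * K + 10) := ⟨by omega, by omega, by omega⟩
  have pa := N.hp _ ha (by omega)
  have pc := N.hp _ hc (by omega)
  have h1 := N.thr ha hb pa.1 e (by omega) w1 w2
  have h2 := N.thr hc hb pc.1 e (by omega) w1 w2
  have h3 := N.thr ha hb' pa.1 e' (by omega) w1' w2'
  have h4 := N.thr hc hb' pc.1 e' (by omega) w1' w2'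
  have hne : w ≠ w' := by
    rintro rfl
    have := N.C.finj _ _ hb hb' (by rw [e, e'])
    omega
  omega

end Pool.Agent.H646Z.SumG
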