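import Mathlib
import Pool.Agent.H646Z.SumTopEnd

/-!
Rigidity of a threshold graph with one hole inside a sum graph: the exact labels.
-/

namespace Pool.Agent.H646Z.SumG

open Finset

variable {K M : ℕ} {T : Set ℚ} {f g : ℕ → ℚ} {p : ℕ → ℕ} {D : Finset ℕ} {Y Z : ℕ}

theorem NormZ.ev (N : NormZ K M T f g p D Y Z) {a : ℕ} (a1 : 1 ≤ a) (a2 : a ≤ 30 * K + 8) :
    Ev K M a ∧ f a = p a ∧ p a ≤ a + K := by
  have hM := N.hM
  have hK := N.hK
  have ha : Ev K M a := ⟨by omega, by omega, by omega⟩
  exact ⟨ha, N.hp a ha (by omega)⟩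

theorem NormZ.low (N : NormZ K M T f g p D Y Z) (a : ℕ) (a1 : 4 * K ≤ a) (a2 : a ≤ 30 * K + 8) :
    a + 1 ≤ p a + 4 * K := by
  have hK := N.hK
  induction a, a1 using Nat.le_induction with
  | base =>
    have := N.ppos (N.ev (a := 4 * K) (by omega) a2).1 (by omega)
    omega
  | succ a a1 ih =>
    obtain ⟨h1, h2, h3⟩ := N.ev (a := a) (by omega) (by omega)
    obtain ⟨g1, g2, g3⟩ := N.ev (a := a + 1) (by omega) (by omega)
    have := N.ord h1 g1 h2 g2 (by omega) (by omega) a1 (by omega) (by omega)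
    have := ih (by omega)
    omega

theorem NormZ.hole (N : NormZ K M T f g p D Y Z) : ((p (30 * K + 8) + 1 : ℕ) : ℚ) ∉ T := by
  have hK := N.hK
  have hM := N.hM
  obtain ⟨h1, h2, h3⟩ := N.ev (a := 30 * K + 8) (by omega) (by omega)
  have hc : Ev K M (30 * K + 10) := ⟨by omega, by omega, by omega⟩
  have pc := N.hp _ hc (by omega)
  have hg := N.gap
  have hl := N.low (30 * K + 8) (by omega) (by omega)
  intro h
  obtain ⟨c, hc', e⟩ := N.B1 (by omega) h
  have ic := N.idx hc' e (c := 4 * K) (by omega) (by omega)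
  have c3 := hc'.2.2
  rcases lt_trichotomy c (30 * K + 8) with q | q | q
  · have := N.ord hc' h1 e h2 (by omega) (by omega) (by omega) (by omega) q
    omega
  · subst q
    rw [h2] at e
    have : p (30 * K + 8) = p (30 * K + 8) + 1 := by exact_mod_cast e
    omega
  · rcases (show c = 30 * K + 10 ∨ 30 * K + 10 < c by omega) with q | q
    · subst q
      rw [pc.1] at e
      have : p (30 * K + 10) = p (30 * K + 8) + 1 := by exact_mod_cast e
      omega
    · have := N.ord hc hc' pc.1 e (by omega) (by omega) (by omega) (by omega) q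
      omega

theorem NormZ.sums (N : NormZ K M T f g p D Y Z) {a : ℕ} (a1 : 1 ≤ a) (a2 : a ≤ 30 * K + 8) :
    p a + p (30 * K + 9 - a) = p (30 * K + 8) + 1 := by
  have hK := N.hK
  obtain ⟨_, _, h3⟩ := N.ev (a := 30 * K + 8) (by omega) (by omega)
  obtain ⟨_, _, h4⟩ := N.ev a1 a2
  obtain ⟨_, _, h5⟩ := N.ev (a := 30 * K + 9 - a) (by omega) (by omega)
  have hl := N.low (30 * K + 8) (by omega) (by omega)
  have : 7 * K ≤ p a + p (30 * K + 9 - a) := by
    rcases le_or_gt (15 * K) a with q | q
    · have := N.low a (by omega) a2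
      omega
    · have := N.low (30 * K + 9 - a) (by omega) (by omega)
      omega
  exact N.B2 this (by omega) (by omega) (by omega) (N.pair a1 (by omega)) N.hole

theorem NormZ.mono (N : NormZ K M T f g p D Y Z) {a c : ℕ} (a1 : 1 ≤ a) (hac : a < c)
    (c2 : c ≤ 30 * K + 8) : p a < p c := by
  have hK := N.hK
  have step : ∀ b, 1 ≤ b → b + 1 ≤ 30 * K + 8 → p b < p (b + 1) := by
    have big : ∀ b, 4 * K ≤ b → b + 1 ≤ 30 * K + 8 → p b < p (b + 1) := by
      intro b b1 b2
      obtain ⟨h1, h2, h3⟩ := N.ev (a := b) (by omega) (by omega)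
      obtain ⟨g1, g2, g3⟩ := N.ev (a := b + 1) (by omega) (by omega)
      exact N.ord h1 g1 h2 g2 (by omega) (by omega) b1 (by omega) (by omega)
    intro b b1 b2
    rcases le_or_gt (4 * K) b with q | q
    · exact big b q b2
    · have s1 := N.sums (a := b) b1 (by omega)
      have s2 := N.sums (a := b + 1) (by omega) b2
      have := big (30 * K + 9 - (b + 1)) (by omega) (by omega)
      rw [show 30 * K + 9 - (b + 1) + 1 = 30 * K + 9 - b by omega] at this
      omega
  induction c, hac using Nat.le_induction with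
  | base => exact step a a1 c2
  | succ c hc ih => exact (ih (by omega)).trans (step c (by omega) c2)

theorem NormZ.surj (N : NormZ K M T f g p D Y Z) {x : ℕ} (x1 : 1 ≤ x) (x2 : x ≤ p (30 * K + 8)) :
    ∃ a, 1 ≤ a ∧ a ≤ 30 * K + 8 ∧ p a = x := by
  have hK := N.hK
  obtain ⟨h1, h2, h3⟩ := N.ev (a := 30 * K + 8) (by omega) (by omega)
  have hl := N.low (30 * K + 8) (by omega) (by omega)
  have big : ∀ y, 7 * K ≤ y → y ≤ p (30 * K + 8) → ∃ a, 1 ≤ a ∧ a ≤ 30 * K + 8 ∧ p a = y := by
    intro y y1 y2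
    have hT : (y : ℚ) ∈ T := by
      by_contra hc
      have := N.B2 y1 (by omega) (by omega) (by omega) hc N.hole
      omega
    obtain ⟨c, hc, e⟩ := N.B1 (by omega) hT
    have c2 : c ≤ 30 * K + 8 := by
      by_contra q
      have := N.ord h1 hc h2 e (by omega) (by omega) (by omega) (by omega) (by omega)
      omega
    refine ⟨c, hc.1, c2, ?_⟩
    rw [(N.ev hc.1 c2).2.1] at e
    exact_mod_cast e
  rcases le_or_gt (7 * K) x with q | q
  · exact big x q x2
  · obtain ⟨a, a1, a2, e⟩ := big (p (30 * K + 8) + 1 - x) (by omega) (by omega)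
    have := N.sums a1 a2
    exact ⟨30 * K + 9 - a, by omega, by omega, by omega⟩

theorem NormZ.ident (N : NormZ K M T f g p D Y Z) (a : ℕ) (a1 : 1 ≤ a) (a2 : a ≤ 30 * K + 8) :
    p a = a := by
  have hK := N.hK
  induction a, a1 using Nat.le_induction with
  | base =>
    have := N.sums (a := 1) le_rfl (by omega)
    rw [show 30 * K + 9 - 1 = 30 * K + 8 by omega] at this
    omega
  | succ a a1 ih =>
    have ih := ih (by omega)
    have m1 : p a < p (a + 1) := N.mono a1 (by omega) a2
    have m2 : p (a + 1) ≤ p (30 * K + 8) := by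
      rcases a2.eq_or_lt with q | q
      · rw [q]
      · exact (N.mono (by omega) q le_rfl).le
    obtain ⟨c, c1, c2, e⟩ := N.surj (x := a + 1) (by omega) (by omega)
    rcases lt_trichotomy c (a + 1) with q | q | q
    · rcases (show c = a ∨ c < a by omega) with q | q
      · subst q; omega
      · have := N.mono c1 q (by omega)
        omega
    · rw [← q, e, q]
    · have := N.mono (a := a + 1) (by omega) q c2
      omega

/-- The exact labels of the even vertices. -/
structure Exact (K M : ℕ) (T : Set ℚ) (f : ℕ → ℚ) : Prop where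
  small : ∀ a, 1 ≤ a → a ≤ 30 * K + 8 → f a = a
  lab : ∀ y, InA K M f y ↔ ∃ x : ℕ, Ev K M x ∧ y = x
  slot : (M : ℚ) ∈ T
  hole : ((30 * K + 9 : ℕ) : ℚ) ∉ T

theorem NormZ.exact (N : NormZ K M T f g p D Y Z) : Exact K M T f := by
  classical
  have hK := N.hK
  have hM := N.hM
  have hY := N.hY0
  have small : ∀ a, 1 ≤ a → a ≤ 30 * K + 8 → f a = a := fun a a1 a2 => by
    rw [(N.ev a1 a2).2.1, N.ident a a1 a2]
  have hole : ((30 * K + 9 : ℕ) : ℚ) ∉ T := by
    have := N.hole
    rwa [N.ident _ (by omega) le_rfl] at this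
  have full : ∀ x : ℕ, 1 ≤ x → x < Y → x ≠ 30 * K + 9 → InA K M f x := by
    intro x x1 x2 x3
    rcases le_or_gt x (30 * K + 8) with q | q
    · exact ⟨x, (N.ev x1 q).1, small x x1 q⟩
    rcases le_or_gt (33 * K) x with q' | q'
    · exact N.hY1 x q' x2
    apply N.B1 (by omega)
    by_contra hc
    exact x3 (N.B2 (by omega) (by omega) (by omega) (by omega) hc hole)
  have e1 : Ev K M 1 := ⟨by omega, by omega, by omega⟩
  have e2 : Ev K M 2 := ⟨by omega, by omega, by omega⟩
  have f1 : f 1 = 1 := by simpa using small 1 le_rfl (by omega)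
  have f2 : f 2 = 2 := by simpa using small 2 (by omega) (by omega)
  have succ : ∀ v, Ev K M v → 30 * K + 8 < v → v + 1 ≠ M → InA K M f (f v + 1) := by
    intro v hv v1 v2
    have v3 := hv.2.1
    have s1 := (N.C.EE v 1 hv e1 (by omega)).2 ⟨by omega, by omega⟩
    have s2 := (N.C.EE v 2 hv e2 (by omega)).2 ⟨by omega, by omega⟩
    rw [f1] at s1
    rw [f2] at s2
    refine N.C.nbA s1 e1 ?_ ?_ (Or.inr (by omega))
    · rw [f1, add_assoc, one_add_one_eq_two]; exact s2
    · have := N.C.pos _ (N.C.fT v hv)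
      rw [f1]
      linarith
  have top : ∀ v, Ev K M v → v + 1 = M → f v = (Y - 1 : ℕ) := by
    obtain ⟨w, hw, e⟩ := full (Y - 1) (by omega) (by omega) (by omega)
    have iw := N.idx hw e (c := 31 * K) (by omega) (by omega)
    have : w + 1 = M := by
      by_contra hc
      apply N.hY2
      have := succ w hw (by omega) hc
      rw [e] at this
      have e' : ((Y - 1 : ℕ) : ℚ) + 1 = Y := by
        rw [← Nat.cast_succ]; congr 1; omega
      rwa [e'] at this
    intro v _ hv
    rw [show v = w by omega, e]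
  have nostray : ∀ a, Ev K M a → ∃ x : ℕ, f a = x ∧ x < Y := by
    intro a ha
    by_contra hc
    obtain ⟨v, hv, hmax⟩ := exists_max_image
      ((range M).filter fun b => Ev K M b ∧ ¬ ∃ x : ℕ, f b = x ∧ x < Y) f
      ⟨a, mem_filter.2 ⟨mem_range.2 ha.2.1, ha, hc⟩⟩
    obtain ⟨_, v1, v2⟩ := mem_filter.1 hv
    have v3 : 30 * K + 8 < v := by
      by_contra q
      exact v2 ⟨v, small v v1.1 (by omega), by omega⟩
    have v4 : v + 1 ≠ M := fun q => v2 ⟨Y - 1, top v v1 q, by omega⟩
    obtain ⟨c, c1, c2⟩ := succ v v1 v3 v4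
    by_cases q : ∃ x : ℕ, f c = x ∧ x < Y
    · obtain ⟨x, x1, x2⟩ := q
      have hp := N.C.pos _ (N.C.fT v v1)
      have : 1 < x := by
        have : (1 : ℚ) < x := by linarith
        exact_mod_cast this
      refine v2 ⟨x - 1, ?_, by omega⟩
      rw [Nat.cast_sub this.le]
      push_cast
      linarith
    · have := hmax c (mem_filter.2 ⟨mem_range.2 c1.2.1, c1, q⟩)
      linarith
  have lab : ∀ y, InA K M f y ↔ ∃ x : ℕ, Ev K Y x ∧ y = x := by
    intro y
    constructor
    · rintro ⟨c, hc, rfl⟩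
      obtain ⟨x, e, hx⟩ := nostray c hc
      have h1 := N.C.fT c hc
      have h2 := N.C.pos _ h1
      rw [e] at h1 h2
      refine ⟨x, ⟨by exact_mod_cast h2, hx, ?_⟩, e⟩
      rintro rfl
      exact hole h1
    · rintro ⟨x, ⟨x1, x2, x3⟩, rfl⟩
      exact full x x1 x2 x3
  have hYM : Y = M := by
    have c1 := N.C.card_labA (by omega)
    have : labA K M f = ((range Y).filter (Ev K Y)).image fun x : ℕ => (x : ℚ) := by
      ext y
      rw [mem_labA, lab]
      simp only [mem_image, mem_filter, mem_range]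
      exact ⟨fun ⟨x, h, e⟩ => ⟨x, ⟨h.2.1, h⟩, e.symm⟩, fun ⟨x, h, e⟩ => ⟨x, h.2, e.symm⟩⟩
    rw [this, card_image_of_injective _ Nat.cast_injective, card_Ev (by omega)] at c1
    omega
  have := N.B5
  subst hYM
  exact ⟨small, lab, this, hole⟩

theorem Exact.odd (X : Exact K M T f) (C : Core K M T f g) (hK : 20 ≤ K) (hM : 400 * K ≤ M) :
    ∀ i < 5, 2 * g i = (30 * K + 3 + 6 * i : ℕ) := by
  have ev : ∀ a, 1 ≤ a → a ≤ 30 * K + 8 → Ev K M a := fun a a1 a2 =>
    ⟨a1, by omega, by omega⟩
  have notint : ∀ i < 5, ∀ x : ℕ, x < M → g i ≠ x := by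
    intro i hi x hx e
    have h1 := C.gT i hi
    have h2 := C.pos _ h1
    rw [e] at h1 h2
    have x1 : 1 ≤ x := by exact_mod_cast h2
    obtain ⟨c, hc, e'⟩ := (X.lab x).2 ⟨x, ⟨x1, hx, fun q => X.hole (q ▸ h1)⟩, rfl⟩
    exact C.fg c hc i hi (by rw [e, e'])
  have f3 : f 3 = 3 := by simpa using X.small 3 (by omega) (by omega)
  have f6 : f 6 = 6 := by simpa using X.small 6 (by omega) (by omega)
  have f9 : f 9 = 9 := by simpa using X.small 9 (by omega) (by omega)
  have f12 : f 12 = 12 := by simpa using X.small 12 (by omega) (by omega)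
  have hO : ∀ t ∈ T, t + 3 ∈ T → t ≠ 3 → (∃ x : ℕ, Ev K M x ∧ t = x) ∨ ∃ i ≤ 3, t = g i := by
    intro t ht h1 h2
    rcases C.nb ht (ev 3 (by omega) (by omega)) (by rwa [f3]) (by rwa [f3]) with
      ⟨b, hb, e, _⟩ | ⟨i, _, e, _, h3⟩
    · exact Or.inl ((X.lab t).1 ⟨b, hb, e.symm⟩)
    · exact Or.inr ⟨i, by omega, e⟩
  have y0 := C.pos _ (C.gT 0 (by omega))
  have t3 := (C.EO 3 (ev 3 (by omega) (by omega)) 0 (by omega)).2 (by omega)
  have t6 := (C.EO 6 (ev 6 (by omega) (by omega)) 0 (by omega)).2 (by omega)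
  have t9 := (C.EO 9 (ev 9 (by omega) (by omega)) 0 (by omega)).2 (by omega)
  have t12 := (C.EO 12 (ev 12 (by omega) (by omega)) 0 (by omega)).2 (by omega)
  rw [f3] at t3
  rw [f6] at t6
  rw [f9] at t9
  rw [f12] at t12
  have chain : ∀ r : ℕ, 1 ≤ r → g 0 + r ∈ T → g 0 + r + 3 ∈ T → g 0 + r ≠ 3 →
      ∃ i ≤ 3, g 0 + r = g i := by
    intro r r1 h1 h2 h3
    rcases hO _ h1 h2 h3 with ⟨x, hx, e⟩ | h
    · exfalso
      have : r < x := by
        have : (r : ℚ) < x := by linarith
        exact_mod_cast this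
      refine notint 0 (by omega) (x - r) (by have := hx.2.1; omega) ?_
      rw [Nat.cast_sub this.le]
      linarith
    · exact h
  obtain ⟨i1, i1', e1⟩ := chain 3 (by omega) (by simpa using t3)
    (by push_cast; rw [add_assoc]; norm_num; exact t6) (by push_cast; linarith)
  obtain ⟨i2, i2', e2⟩ := chain 6 (by omega) (by simpa using t6)
    (by push_cast; rw [add_assoc]; norm_num; exact t9) (by push_cast; linarith)
  obtain ⟨i3, i3', e3⟩ := chain 9 (by omega) (by simpa using t9)
    (by push_cast; rw [add_assoc]; norm_num; exact t12) (by push_cast; linarith)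
  push_cast at e1 e2 e3
  have b1 := (C.EO 9 (ev 9 (by omega) (by omega)) i1 (by omega)).1
    (by rw [f9, ← e1, add_assoc]; norm_num; exact t12)
  have b2 := (C.EO 6 (ev 6 (by omega) (by omega)) i2 (by omega)).1
    (by rw [f6, ← e2, add_assoc]; norm_num; exact t12)
  have n1 : i1 ≠ 0 := by rintro rfl; linarith
  obtain rfl : i1 = 1 := by omega
  have n2 : i2 ≠ 0 := by rintro rfl; linarith
  have n2' : i2 ≠ 1 := by rintro rfl; linarith
  obtain rfl : i2 = 2 := by omega
  have n3 : i3 ≠ 0 := by rintro rfl; linarith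
  have n3' : i3 ≠ 1 := by rintro rfl; linarith
  have n3'' : i3 ≠ 2 := by rintro rfl; linarith
  obtain rfl : i3 = 3 := by omega
  have gi : ∀ i ≤ 3, g i = g 0 + 3 * i := by
    intro i hi
    interval_cases i <;> push_cast <;> linarith
  have s02 := mt (C.OO 0 (by omega) 2 (by omega) (by omega)).1 (by omega)
  have s03 := (C.OO 0 (by omega) 3 (by omega) (by omega)).2 (by omega)
  have s13 := (C.OO 1 (by omega) 3 (by omega) (by omega)).2 (by omega)
  have hy : 2 * g 0 = (30 * K + 3 : ℕ) := by
    rcases hO _ s03 (by rwa [show g 0 + g 3 + 3 = g 1 + g 3 by linarith]) (by linarith) with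
      ⟨x, hx, e⟩ | ⟨i, hi, e⟩
    · have x9 : 9 < x := by
        have : (9 : ℚ) < x := by linarith
        exact_mod_cast this
      have e' : g 0 + g 2 = (x - 3 : ℕ) := by
        rw [Nat.cast_sub (by omega)]; push_cast; linarith
      have : x - 3 = 30 * K + 9 := by
        by_contra hc
        apply s02
        rw [e']
        exact C.AT ((X.lab _).2 ⟨x - 3, ⟨by omega, by have := hx.2.1; omega, hc⟩, rfl⟩)
      rw [this] at e'
      push_cast at e' ⊢
      linarith
    · exfalso
      rw [gi i hi] at e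
      have : (i : ℚ) ≤ 3 := by exact_mod_cast hi
      linarith
  have hK' : (20 : ℚ) ≤ K := by exact_mod_cast hK
  have h4 : g 4 = g 0 + 12 := by
    have s40 := (C.OO 4 (by omega) 0 (by omega) (by omega)).2 (by omega)
    have s41 := (C.OO 4 (by omega) 1 (by omega) (by omega)).2 (by omega)
    have p4 := C.pos _ (C.gT 4 (by omega))
    push_cast at hy
    rcases hO _ s40 (by rwa [show g 4 + g 0 + 3 = g 4 + g 1 by linarith]) (by linarith) with
      ⟨x, hx, e⟩ | ⟨i, hi, e⟩
    · have xM := hx.2.1
      rcases lt_trichotomy x (30 * K + 3) with q | q | q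
      · exfalso
        have := (C.EO (30 * K + 3 - x) (ev _ (by omega) (by omega)) 4 (by omega)).1 (by
          rw [X.small _ (by omega) (by omega), Nat.cast_sub q.le]
          have : g 4 + (((30 * K + 3 : ℕ) : ℚ) - x) = g 0 := by push_cast; linarith
          rw [this]
          exact C.gT 0 (by omega))
        omega
      · exfalso
        subst q
        have := C.ginj 4 (by omega) 0 (by omega) (by push_cast at e; linarith)
        omega
      · by_cases hz : x - (30 * K + 3) = 30 * K + 9
        · exfalso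
          have hx' : x = 60 * K + 12 := by omega
          have := (C.EO (30 * K + 6) (ev _ (by omega) (by omega)) 1 (by omega)).1 (by
            rw [X.small _ (by omega) (by omega)]
            have : g 1 + ((30 * K + 6 : ℕ) : ℚ) = g 4 := by
              rw [hx'] at e; push_cast at e ⊢; linarith
            rw [this]
            exact C.gT 4 (by omega))
          omega
        · obtain ⟨c, hc, ec⟩ := (X.lab _).2 ⟨x - (30 * K + 3), ⟨by omega, by omega, hz⟩, rfl⟩
          rw [Nat.cast_sub q.le] at ec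
          have e4 : g 0 + f c = g 4 := by rw [ec]; push_cast; linarith
          have := (C.EO c hc 0 (by omega)).1 (by rw [e4]; exact C.gT 4 (by omega))
          have c1 := hc.1
          have : c = 3 ∨ c = 6 ∨ c = 9 ∨ c = 12 := by omega
          rcases this with rfl | rfl | rfl | rfl
          · have := C.ginj 4 (by omega) 1 (by omega) (by linarith)
            omega
          · have := C.ginj 4 (by omega) 2 (by omega) (by linarith)
            omega
          · have := C.ginj 4 (by omega) 3 (by omega) (by linarith)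
            omega
          · linarith
    · exfalso
      rw [gi i hi] at e
      exact notint 4 (by omega) (3 * i) (by omega) (by push_cast; linarith)
  intro i hi
  push_cast at hy ⊢
  interval_cases i <;> push_cast <;> linarith

/-- Rigidity: all labels are determined up to a common factor. -/
theorem Core.rigid (C : Core K M T f g) (hexc : ∀ a, Ev K M a → (exc K M f a).card + 1 ≤ K)
    (hK : 20 ≤ K) (hM : 18000 * K ^ 3 ≤ M) :
    ∃ δ : ℚ, 0 < δ ∧ (∀ y, InA K M f y ↔ ∃ x : ℕ, Ev K M x ∧ y = x * δ) ∧ M * δ ∈ T ∧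
      ∀ i < 5, 2 * g i = (30 * K + 3 + 6 * i : ℕ) * δ := by
  classical
  have hM' : 400 * K ≤ M := by
    have : K ≤ K ^ 3 := Nat.le_self_pow (by omega) K
    omega
  obtain ⟨δ, hδ, hp⟩ := structA (labA K M f) f K (4 * K) (200 * K) (Ev K M)
    (fun a ha => C.pos _ (C.fT a ha)) (top_bound hexc)
    (fun j h1 h2 => ⟨h1, by omega, by omega⟩) C.finj (by omega) (by
      rw [C.card_labA (by omega)]
      have : (2 * (4 * K * (4 * K + K)) + 1) * (4 * K + K + 1 + 2 * (200 * K + K)) + 2 ≤
          18000 * K ^ 3 := by nlinarith [Nat.mul_le_mul hK hK, Nat.mul_le_mul (Nat.mul_le_mul hK (le_refl K)) (le_refl K)]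
      omega)
  choose! p hp using hp
  have hne := hδ.ne'
  have inA : ∀ y, InA K M (fun a => f a / δ) y ↔ InA K M f (y * δ) := by
    intro y
    refine exists_congr fun c => and_congr_right fun _ => ?_
    exact div_eq_iff hne
  have C' : Core K M {t | t * δ ∈ T} (fun a => f a / δ) (fun i => g i / δ) := by
    refine ⟨C.fin.preimage (mul_left_injective₀ hne).injOn, ?_, ?_, ?_, ?_, ?_, ?_, ?_, ?_, ?_,
      ?_, ?_⟩
    · intro t ht
      exact (mul_pos_iff_of_pos_right hδ).1 (C.pos _ ht)
    · intro a ha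
      simpa [hne] using C.fT a ha
    · intro a ha
      simpa [hne] using C.gT a ha
    · intro a b ha hb e
      exact C.finj a b ha hb ((div_left_inj' hne).1 e)
    · intro a ha b hb e
      exact C.ginj a ha b hb ((div_left_inj' hne).1 e)
    · intro a ha b hb e
      exact C.fg a ha b hb ((div_left_inj' hne).1 e)
    · intro a b ha hb e
      simpa [hne, add_mul] using C.EE a b ha hb e
    · intro a ha b hb
      simpa [hne, add_mul] using C.EO a ha b hb
    · intro a ha b hb e
      simpa [hne, add_mul] using C.OO a ha b hb e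
    · intro t ht h1 h2 a ha
      have := C.Xf (t * δ) ht (fun h => h1 ((inA t).2 h))
        (fun i hi e => h2 i hi (by rw [← e]; field_simp)) a ha
      simpa [hne, add_mul] using this
    · intro t ht h1 h2 a ha
      have := C.Xg (t * δ) ht (fun h => h1 ((inA t).2 h))
        (fun i hi e => h2 i hi (by rw [← e]; field_simp)) a ha
      simpa [hne, add_mul] using this
  have hp' : ∀ a, Ev K M a → a ≤ 200 * K → f a / δ = p a ∧ p a ≤ a + K := fun a ha h =>
    ⟨by rw [(hp a ha h).1]; field_simp, (hp a ha h).2⟩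
  obtain ⟨D, hD1, hD2⟩ := exists_D C' hK hM' p hp'
  have N : Norm K M {t | t * δ ∈ T} (fun a => f a / δ) (fun i => g i / δ) p D := by
    refine ⟨C', fun a ha => ?_, hK, hM', hp', hD1, hD2⟩
    have : exc K M (fun a => f a / δ) a = exc K M f a := by
      unfold exc
      refine filter_congr fun b _ => ?_
      rw [inA, add_mul, div_mul_cancel₀ _ hne, div_mul_cancel₀ _ hne]
    rw [this]
    exact hexc a ha
  obtain ⟨Y, NY⟩ := N.exY
  obtain ⟨Z, NZ⟩ := NY.exZ
  have X := NZ.exact
  refine ⟨δ, hδ, fun y => ?_, X.slot, fun i hi => ?_⟩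
  · have := X.lab (y / δ)
    rw [inA, div_mul_cancel₀ _ hne] at this
    rw [this]
    exact exists_congr fun x => and_congr_right fun _ => div_eq_iff hne
  · rw [← X.odd C' hK hM' i hi]
    field_simp

end Pool.Agent.H646Z.SumG
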