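import Mathlib
import Pool.Agent.H646Z.SumDefs
import Pool.Agent.H646Z.SumExact

/-!
Two unit graphs whose disjoint union has sum number two.
-/

namespace Pool.Agent.H646Z.SumG

open Finset

/-- `t` is a label of the graph with even labels `f` and odd labels `g`. -/
def Own (K M : ℕ) (f g : ℕ → ℚ) (t : ℚ) : Prop := InA K M f t ∨ ∃ i < 5, t = g i

/-- The conclusion of the rigidity theorem. -/
def Rig (K M : ℕ) (T : Set ℚ) (f g : ℕ → ℚ) (δ : ℚ) : Prop :=
  0 < δ ∧ (∀ y, InA K M f y ↔ ∃ x : ℕ, Ev K M x ∧ y = x * δ) ∧ M * δ ∈ T ∧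
    ∀ i < 5, 2 * g i = (30 * K + 3 + 6 * i : ℕ) * δ

theorem cross_contra {K M : ℕ} {T : Set ℚ} {f g : ℕ → ℚ} {δ : ℚ} (C : Core K M T f g)
    (R : Rig K M T f g δ) (hK : 20 ≤ K) (hM : 400 * K ≤ M) {b : ℚ} (hb : b ∈ T)
    (hn : ¬ Own K M f g b) {k : ℕ} (hk : k ≤ M) (e : 2 * b = k * δ) : False := by
  obtain ⟨_, lab, _, odd⟩ := R
  have n1 : ¬ InA K M f b := fun h => hn (Or.inl h)
  have n2 : ∀ i < 5, b ≠ g i := fun i hi h => hn (Or.inr ⟨i, hi, h⟩)
  have inT : ∀ x : ℕ, Ev K M x → x * δ ∈ T := fun x hx => C.AT ((lab _).2 ⟨x, hx, rfl⟩)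
  rcases Nat.even_or_odd' k with ⟨m, rfl | rfl⟩
  · have : ∃ r, (r = 1 ∨ r = 2) ∧ m + r ≠ 30 * K + 9 := by
      by_cases h : m + 1 = 30 * K + 9
      · exact ⟨2, Or.inr rfl, by omega⟩
      · exact ⟨1, Or.inl rfl, h⟩
    obtain ⟨r, r1, r2⟩ := this
    obtain ⟨c, hc, ec⟩ := (lab _).2 ⟨r, ⟨by omega, by omega, by omega⟩, rfl⟩
    apply C.Xf b hb n1 n2 c hc
    have := inT (m + r) ⟨by omega, by omega, r2⟩
    rw [show b + f c = (m + r : ℕ) * δ by rw [ec]; push_cast at e ⊢; linarith]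
    exact this
  · have : ∃ i, (i = 0 ∨ i = 1) ∧ m + 15 * K + 2 + 3 * i ≠ 30 * K + 9 := by
      by_cases h : m + 15 * K + 2 + 3 * 0 = 30 * K + 9
      · exact ⟨1, Or.inr rfl, by omega⟩
      · exact ⟨0, Or.inl rfl, h⟩
    obtain ⟨i, i1, i2⟩ := this
    apply C.Xg b hb n1 n2 i (by omega)
    have := inT (m + 15 * K + 2 + 3 * i) ⟨by omega, by omega, i2⟩
    have o := odd i (by omega)
    rw [show b + g i = (m + 15 * K + 2 + 3 * i : ℕ) * δ by push_cast at e o ⊢; linarith]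
    exact this

theorem slot_contra {K M K' M' : ℕ} {T : Set ℚ} {f g f' g' : ℕ → ℚ} {δ δ' : ℚ}
    (C : Core K M T f g) (R : Rig K M T f g δ) (hK : 20 ≤ K) (hM : 400 * K ≤ M)
    (C' : Core K' M' T f' g') (R' : Rig K' M' T f' g' δ') (hK' : 20 ≤ K') (hM' : 400 * K' ≤ M')
    (h6 : 6 ∣ M') (disj : ∀ t, Own K M f g t → Own K' M' f' g' t → False)
    (h : Own K M f g (M' * δ') ∨ M' * δ' = M * δ) : False := by
  obtain ⟨m, rfl⟩ := h6
  have a2 := (R'.2.1 _).2 ⟨3 * m, ⟨by omega, by omega, by omega⟩, rfl⟩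
  have a3 := (R'.2.1 _).2 ⟨2 * m, ⟨by omega, by omega, by omega⟩, rfl⟩
  rcases h with (h | ⟨i, hi, h⟩) | h
  · obtain ⟨x, hx, e⟩ := (R.2.1 _).1 h
    exact cross_contra C R hK hM (C'.AT a2) (fun o => disj _ o (Or.inl a2)) hx.2.1.le
      (by push_cast at e ⊢; linarith)
  · have o := R.2.2.2 i hi
    exact cross_contra C R hK hM (C'.AT a3) (fun o => disj _ o (Or.inl a3))
      (k := 10 * K + 1 + 2 * i) (by omega) (by push_cast at h o ⊢; linarith)
  · exact cross_contra C R hK hM (C'.AT a2) (fun o => disj _ o (Or.inl a2)) le_rfl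
      (by push_cast at h ⊢; linarith)

theorem slot_not_own {K M : ℕ} {T : Set ℚ} {f g : ℕ → ℚ} {δ : ℚ} (R : Rig K M T f g δ) :
    ¬ Own K M f g (M * δ) := by
  obtain ⟨hδ, lab, _, odd⟩ := R
  rintro (h | ⟨i, hi, h⟩)
  · obtain ⟨x, hx, e⟩ := (lab _).1 h
    have : M = x := by exact_mod_cast mul_right_cancel₀ hδ.ne' e
    have := hx.2.1
    omega
  · have o := odd i hi
    rw [← h, ← mul_assoc] at o
    have : 2 * M = 30 * K + 3 + 6 * i := by exact_mod_cast mul_right_cancel₀ hδ.ne' o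
    omega

theorem exc_le {K M : ℕ} {T : Set ℚ} {f g : ℕ → ℚ} (C : Core K M T f g) {a : ℕ} (ha : Ev K M a)
    (S : Finset ℚ) (hS : ∀ b, Ev K M b → f a + f b ∈ T → ¬ InA K M f (f a + f b) → f a + f b ∈ S) :
    (exc K M f a).card ≤ S.card := by
  classical
  have hm : ∀ b ∈ exc K M f a, Ev K M b ∧ f a + f b ∈ T ∧ ¬ InA K M f (f a + f b) := by
    intro b hb
    unfold exc at hb
    obtain ⟨_, h1, h2, h3, h4, h5⟩ := mem_filter.1 hb
    exact ⟨h1, (C.EE a b ha h1 h2.symm).2 ⟨h3, h4⟩, h5⟩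
  refine card_le_card_of_injOn (fun b => f a + f b) ?_ ?_
  · intro b hb
    obtain ⟨h1, h2, h3⟩ := hm b hb
    exact hS b h1 h2 h3
  · intro b hb c hc e
    exact C.finj b c (hm b hb).1 (hm c hc).1 (add_left_cancel e)

theorem cube_le {K M : ℕ} (hM : 18000 * K ^ 3 ≤ M) : 400 * K ≤ M := by
  have : K ≤ K ^ 3 := Nat.le_self_pow (by omega) K
  omega

theorem no_two {K M K' M' : ℕ} {T : Set ℚ} {f g f' g' : ℕ → ℚ} {z : ℚ}
    (C : Core K M T f g) (C' : Core K' M' T f' g')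
    (cover : ∀ t ∈ T, Own K M f g t ∨ Own K' M' f' g' t ∨ t = z)
    (disj : ∀ t, Own K M f g t → Own K' M' f' g' t → False)
    (hK' : 20 ≤ K') (hM' : 18000 * K' ^ 3 ≤ M') (h6' : 6 ∣ M') (hK : M' + 20 ≤ K)
    (hM : 18000 * K ^ 3 ≤ M) (h6 : 6 ∣ M) : False := by
  classical
  have c5 : ∀ u : ℕ → ℚ, ((range 5).image u).card ≤ 5 := fun u => by
    simpa using card_image_le (s := range 5) (f := u)
  have m5 : ∀ (u : ℕ → ℚ) (t : ℚ), (∃ i < 5, t = u i) → t ∈ (range 5).image u := by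
    rintro u t ⟨i, hi, rfl⟩
    exact mem_image.2 ⟨i, mem_range.2 hi, rfl⟩
  obtain ⟨δ, R⟩ : ∃ δ, Rig K M T f g δ := by
    refine C.rigid (fun a ha => ?_) (by omega) hM
    have h1 := exc_le C ha (insert z ((range 5).image g ∪ (range 5).image g' ∪ labA K' M' f')) (by
      intro b _ h2 h3
      simp only [mem_insert, mem_union, mem_labA]
      rcases cover _ h2 with (h | h) | (h | h) | h
      · exact absurd h h3
      · exact Or.inr (Or.inl (Or.inl (m5 _ _ h)))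
      · exact Or.inr (Or.inr h)
      · exact Or.inr (Or.inl (Or.inr (m5 _ _ h)))
      · exact Or.inl h)
    have h2 := card_insert_le z ((range 5).image g ∪ (range 5).image g' ∪ labA K' M' f')
    have h3 := card_union_le ((range 5).image g ∪ (range 5).image g') (labA K' M' f')
    have h4 := card_union_le ((range 5).image g) ((range 5).image g')
    have h5 := c5 g
    have h6 := c5 g'
    have h7 := C'.card_labA (by have := cube_le hM'; omega)
    omega
  obtain ⟨δ', R'⟩ : ∃ δ', Rig K' M' T f' g' δ' := by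
    refine C'.rigid (fun a ha => ?_) hK' hM'
    set W := (labA K M f).filter fun t => t ∈ T ∧ ∃ b, Ev K' M' b ∧ t = f' a + f' b with hW
    have h1 := exc_le C' ha (insert z ((range 5).image g ∪ (range 5).image g' ∪ W)) (by
      intro b hb h2 h3
      simp only [mem_insert, mem_union]
      rcases cover _ h2 with (h | h) | (h | h) | h
      · exact Or.inr (Or.inr (mem_filter.2 ⟨mem_labA.2 h, h2, b, hb, rfl⟩))
      · exact Or.inr (Or.inl (Or.inl (m5 _ _ h)))
      · exact absurd h h3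
      · exact Or.inr (Or.inl (Or.inr (m5 _ _ h)))
      · exact Or.inl h)
    have h2 := card_insert_le z ((range 5).image g ∪ (range 5).image g' ∪ W)
    have h3 := card_union_le ((range 5).image g ∪ (range 5).image g') W
    have h4 := card_union_le ((range 5).image g) ((range 5).image g')
    have h5 := c5 g
    have h6 := c5 g'
    have h7 : W.card ≤ 2 := by
      by_contra hc
      obtain ⟨t1, t2, t3, w1, w2, w3, n1, n2, n3⟩ := two_lt_card_iff.1 (not_le.1 hc)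
      have rep : ∀ t ∈ W, ∃ x : ℕ, x < M ∧ t = x * δ := by
        intro t ht
        obtain ⟨x, hx, e⟩ := (R.2.1 t).1 (mem_labA.1 (mem_filter.1 ht).1)
        exact ⟨x, hx.2.1, e⟩
      have key : ∀ x y : ℕ, x * δ ∈ W → y * δ ∈ W → x < y → y < M → y = x + (30 * K + 9) := by
        intro x y hx hy hxy hyM
        by_contra hne
        obtain ⟨_, b, hb, eb⟩ := (mem_filter.1 hx).2
        obtain ⟨_, c, hc, ec⟩ := (mem_filter.1 hy).2
        obtain ⟨d, hd, ed⟩ := (R.2.1 _).2 ⟨y - x, ⟨by omega, by omega, by omega⟩, rfl⟩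
        have o : Own K' M' f' g' (f' b) := Or.inl ⟨b, hb, rfl⟩
        apply C.Xf (f' b) (C'.fT b hb) (fun h => disj _ (Or.inl h) o)
          (fun i hi h => disj _ (Or.inr ⟨i, hi, h⟩) o) d hd
        rw [Nat.cast_sub hxy.le] at ed
        rw [show f' b + f d = f' c by linarith]
        exact C'.fT c hc
      obtain ⟨x1, b1, rfl⟩ := rep t1 w1
      obtain ⟨x2, b2, rfl⟩ := rep t2 w2
      obtain ⟨x3, b3, rfl⟩ := rep t3 w3
      have d1 : x1 ≠ x2 := fun h => n1 (by rw [h])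
      have d2 : x1 ≠ x3 := fun h => n2 (by rw [h])
      have d3 : x2 ≠ x3 := fun h => n3 (by rw [h])
      have k12 := fun h => key x1 x2 w1 w2 h b2
      have k21 := fun h => key x2 x1 w2 w1 h b1
      have k13 := fun h => key x1 x3 w1 w3 h b3
      have k31 := fun h => key x3 x1 w3 w1 h b1
      have k23 := fun h => key x2 x3 w2 w3 h b3
      have k32 := fun h => key x3 x2 w3 w2 h b2
      omega
    omega
  have hK20 : 20 ≤ K := by omega
  have disj' : ∀ t, Own K' M' f' g' t → Own K M f g t → False := fun t a b => disj t b a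
  rcases cover _ R'.2.2.1 with h | h | h
  · exact slot_contra C R hK20 (cube_le hM) C' R' hK' (cube_le hM') h6' disj (Or.inl h)
  · exact slot_not_own R' h
  rcases cover _ R.2.2.1 with h' | h' | h'
  · exact slot_not_own R h'
  · exact slot_contra C' R' hK' (cube_le hM') C R hK20 (cube_le hM) h6 disj' (Or.inl h')
  · exact slot_contra C R hK20 (cube_le hM) C' R' hK' (cube_le hM') h6' disj
      (Or.inr (h.trans h'.symm))

/-- The label set: the even numbers up to `2 M` with one hole, and five odd multiples of three. -/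
def InS (K M s : ℕ) : Prop :=
  (s % 2 = 0 ∧ 2 ≤ s ∧ s ≤ 2 * M ∧ s ≠ 60 * K + 18) ∨
    (s % 6 = 3 ∧ 30 * K + 3 ≤ s ∧ s ≤ 30 * K + 27)

/-- The vertices: all labels except the largest one. -/
def Vt (K M : ℕ) : Type := {s : Fin (2 * M) // InS K M s}

instance (K M : ℕ) : Finite (Vt K M) := by unfold Vt; infer_instance

/-- The graph: two vertices are adjacent when their sum is a label. -/
def Gr (K M : ℕ) : SimpleGraph (Vt K M) where
  Adj u v := u ≠ v ∧ InS K M (u.1.1 + v.1.1)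
  symm := ⟨fun _ _ h => ⟨h.1.symm, by rw [add_comm]; exact h.2⟩⟩
  loopless := ⟨fun _ h => h.1 rfl⟩

theorem Vt.ext {K M : ℕ} {u v : Vt K M} (h : u.1.1 = v.1.1) : u = v :=
  Subtype.ext (Fin.ext h)

theorem Gr_adj {K M : ℕ} (u v : Vt K M) :
    (Gr K M).Adj u v ↔ u.1.1 ≠ v.1.1 ∧ InS K M (u.1.1 + v.1.1) :=
  and_congr_left fun _ => ⟨fun h e => h (Vt.ext e), fun h e => h (by rw [e])⟩

theorem Gr_nbr {K M : ℕ} (hK : 20 ≤ K) (hM : 400 * K ≤ M) (v : Vt K M) :
    ∃ w, (Gr K M).Adj v w := by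
  obtain ⟨⟨s, hs⟩, h⟩ := v
  have h' : InS K M s := h
  have : ∃ r, r < 2 * M ∧ InS K M r ∧ s ≠ r ∧ InS K M (s + r) := by
    unfold InS at h' ⊢
    by_cases c1 : s % 2 = 0
    · by_cases c2 : s = 2 ∨ s = 60 * K + 16
      · exact ⟨4, by omega, by omega, by omega, by omega⟩
      · exact ⟨2, by omega, by omega, by omega, by omega⟩
    · by_cases c2 : s = 30 * K + 27
      · exact ⟨30 * K + 3, by omega, by omega, by omega, by omega⟩
      · exact ⟨30 * K + 27, by omega, by omega, by omega, by omega⟩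
  obtain ⟨r, r1, r2, r3, r4⟩ := this
  exact ⟨⟨⟨r, r1⟩, r2⟩, (Gr_adj _ _).2 ⟨r3, r4⟩⟩

theorem exists_isolated {W : Type} [Finite W] [Nonempty W] {H : SimpleGraph W}
    (h : IsSumGraph H) : ∃ w, ∀ v, ¬ H.Adj w v := by
  obtain ⟨l, _, h2, h3⟩ := h
  obtain ⟨w, hw⟩ := Finite.exists_max l
  refine ⟨w, fun v hv => ?_⟩
  obtain ⟨u, hu⟩ := (h3 w v hv.ne).1 hv
  have := hw u
  have := h2 v
  omega

theorem not_sum_zero {V : Type} [Finite V] [Nonempty V] {G : SimpleGraph V}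
    (h : ∀ v, ∃ w, G.Adj v w) : ¬ IsSumGraph (addIsolated G 0) := by
  intro hs
  obtain ⟨w, hw⟩ := exists_isolated hs
  rcases w with v | v
  · obtain ⟨u, hu⟩ := h v
    exact hw (Sum.inl u) (by simpa [addIsolated] using hu)
  · exact v.elim0

theorem Gr_sum {K M : ℕ} (hK : 20 ≤ K) (hM : 400 * K ≤ M) :
    IsSumGraph (addIsolated (Gr K M) 1) := by
  have hs : ∀ v : Vt K M, InS K M v.1.1 := fun v => v.2
  have hex : ∀ n, (∃ w : Vt K M ⊕ Fin 1, n = Sum.elim (fun v => v.1.1) (fun _ => 2 * M) w) ↔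
      InS K M n := by
    intro n
    constructor
    · rintro ⟨v | v, rfl⟩
      · exact hs v
      · simp only [Sum.elim_inr]; unfold InS; omega
    · intro h
      by_cases c : n < 2 * M
      · exact ⟨Sum.inl ⟨⟨n, c⟩, h⟩, rfl⟩
      · refine ⟨Sum.inr 0, ?_⟩
        simp only [Sum.elim_inr]; unfold InS at h; omega
  refine ⟨Sum.elim (fun v => v.1.1) (fun _ => 2 * M), ?_, ?_, ?_⟩
  · rintro (u | u) (v | v) e
    · rw [Vt.ext (u := u) (v := v) e]
    · have := u.1.2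
      simp only [Sum.elim_inl, Sum.elim_inr] at e; omega
    · have := v.1.2
      simp only [Sum.elim_inl, Sum.elim_inr] at e; omega
    · rw [Subsingleton.elim u v]
  · rintro (u | u)
    · have := hs u
      simp only [Sum.elim_inl]; unfold InS at this; omega
    · simp only [Sum.elim_inr]; omega
  · rintro (u | u) (v | v) hne <;> rw [hex]
    · have : u ≠ v := fun e => hne (by rw [e])
      simp only [addIsolated, SimpleGraph.sum_adj, Sum.elim_inl]
      exact ⟨fun h => h.2, fun h => ⟨this, h⟩⟩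
    · have := hs u
      simp only [addIsolated, SimpleGraph.sum_adj, Sum.elim_inl, Sum.elim_inr, false_iff]
      unfold InS at this ⊢; omega
    · have := hs v
      simp only [addIsolated, SimpleGraph.sum_adj, Sum.elim_inl, Sum.elim_inr, false_iff]
      unfold InS at this ⊢; omega
    · exact absurd (by rw [Subsingleton.elim u v]) hne

theorem IsSumGraph.sum {W W' : Type} [Finite W] {H : SimpleGraph W} {H' : SimpleGraph W'}
    (h : IsSumGraph H) (h' : IsSumGraph H') : IsSumGraph (H.sum H') := by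
  obtain ⟨l, l1, l2, l3⟩ := h
  obtain ⟨m, m1, m2, m3⟩ := h'
  obtain ⟨B, hB⟩ := (Set.finite_range l).bddAbove
  have hb : ∀ w, l w ≤ B := fun w => hB ⟨w, rfl⟩
  have big : ∀ w, 2 * B + 1 ≤ (2 * B + 1) * m w := fun w => Nat.le_mul_of_pos_right _ (m2 w)
  have mixed : ∀ u v w, l u + (2 * B + 1) * m v ≠ (2 * B + 1) * m w := by
    intro u v w e
    have h1 : 2 * B + 1 ∣ l u := (Nat.dvd_add_left (Dvd.intro _ rfl)).1 (e ▸ Dvd.intro _ rfl)
    have := Nat.le_of_dvd (l2 u) h1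
    have := hb u
    omega
  refine ⟨Sum.elim l (fun w => (2 * B + 1) * m w), ?_, ?_, ?_⟩
  · rintro (u | u) (v | v) e <;> simp only [Sum.elim_inl, Sum.elim_inr] at e
    · rw [l1 e]
    · have := hb u; have := big v; omega
    · have := hb v; have := big u; omega
    · rw [m1 (Nat.eq_of_mul_eq_mul_left (by omega) e)]
  · rintro (u | u)
    · exact l2 u
    · have := big u
      simp only [Sum.elim_inr]; omega
  · rintro (u | u) (v | v) hne <;>
      simp only [SimpleGraph.sum_adj, Sum.elim_inl, Sum.elim_inr, Sum.exists, false_iff, not_or,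
        not_exists]
    · rw [l3 u v fun e => hne (by rw [e])]
      refine ⟨Or.inl, fun h => h.elim id ?_⟩
      rintro ⟨w, e⟩
      have := hb u; have := hb v; have := big w; omega
    · refine ⟨fun w e => ?_, mixed u v⟩
      have := hb w; have := big v; omega
    · refine ⟨fun w e => ?_, fun w e => mixed v u w (by omega)⟩
      have := hb w; have := big u; omega
    · rw [m3 u v fun e => hne (by rw [e])]
      constructor
      · rintro ⟨w, e⟩
        exact Or.inr ⟨w, by rw [← e, mul_add]⟩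
      · rintro (⟨w, e⟩ | ⟨w, e⟩)
        · have := hb w; have := big v; omega
        · exact ⟨w, Nat.eq_of_mul_eq_mul_left (Nat.succ_pos (2 * B)) (by rw [mul_add]; exact e)⟩

theorem IsSumGraph.of_bij {W W' : Type} {H : SimpleGraph W} {H' : SimpleGraph W'}
    (h : IsSumGraph H') (e : W → W') (he : Function.Bijective e)
    (hadj : ∀ u v, H.Adj u v ↔ H'.Adj (e u) (e v)) : IsSumGraph H := by
  obtain ⟨l, l1, l2, l3⟩ := h
  refine ⟨l ∘ e, l1.comp he.1, fun v => l2 _, fun u v hne => ?_⟩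
  rw [hadj, l3 _ _ (he.1.ne hne), he.2.exists]
  rfl

theorem sum_two {V V' : Type} [Finite V] {G : SimpleGraph V} {G' : SimpleGraph V'}
    (h : IsSumGraph (addIsolated G 1)) (h' : IsSumGraph (addIsolated G' 1)) :
    IsSumGraph (addIsolated (G.sum G') 2) := by
  refine (h.sum h').of_bij
    (Sum.elim (Sum.elim (fun v => Sum.inl (Sum.inl v)) (fun v => Sum.inr (Sum.inl v)))
      (fun i => if i = 0 then Sum.inl (Sum.inr 0) else Sum.inr (Sum.inr 0))) ⟨?_, ?_⟩ ?_
  · rintro ((u | u) | u) ((v | v) | v) e <;> (try fin_cases u) <;> (try fin_cases v) <;>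
      simp_all
  · rintro ((u | u) | (u | u))
    · exact ⟨Sum.inl (Sum.inl u), rfl⟩
    · exact ⟨Sum.inr 0, by simp [Subsingleton.elim u 0]⟩
    · exact ⟨Sum.inl (Sum.inr u), rfl⟩
    · exact ⟨Sum.inr 1, by simp [Subsingleton.elim u 0]⟩
  · rintro ((u | u) | u) ((v | v) | v) <;> (try fin_cases u) <;> (try fin_cases v) <;>
      simp [addIsolated]

theorem core_of_emb {K M : ℕ} (hK : 20 ≤ K) (hM : 400 * K ≤ M) {W : Type} [Finite W]
    {H : SimpleGraph W} {l : W → ℕ} (l1 : Function.Injective l) (l2 : ∀ v, 0 < l v)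
    (l3 : ∀ u v, u ≠ v → (H.Adj u v ↔ ∃ w, l u + l v = l w)) (e : Vt K M → W)
    (e1 : Function.Injective e) (e2 : ∀ u v, H.Adj (e u) (e v) ↔ (Gr K M).Adj u v)
    (e3 : ∀ w, w ∉ Set.range e → ∀ u, ¬ H.Adj w (e u)) :
    ∃ f g, Core K M (Set.range fun w => (l w : ℚ)) f g ∧
      ∀ t, Own K M f g t ↔ ∃ u, t = l (e u) := by
  classical
  let F : ℕ → ℚ := fun s => if h : s < 2 * M ∧ InS K M s then l (e ⟨⟨s, h.1⟩, h.2⟩) else 0
  have hF : ∀ s, s < 2 * M → InS K M s → ∃ u : Vt K M, u.1.1 = s ∧ F s = l (e u) := by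
    intro s h1 h2
    exact ⟨⟨⟨s, h1⟩, h2⟩, rfl, dif_pos ⟨h1, h2⟩⟩
  have hf : ∀ a, Ev K M a → ∃ u : Vt K M, u.1.1 = 2 * a ∧ F (2 * a) = l (e u) := by
    rintro a ⟨a1, a2, a3⟩
    exact hF _ (by omega) (by unfold InS; omega)
  have hg : ∀ i < 5, ∃ u : Vt K M, u.1.1 = 30 * K + 3 + 6 * i ∧
      F (30 * K + 3 + 6 * i) = l (e u) := by
    intro i hi
    exact hF _ (by omega) (by unfold InS; omega)
  have linj : ∀ u v : Vt K M, (l (e u) : ℚ) = l (e v) → u.1.1 = v.1.1 := by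
    intro u v h
    have h' : l (e u) = l (e v) := by exact_mod_cast h
    rw [e1 (l1 h')]
  have sumT : ∀ w w', ((l w : ℚ) + l w' ∈ Set.range fun w => (l w : ℚ)) ↔
      ∃ x, l w + l w' = l x := by
    intro w w'
    refine exists_congr fun x => ⟨fun h => ?_, fun h => ?_⟩
    · have h' : (l x : ℚ) = l w + l w' := h
      exact_mod_cast h'.symm
    · show (l x : ℚ) = l w + l w'
      exact_mod_cast h.symm
  have adj : ∀ u v : Vt K M, u.1.1 ≠ v.1.1 →
      (((l (e u) : ℚ) + l (e v) ∈ Set.range fun w => (l w : ℚ)) ↔ InS K M (u.1.1 + v.1.1)) := by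
    intro u v h
    rw [sumT, ← l3 _ _ (e1.ne fun q => h (by rw [q])), e2, Gr_adj]
    exact and_iff_right h
  have own : ∀ t, Own K M (fun a => F (2 * a)) (fun i => F (30 * K + 3 + 6 * i)) t ↔
      ∃ u, t = l (e u) := by
    intro t
    constructor
    · rintro (⟨a, ha, rfl⟩ | ⟨i, hi, rfl⟩)
      · obtain ⟨u, _, h⟩ := hf a ha
        exact ⟨u, h⟩
      · obtain ⟨u, _, h⟩ := hg i hi
        exact ⟨u, h⟩
    · rintro ⟨u, rfl⟩
      have h1 := u.1.2
      have h2 : InS K M u.1.1 := u.2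
      unfold InS at h2
      rcases h2 with h2 | h2
      · have ha : Ev K M (u.1.1 / 2) := ⟨by omega, by omega, by omega⟩
        obtain ⟨v, v1, v2⟩ := hf _ ha
        have q := Vt.ext (u := u) (v := v) (by omega)
        exact Or.inl ⟨_, ha, v2.trans (by rw [q])⟩
      · obtain ⟨v, v1, v2⟩ := hg ((u.1.1 - (30 * K + 3)) / 6) (by omega)
        have q := Vt.ext (u := u) (v := v) (by omega)
        exact Or.inr ⟨(u.1.1 - (30 * K + 3)) / 6, by omega, (v2.trans (by rw [q])).symm⟩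
  have cross : ∀ t ∈ Set.range fun w => (l w : ℚ),
      ¬ Own K M (fun a => F (2 * a)) (fun i => F (30 * K + 3 + 6 * i)) t →
      ∀ u, t + l (e u) ∉ Set.range fun w => (l w : ℚ) := by
    rintro t ⟨w, rfl⟩ hn u h
    have hw : w ∉ Set.range e := by
      rintro ⟨v, rfl⟩
      exact hn ((own _).2 ⟨v, rfl⟩)
    exact e3 w hw u ((l3 _ _ fun q => hw ⟨u, q.symm⟩).2 ((sumT _ _).1 h))
  refine ⟨fun a => F (2 * a), fun i => F (30 * K + 3 + 6 * i),
    ⟨Set.finite_range _, ?_, ?_, ?_, ?_, ?_, ?_, ?_, ?_, ?_, ?_, ?_⟩, own⟩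
  · rintro t ⟨w, rfl⟩
    show (0 : ℚ) < l w
    exact_mod_cast l2 w
  · intro a ha
    obtain ⟨u, _, h⟩ := hf a ha
    exact ⟨_, h.symm⟩
  · intro a ha
    obtain ⟨u, _, h⟩ := hg a ha
    exact ⟨_, h.symm⟩
  · intro a b ha hb q
    obtain ⟨u, u1, u2⟩ := hf a ha
    obtain ⟨v, v1, v2⟩ := hf b hb
    have := linj u v (by rw [← u2, ← v2]; exact q)
    omega
  · intro a ha b hb q
    obtain ⟨u, u1, u2⟩ := hg a ha
    obtain ⟨v, v1, v2⟩ := hg b hb
    have := linj u v (by rw [← u2, ← v2]; exact q)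
    omega
  · intro a ha b hb q
    obtain ⟨u, u1, u2⟩ := hf a ha
    obtain ⟨v, v1, v2⟩ := hg b hb
    have := linj u v (by rw [← u2, ← v2]; exact q)
    omega
  · intro a b ha hb q
    obtain ⟨u, u1, u2⟩ := hf a ha
    obtain ⟨v, v1, v2⟩ := hf b hb
    rw [u2, v2, adj u v (by omega), u1, v1]
    have := ha.1
    unfold InS; omega
  · intro a ha b hb
    obtain ⟨u, u1, u2⟩ := hf a ha
    obtain ⟨v, v1, v2⟩ := hg b hb
    rw [u2, v2, adj v u (by omega), u1, v1]
    unfold InS; omega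
  · intro a ha b hb q
    obtain ⟨u, u1, u2⟩ := hg a ha
    obtain ⟨v, v1, v2⟩ := hg b hb
    rw [u2, v2, adj u v (by omega), u1, v1]
    unfold InS; omega
  · intro t ht h1 h2 a ha
    obtain ⟨u, _, u2⟩ := hf a ha
    rw [u2]
    exact cross t ht (fun o => o.elim h1 fun ⟨i, hi, q⟩ => h2 i hi q) u
  · intro t ht h1 h2 a ha
    obtain ⟨u, _, u2⟩ := hg a ha
    rw [u2]
    exact cross t ht (fun o => o.elim h1 fun ⟨i, hi, q⟩ => h2 i hi q) u

theorem not_sum_one {K M K' M' : ℕ} (hK' : 20 ≤ K') (hM' : 18000 * K' ^ 3 ≤ M') (h6' : 6 ∣ M')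
    (hK : M' + 20 ≤ K) (hM : 18000 * K ^ 3 ≤ M) (h6 : 6 ∣ M) :
    ¬ IsSumGraph (addIsolated ((Gr K M).sum (Gr K' M')) 1) := by
  rintro ⟨l, l1, l2, l3⟩
  obtain ⟨f, g, C, o⟩ := core_of_emb (K := K) (M := M) (by omega) (cube_le hM) l1 l2 l3
    (fun v => Sum.inl (Sum.inl v)) (fun _ _ h => by simpa using h)
    (fun u v => by simp [addIsolated]) (by
      rintro ((w | w) | w) hw u
      · exact absurd ⟨w, rfl⟩ hw
      · simp [addIsolated]
      · simp [addIsolated])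
  obtain ⟨f', g', C', o'⟩ := core_of_emb hK' (cube_le hM') l1 l2 l3
    (fun v => Sum.inl (Sum.inr v)) (fun _ _ h => by simpa using h)
    (fun u v => by simp [addIsolated]) (by
      rintro ((w | w) | w) hw u
      · simp [addIsolated]
      · exact absurd ⟨w, rfl⟩ hw
      · simp [addIsolated])
  refine no_two (z := l (Sum.inr 0)) C C' ?_ ?_ hK' hM' h6' hK hM h6
  · rintro t ⟨(w | w) | w, rfl⟩
    · exact Or.inl ((o _).2 ⟨w, rfl⟩)
    · exact Or.inr (Or.inl ((o' _).2 ⟨w, rfl⟩))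
    · exact Or.inr (Or.inr (by rw [Subsingleton.elim w 0]))
  · intro t h h'
    obtain ⟨u, rfl⟩ := (o _).1 h
    obtain ⟨v, e⟩ := (o' _).1 h'
    have := l1 (by exact_mod_cast e : l _ = l _)
    simp at this

theorem Gr_unit {K M : ℕ} (hK : 20 ≤ K) (hM : 400 * K ≤ M) :
    Nonempty (Vt K M) ∧ HasSumNumber (Gr K M) 1 := by
  have h2 : InS K M 2 := by unfold InS; omega
  have hne : Nonempty (Vt K M) := ⟨⟨⟨2, by omega⟩, h2⟩⟩
  refine ⟨hne, Gr_sum hK hM, fun k hk => ?_⟩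
  rcases k with _ | k
  · exact absurd hk (not_sum_zero (Gr_nbr hK hM))
  · omega

theorem main_of {K M K' M' : ℕ} (hK' : 20 ≤ K') (hM' : 18000 * K' ^ 3 ≤ M') (h6' : 6 ∣ M')
    (hK : M' + 20 ≤ K) (hM : 18000 * K ^ 3 ≤ M) (h6 : 6 ∣ M) :
    ∃ (V₁ V₂ : Type) (_ : Finite V₁) (_ : Finite V₂) (G₁ : SimpleGraph V₁) (G₂ : SimpleGraph V₂),
      (∀ v, ∃ w, G₁.Adj v w) ∧ (∀ v, ∃ w, G₂.Adj v w) ∧
      HasSumNumber G₁ 1 ∧ HasSumNumber G₂ 1 ∧ HasSumNumber (G₁.sum G₂) 2 := by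
  have hK20 : 20 ≤ K := by omega
  obtain ⟨n1, u1⟩ := Gr_unit hK20 (cube_le hM)
  obtain ⟨n2, u2⟩ := Gr_unit hK' (cube_le hM')
  refine ⟨Vt K M, Vt K' M', inferInstance, inferInstance, Gr K M, Gr K' M',
    Gr_nbr hK20 (cube_le hM), Gr_nbr hK' (cube_le hM'), u1, u2, sum_two u1.1 u2.1,
    fun k hk => ?_⟩
  rcases k with _ | _ | k
  · refine absurd hk (not_sum_zero ?_)
    rintro (v | v)
    · obtain ⟨w, hw⟩ := Gr_nbr hK20 (cube_le hM) v
      exact ⟨Sum.inl w, by simpa using hw⟩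
    · obtain ⟨w, hw⟩ := Gr_nbr hK' (cube_le hM') v
      exact ⟨Sum.inr w, by simpa using hw⟩
  · exact absurd hk (not_sum_one hK' hM' h6' hK hM h6)
  · omega

theorem main :
    ∃ (V₁ V₂ : Type) (_ : Finite V₁) (_ : Finite V₂) (G₁ : SimpleGraph V₁) (G₂ : SimpleGraph V₂),
      (∀ v, ∃ w, G₁.Adj v w) ∧ (∀ v, ∃ w, G₂.Adj v w) ∧
      HasSumNumber G₁ 1 ∧ HasSumNumber G₂ 1 ∧ HasSumNumber (G₁.sum G₂) 2 :=
  main_of (K' := 20) (M' := 18000 * 20 ^ 3) (K := 18000 * 20 ^ 3 + 20)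
    (M := 18000 * (18000 * 20 ^ 3 + 20) ^ 3) le_rfl le_rfl (Dvd.dvd.mul_right (by norm_num) _)
    le_rfl le_rfl (Dvd.dvd.mul_right (by norm_num) _)

end Pool.Agent.H646Z.SumG
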