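import Mathlib

set_option autoImplicit false

namespace Pool.Agent.H646Z.Wk

universe u v

/-- An algebra with two binary operations, implication and composition. -/
structure ISAlg where
  /-- the underlying set -/
  carrier : Type
  /-- the implication -/
  imp : carrier → carrier → carrier
  /-- the composition -/
  comp : carrier → carrier → carrier

/-- `h` is a homomorphism from `A` to `B`. -/
def IsHom (A B : ISAlg) (h : A.carrier → B.carrier) : Prop :=
  ∀ a b, h (A.imp a b) = B.imp (h a) (h b) ∧ h (A.comp a b) = B.comp (h a) (h b)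

/-- `R` is a weakening relation on the poset `P`: `≤ ; R ; ≤ ⊆ R`. -/
def IsWeakening {P : Type u} [PartialOrder P] (R : Set (P × P)) : Prop :=
  ∀ x' x y y' : P, x' ≤ x → (x, y) ∈ R → y ≤ y' → (x', y') ∈ R

/-- relational composition -/
def rcomp {P : Type u} (R S : Set (P × P)) : Set (P × P) :=
  {p | ∃ y, (p.1, y) ∈ R ∧ (y, p.2) ∈ S}

/-- the implication of weakening relations -/
def rimp {P : Type u} [PartialOrder P] (R S : Set (P × P)) : Set (P × P) :=
  {p | ∀ x' y' : P, x' ≤ p.1 → p.2 ≤ y' → (x', y') ∈ R → (x', y') ∈ S}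

/-- `A` embeds in a direct product of algebras `W(P i)` of all weakening relations on posets
`P i`: it is isomorphic to a subalgebra of such a product. -/
def InK (A : ISAlg) : Prop :=
  ∃ (ι : Type v) (P : ι → Type u) (_ : ∀ i, PartialOrder (P i))
    (f : A.carrier → ∀ i, Set (P i × P i)),
    Function.Injective f ∧ (∀ a i, IsWeakening (f a i)) ∧
      ∀ a b i, f (A.imp a b) i = rimp (f a i) (f b i) ∧ f (A.comp a b) i = rcomp (f a i) (f b i)

end Pool.Agent.H646Z.Wk
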