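import Pool.Agent.H646Z.WkDefs

set_option autoImplicit false

namespace Pool.Agent.H646Z.Wk

universe u v

/-- a quasi-equation valid in the class -/
theorem quasi (A : ISAlg) (hA : InK.{u, v} A) (a b c c' e : A.carrier)
    (h1 : A.comp a b = A.imp a a)
    (h2 : A.imp (A.comp c a) (A.imp (A.comp c' a) e) = A.imp a a) :
    A.imp c (A.imp c' (A.comp e b)) = A.imp a a := by
  obtain ⟨ι, P, inst, f, hinj, hw, hf⟩ := hA
  apply hinj
  funext i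
  have htop : f (A.imp a a) i = Set.univ := by
    rw [(hf a a i).1]
    exact Set.eq_univ_of_forall fun p x y _ _ h => h
  have g1 := congrFun (congrArg f h1) i
  have g2 := congrFun (congrArg f h2) i
  rw [htop, (hf _ _ i).2] at g1
  rw [htop, (hf _ _ i).1, (hf _ _ i).1, (hf _ _ i).2, (hf _ _ i).2] at g2
  rw [htop, (hf _ _ i).1, (hf _ _ i).1, (hf _ _ i).2]
  refine Set.eq_univ_of_forall fun p x y _ _ hc w z hwx hyz hc' => ?_
  have hc2 : (w, z) ∈ f c i := hw c i w x y z hwx hc hyz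
  obtain ⟨t, ht1, ht2⟩ : (z, z) ∈ rcomp (f a i) (f b i) := by rw [g1]; trivial
  have h3 : (w, t) ∈ rimp (rcomp (f c i) (f a i)) (rimp (rcomp (f c' i) (f a i)) (f e i)) := by
    rw [g2]; trivial
  exact ⟨t, h3 w t le_rfl le_rfl ⟨z, hc2, ht1⟩ w t le_rfl le_rfl ⟨z, hc', ht1⟩, ht2⟩

/-- the four point poset -/
structure P4 where
  /-- the index -/
  val : Fin 4
  deriving DecidableEq

instance : Fintype P4 := ⟨{⟨0⟩, ⟨1⟩, ⟨2⟩, ⟨3⟩}, by
  rintro ⟨x⟩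
  fin_cases x <;> simp⟩

/-- the order `0 < 2 < 3`, `1 < 3` -/
def le4 (x y : P4) : Bool := Nat.testBit 0x8cad (4 * x.val.val + y.val.val)

instance : PartialOrder P4 where
  le x y := le4 x y = true
  le_refl := by decide
  le_trans := by decide
  le_antisymm := by decide

instance : DecidableRel (fun x y : P4 => x ≤ y) := fun x y =>
  inferInstanceAs (Decidable (le4 x y = true))

/-- the masks -/
def msk : Fin 10 → ℕ := ![65535, 250, 36013, 255, 36269, 43770, 2810, 61183, 4095, 61439]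

/-- membership -/
def mem4 (a : Fin 10) (x y : P4) : Bool := Nat.testBit (msk a) (4 * x.val.val + y.val.val)

/-- the ten element algebra -/
def AA : ISAlg where
  carrier := Fin 10
  imp := ![![0, 1, 2, 3, 4, 5, 6, 7, 8, 9], ![0, 0, 4, 0, 4, 0, 0, 0, 0, 0],
    ![0, 1, 0, 3, 0, 5, 6, 0, 8, 0], ![0, 5, 4, 0, 4, 5, 5, 0, 0, 0],
    ![0, 1, 7, 3, 0, 5, 6, 7, 8, 0], ![0, 3, 4, 3, 4, 0, 8, 0, 8, 0],
    ![0, 3, 4, 3, 4, 0, 0, 0, 0, 0], ![0, 1, 4, 3, 4, 5, 6, 0, 8, 0],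
    ![0, 1, 2, 3, 4, 5, 5, 7, 0, 0], ![0, 1, 2, 3, 4, 5, 6, 7, 8, 0]]
  comp := ![![0, 0, 0, 0, 0, 0, 0, 0, 0, 0], ![3, 3, 1, 3, 1, 3, 3, 3, 3, 3],
    ![0, 1, 2, 3, 4, 5, 6, 7, 8, 9], ![3, 3, 3, 3, 3, 3, 3, 3, 3, 3],
    ![0, 6, 4, 8, 4, 5, 6, 9, 8, 9], ![0, 0, 5, 0, 5, 0, 0, 0, 0, 0],
    ![8, 8, 6, 8, 6, 8, 8, 8, 8, 8], ![0, 0, 7, 0, 0, 0, 0, 0, 0, 0],
    ![8, 8, 8, 8, 8, 8, 8, 8, 8, 8], ![0, 0, 9, 0, 0, 0, 0, 0, 0, 0]]

/-- the seven element quotient -/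
def BB : ISAlg where
  carrier := Fin 7
  imp := ![![0, 1, 2, 3, 4, 5, 6], ![0, 0, 4, 0, 4, 0, 0], ![0, 1, 0, 3, 0, 5, 0],
    ![0, 5, 4, 0, 4, 5, 0], ![0, 1, 6, 3, 0, 5, 6], ![0, 3, 4, 3, 4, 0, 0], ![0, 1, 4, 3, 4, 5, 0]]
  comp := ![![0, 0, 0, 0, 0, 0, 0], ![3, 3, 1, 3, 1, 3, 3], ![0, 1, 2, 3, 4, 5, 6],
    ![3, 3, 3, 3, 3, 3, 3], ![0, 5, 4, 0, 4, 5, 0], ![0, 0, 5, 0, 5, 0, 0], ![0, 0, 6, 0, 0, 0, 0]]

/-- the quotient map -/
def hh : Fin 10 → Fin 7 := ![0, 1, 2, 3, 4, 5, 5, 6, 0, 0]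

theorem hh_hom : IsHom AA BB hh := by
  have : ∀ a b : Fin 10, hh (AA.imp a b) = BB.imp (hh a) (hh b) ∧
      hh (AA.comp a b) = BB.comp (hh a) (hh b) := by decide +kernel
  exact this

theorem hh_surj : Function.Surjective hh := by decide +kernel

theorem AA_mem : InK.{0, 0} AA := by
  have k1 : ∀ a b : Fin 10, (∀ x y : P4, mem4 a x y = mem4 b x y) → a = b := by decide +kernel
  have k2 : ∀ (a : Fin 10) (x' x y y' : P4), x' ≤ x → mem4 a x y = true → y ≤ y' →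
      mem4 a x' y' = true := by decide +kernel
  have k3 : ∀ (a b : Fin 10) (x y : P4), mem4 (AA.imp a b) x y = true ↔
      ∀ x' y' : P4, x' ≤ x → y ≤ y' → mem4 a x' y' = true → mem4 b x' y' = true := by
    decide +kernel
  have k4 : ∀ (a b : Fin 10) (x z : P4), mem4 (AA.comp a b) x z = true ↔
      ∃ y : P4, mem4 a x y = true ∧ mem4 b y z = true := by decide +kernel
  refine ⟨Unit, fun _ => P4, fun _ => inferInstance,
    fun a _ => {p | mem4 a p.1 p.2 = true}, ?_, ?_, ?_⟩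
  · intro a b hab
    refine k1 a b fun x y => ?_
    have h := Set.ext_iff.1 (congrFun hab ()) (x, y)
    simp only [Set.mem_ofPred_eq] at h
    exact Bool.eq_iff_iff.2 h
  · intro a _ x' x y y' h1 h2 h3
    exact k2 a x' x y y' h1 h2 h3
  · intro a b _
    constructor
    · ext ⟨x, y⟩
      exact k3 a b x y
    · ext ⟨x, z⟩
      exact k4 a b x z

theorem BB_not_mem : ¬ InK.{u, v} BB := by
  intro h
  have h1 := quasi BB h (4 : Fin 7) (3 : Fin 7) (2 : Fin 7) (5 : Fin 7) (2 : Fin 7)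
    (show (BB.comp (4 : Fin 7) (3 : Fin 7) : Fin 7) = BB.imp (4 : Fin 7) (4 : Fin 7) from rfl)
    rfl
  have h2 : (3 : Fin 7) = 0 := h1
  exact absurd h2 (by decide)

theorem main : ∃ (A B : ISAlg) (h : A.carrier → B.carrier),
    InK.{0, 0} A ∧ IsHom A B h ∧ Function.Surjective h ∧ ¬ InK.{u, v} B :=
  ⟨AA, BB, hh, AA_mem, hh_hom, hh_surj, BB_not_mem⟩

end Pool.Agent.H646Z.Wk
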